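import Mathlib

/-! Complex analysis lemmas. -/

set_option autoImplicit false

open Topology Filter Set

namespace Pool.Agent.TH615.ML

/-- An entire function of polynomial growth with too many zeros vanishes. -/
theorem entire_zero (d : ℕ) : ∀ (f : ℂ → ℂ) (_ : Differentiable ℂ f) (C : ℝ)
    (_ : ∀ z, ‖f z‖ ≤ C * (1 + ‖z‖) ^ d) (Z : Finset ℂ) (_ : d < Z.card) (_ : ∀ z ∈ Z, f z = 0),
    ∀ z, f z = 0 := by
  induction d with
  | zero =>
    intro f hf C hC Z hZ h0 z
    obtain ⟨z0, hz0⟩ := Finset.card_pos.mp hZ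
    rw [← h0 z0 hz0]
    apply hf.apply_eq_apply_of_bounded
    refine (isBounded_iff_forall_norm_le).mpr ⟨C, ?_⟩
    rintro _ ⟨w, rfl⟩
    simpa using hC w
  | succ d ih =>
    intro f hf C hC Z hZ h0 z
    obtain ⟨z0, hz0⟩ := Finset.card_pos.mp (by omega : 0 < Z.card)
    have hC0 : 0 ≤ C := by
      have := (norm_nonneg _).trans (hC 0)
      simpa using this
    have hg : Differentiable ℂ (dslope f z0) := by
      rw [← differentiableOn_univ, Complex.differentiableOn_dslope univ_mem]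
      exact hf.differentiableOn
    obtain ⟨C2, hC2⟩ := (isCompact_closedBall z0 1).exists_bound_of_continuousOn
      hg.continuous.continuousOn
    have hC20 : 0 ≤ C2 := (norm_nonneg _).trans (hC2 z0 (by simp))
    have hb : ∀ z, ‖dslope f z0 z‖ ≤ (C * (2 + ‖z0‖) + C2) * (1 + ‖z‖) ^ d := by
      intro z
      have h1 : (1:ℝ) ≤ (1 + ‖z‖) ^ d := one_le_pow₀ (by linarith [norm_nonneg z])
      rcases le_or_gt ‖z - z0‖ 1 with hz | hz
      · have h2 := hC2 z (by simpa [dist_eq_norm] using hz)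
        calc ‖dslope f z0 z‖ ≤ C2 := h2
          _ ≤ (C * (2 + ‖z0‖) + C2) * 1 := by
              have : 0 ≤ C * (2 + ‖z0‖) := by positivity
              linarith
          _ ≤ _ := by
              apply mul_le_mul_of_nonneg_left h1 (by positivity)
      · have h3 : (z - z0) • dslope f z0 z = f z - f z0 := sub_smul_dslope f z0 z
        rw [h0 z0 hz0, sub_zero] at h3
        have h4 : ‖z - z0‖ * ‖dslope f z0 z‖ = ‖f z‖ := by rw [← h3, norm_smul]
        have h5 : 1 + ‖z‖ ≤ (2 + ‖z0‖) * ‖z - z0‖ := by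
          have : ‖z‖ ≤ ‖z - z0‖ + ‖z0‖ := by
            calc ‖z‖ = ‖(z - z0) + z0‖ := by rw [sub_add_cancel]
              _ ≤ _ := norm_add_le _ _
          nlinarith [norm_nonneg z0]
        have h6 : ‖z - z0‖ * ‖dslope f z0 z‖ ≤ ‖z - z0‖ * (C * (2 + ‖z0‖) * (1 + ‖z‖) ^ d) := by
          rw [h4]
          calc ‖f z‖ ≤ C * (1 + ‖z‖) ^ (d + 1) := hC z
            _ = C * (1 + ‖z‖) ^ d * (1 + ‖z‖) := by ring
            _ ≤ C * (1 + ‖z‖) ^ d * ((2 + ‖z0‖) * ‖z - z0‖) :=
                mul_le_mul_of_nonneg_left h5 (by positivity)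
            _ = _ := by ring
        have h7 := le_of_mul_le_mul_left h6 (by linarith)
        have h8 : 0 ≤ C2 * (1 + ‖z‖) ^ d := by positivity
        calc ‖dslope f z0 z‖ ≤ C * (2 + ‖z0‖) * (1 + ‖z‖) ^ d := h7
          _ ≤ _ := by rw [add_mul]; linarith
    have := ih (dslope f z0) hg _ hb (Z.erase z0) (by rw [Finset.card_erase_of_mem hz0]; omega)
      (by
        intro w hw
        rw [Finset.mem_erase] at hw
        rw [dslope_of_ne _ hw.1, slope_def_field, h0 w hw.2, h0 z0 hz0]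
        simp) z
    have h3 : (z - z0) • dslope f z0 z = f z - f z0 := sub_smul_dslope f z0 z
    rw [this, smul_zero, h0 z0 hz0, sub_zero] at h3
    exact h3.symm

/-- An injective analytic function has nonvanishing derivative. -/
theorem deriv_ne_zero_of_inj {f : ℂ → ℂ} {z0 : ℂ} (hf : AnalyticAt ℂ f z0) {U : Set ℂ}
    (hU : U ∈ 𝓝 z0) (hinj : InjOn f U) : deriv f z0 ≠ 0 := by
  intro hd
  have hf1 : AnalyticAt ℂ (fun z => f z - f z0) z0 := hf.sub analyticAt_const
  have hne : ¬ ∀ᶠ z in 𝓝 z0, f z - f z0 = 0 := by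
    intro h
    have h1 : ∀ᶠ z in 𝓝[≠] z0, f z - f z0 = 0 ∧ z ∈ U :=
      (nhdsWithin_le_nhds (h.and hU))
    obtain ⟨z, ⟨h2, h3⟩, h4⟩ := (h1.and self_mem_nhdsWithin).exists
    exact h4 (hinj h3 (mem_of_mem_nhds hU) (sub_eq_zero.mp h2))
  obtain ⟨n, g, hg, hg0, hfg⟩ := (hf1.exists_eventuallyEq_pow_smul_nonzero_iff).mpr hne
  have hn0 : n ≠ 0 := by
    rintro rfl
    have := hfg.self_of_nhds
    simp at this
    exact hg0 this.symm
  have hn1 : n ≠ 1 := by
    rintro rfl
    have h1 : HasDerivAt (fun z => f z - f z0) (g z0) z0 := by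
      have h2 : HasDerivAt (fun z => (z - z0) ^ 1 • g z)
          (1 * g z0 + (z0 - z0) * deriv g z0) z0 := by
        have := (((hasDerivAt_id' z0).sub_const z0).fun_mul hg.differentiableAt.hasDerivAt)
        simpa [pow_one, smul_eq_mul] using this
      rw [sub_self, zero_mul, add_zero, one_mul] at h2
      exact h2.congr_of_eventuallyEq hfg
    have h3 : HasDerivAt (fun z => f z - f z0) 0 z0 := by
      have := hf.differentiableAt.hasDerivAt
      rw [hd] at this
      exact this.sub_const _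
    exact hg0 (h1.unique h3)
  have hn2 : 2 ≤ n := by omega
  obtain ⟨c, hc⟩ := IsAlgClosed.exists_pow_nat_eq (g z0) (Nat.pos_of_ne_zero hn0)
  have hc0 : c ≠ 0 := by
    rintro rfl
    rw [zero_pow hn0] at hc
    exact hg0 hc.symm
  set k : ℂ → ℂ := fun z => (z - z0) * (c * (g z / g z0) ^ ((1 : ℂ) / n)) with hk
  have hr : AnalyticAt ℂ (fun z => (g z / g z0) ^ ((1 : ℂ) / n)) z0 := by
    apply AnalyticAt.cpow (hg.div analyticAt_const hg0) analyticAt_const
    simp [hg0]
  have hka : AnalyticAt ℂ k z0 := (analyticAt_id.sub analyticAt_const).mul (analyticAt_const.mul hr)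
  have hkd : deriv k z0 = c := by
    have h1 : HasDerivAt k (1 * (c * (g z0 / g z0) ^ ((1 : ℂ) / n)) + (z0 - z0) *
        deriv (fun z => c * (g z / g z0) ^ ((1 : ℂ) / n)) z0) z0 := by
      have := (((hasDerivAt_id' z0).sub_const z0).fun_mul
        ((analyticAt_const (v := c)).fun_mul hr).differentiableAt.hasDerivAt)
      simpa [hk] using this
    rw [h1.deriv, div_self hg0]
    simp
  have hks : HasStrictDerivAt k c z0 := by
    rw [← hkd]
    exact hka.hasStrictDerivAt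
  have hmap := hks.map_nhds_eq hc0
  have hk0 : k z0 = 0 := by simp [hk]
  have hpow : ∀ᶠ z in 𝓝 z0, k z ^ n = f z - f z0 := by
    filter_upwards [hfg] with z hz
    rw [hz, hk]
    simp only [smul_eq_mul]
    rw [mul_pow, mul_pow, hc]
    congr 1
    rw [one_div, Complex.cpow_nat_inv_pow _ hn0]
    field_simp
  have hV : k '' (U ∩ {z | k z ^ n = f z - f z0}) ∈ 𝓝 (0 : ℂ) := by
    rw [← hk0, ← hmap]
    exact image_mem_map (inter_mem hU hpow)
  obtain ⟨ε, hε, hball⟩ := Metric.mem_nhds_iff.mp hV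
  set ζ : ℂ := Complex.exp (2 * Real.pi * Complex.I / n) with hζ
  have hprim : IsPrimitiveRoot ζ n := Complex.isPrimitiveRoot_exp n hn0
  have hζ1 : ζ ≠ 1 := hprim.ne_one (by omega)
  have hζn : ‖ζ‖ = 1 := hprim.norm'_eq_one hn0
  set w : ℂ := ((ε / 2 : ℝ) : ℂ) with hw
  have hw0 : w ≠ 0 := by
    rw [hw]
    exact_mod_cast (by positivity : (ε / 2 : ℝ) ≠ 0)
  have hwn : ‖w‖ < ε := by
    rw [hw, Complex.norm_real, Real.norm_of_nonneg (by positivity)]
    linarith
  obtain ⟨z1, ⟨hz1U, hz1⟩, hz1w⟩ := hball (show w ∈ Metric.ball (0:ℂ) ε by simpa using hwn)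
  obtain ⟨z2, ⟨hz2U, hz2⟩, hz2w⟩ := hball (show ζ * w ∈ Metric.ball (0:ℂ) ε by
    rw [mem_ball_zero_iff, norm_mul, hζn, one_mul]; exact hwn)
  have h12 : z1 = z2 := by
    apply hinj hz1U hz2U
    have h3 : k z1 ^ n = f z1 - f z0 := hz1
    have h4 : k z2 ^ n = f z2 - f z0 := hz2
    rw [hz1w] at h3
    rw [hz2w, mul_pow, hprim.pow_eq_one, one_mul] at h4
    have : f z1 - f z0 = f z2 - f z0 := by rw [← h3, ← h4]
    linear_combination this
  rw [h12, hz2w] at hz1w
  have : (ζ - 1) * w = 0 := by linear_combination hz1w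
  rcases mul_eq_zero.mp this with h | h
  · exact hζ1 (sub_eq_zero.mp h)
  · exact hw0 h

theorem wp_local (L : PeriodPair) {l : ℂ} (hl : l ∈ L.lattice) :
    ∃ C, ∀ᶠ w in 𝓝 l, ‖w - l‖ ^ 2 * ‖L.weierstrassP w‖ ≤ C := by
  have hc : ContinuousAt (fun w => (w - l) ^ 2 * L.weierstrassPExcept l w + 1
      - (w - l) ^ 2 / l ^ 2) l := by
    have : ContinuousAt (L.weierstrassPExcept l) l :=
      (L.analyticAt_weierstrassPExcept l).continuousAt
    fun_prop
  refine ⟨‖(l - l) ^ 2 * L.weierstrassPExcept l l + 1 - (l - l) ^ 2 / l ^ 2‖ + 1, ?_⟩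
  have h1 := hc.norm.eventually_lt_const (u := ‖(l - l) ^ 2 * L.weierstrassPExcept l l + 1
    - (l - l) ^ 2 / l ^ 2‖ + 1) (by linarith)
  filter_upwards [h1] with w hw
  by_cases h : w = l
  · rw [h]
    simp only [sub_self, norm_zero, ne_eq, OfNat.ofNat_ne_zero, not_false_eq_true, zero_pow,
      zero_mul, zero_add, zero_div, sub_zero]
    positivity
  · have h2 := L.ite_eq_one_sub_sq_mul_weierstrassP l hl w
    rw [if_neg h] at h2
    rw [← norm_pow, ← norm_mul, h2]
    exact hw.le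

/-- growth of `℘ ∘ F` -/
theorem wp_growth (L : PeriodPair) {F : ℂ → ℂ} {z0 : ℂ} (hF : AnalyticAt ℂ F z0)
    (hd : F z0 ∉ L.lattice ∨ deriv F z0 ≠ 0) :
    ∃ C, ∀ᶠ z in 𝓝 z0, ‖z - z0‖ ^ 2 * ‖L.weierstrassP (F z)‖ ≤ C := by
  by_cases hl : F z0 ∈ L.lattice
  · have hd' : deriv F z0 ≠ 0 := by
      rcases hd with h | h
      · exact absurd hl h
      · exact h
    obtain ⟨C, hC⟩ := wp_local L hl
    have h1 := hF.continuousAt.eventually hC
    have h2 : (fun z => z - z0) =O[𝓝 z0] fun z => F z - F z0 :=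
      (by
        have h3 := (hF.differentiableAt.hasDerivAt.isTheta_sub hd').symm.isBigO
        rw [Filter.prod_pure] at h3
        exact (Asymptotics.isBigO_map.mp h3))
    obtain ⟨c, hc0, hc⟩ := h2.exists_pos
    refine ⟨c ^ 2 * C, ?_⟩
    filter_upwards [h1, hc.bound] with z hz hz2
    calc ‖z - z0‖ ^ 2 * ‖L.weierstrassP (F z)‖
        ≤ (c * ‖F z - F z0‖) ^ 2 * ‖L.weierstrassP (F z)‖ := by gcongr
      _ = c ^ 2 * (‖F z - F z0‖ ^ 2 * ‖L.weierstrassP (F z)‖) := by ring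
      _ ≤ c ^ 2 * C := by gcongr
  · have hc : ContinuousAt (fun z => ‖z - z0‖ ^ 2 * ‖L.weierstrassP (F z)‖) z0 := by
      have h1 : ContinuousAt L.weierstrassP (F z0) :=
        (L.analyticOnNhd_weierstrassP _ hl).continuousAt
      have h2 : ContinuousAt (fun z => L.weierstrassP (F z)) z0 :=
        ContinuousAt.comp (f := F) h1 hF.continuousAt
      fun_prop
    refine ⟨‖z0 - z0‖ ^ 2 * ‖L.weierstrassP (F z0)‖ + 1, ?_⟩
    filter_upwards [hc.eventually_lt_const (u := ‖z0 - z0‖ ^ 2 * ‖L.weierstrassP (F z0)‖ + 1)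
      (by linarith)] with z hz
    exact hz.le

/-- extension over finitely many points -/
theorem entire_ext {P : ℂ → ℂ} {F : Set ℂ} (hF : F.Finite)
    (hd : ∀ x ∉ F, DifferentiableAt ℂ P x) (hb : ∀ x, ∃ C, ∀ᶠ y in 𝓝 x, ‖P y‖ ≤ C) :
    ∃ P' : ℂ → ℂ, Differentiable ℂ P' ∧ ∀ x ∉ F, P' x = P x := by
  classical
  refine ⟨fun x => if x ∈ F then limUnder (𝓝[≠] x) P else P x, ?_, fun x hx => by simp [hx]⟩
  intro x
  have hev : ∀ᶠ y in 𝓝 x, y ∉ F \ {x} :=
    (hF.subset (sdiff_subset)).isClosed.isOpen_compl.mem_nhds (by simp)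
  by_cases hx : x ∈ F
  · obtain ⟨C, hC⟩ := hb x
    obtain ⟨s, hs, hso, hxs⟩ := eventually_nhds_iff.mp (hC.and hev)
    have hsn : s ∈ 𝓝 x := hso.mem_nhds hxs
    have h1 : DifferentiableOn ℂ P (s \ {x}) := by
      intro y hy
      apply (hd y ?_).differentiableWithinAt
      intro hyF
      exact (hs y hy.1).2 ⟨hyF, hy.2⟩
    have h2 : BddAbove (norm ∘ P '' (s \ {x})) := by
      refine ⟨C, ?_⟩
      rintro _ ⟨y, hy, rfl⟩
      exact (hs y hy.1).1
    have h3 := Complex.differentiableOn_update_limUnder_of_bddAbove hsn h1 h2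
    have h4 := h3.differentiableAt hsn
    apply h4.congr_of_eventuallyEq
    filter_upwards [hsn] with y hy
    by_cases hyx : y = x
    · rw [hyx]; simp [hx]
    · have : y ∉ F := fun h => (hs y hy).2 ⟨h, hyx⟩
      simp [this, hyx]
  · apply (hd x hx).congr_of_eventuallyEq
    filter_upwards [hF.isClosed.isOpen_compl.mem_nhds hx] with y hy
    have : y ∉ F := hy
    simp [this]

end Pool.Agent.TH615.ML
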