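import Mathlib

/-! Shortest vectors of the quadratic forms along the axis of `[[n,-1],[1,0]]`. -/

set_option autoImplicit false

namespace Pool.Agent.TH615.ML

lemma four_le_sq {y : ℝ} (h : y ≤ -2 ∨ 2 ≤ y) : 4 ≤ y ^ 2 := by
  rcases h with h | h <;> nlinarith

/-- Along the fundamental arc, `(1,0)` is a shortest vector. -/
lemma qmin {lam mu X Y n : ℝ} {m : ℤ} (hm : (m : ℝ) = n) (hn5 : 5 ≤ n) (hlam : 1 < lam)
    (hmu0 : 0 < mu) (hmu1 : mu < 1) (hli : lam * mu = 1)
    (hsum : lam + mu = n) (hXY : X * Y = 1) (hX1 : mu < X) (hX2 : X ≤ lam)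
    (x y : ℤ) (hxy : ¬ (x = 0 ∧ y = 0)) :
    X + Y ≤ X * (x - mu * y) ^ 2 + Y * (lam * y - x) ^ 2 ∧
      (X * (x - mu * y) ^ 2 + Y * (lam * y - x) ^ 2 = X + Y →
        (y = 0 ∧ (x = 1 ∨ x = -1)) ∨ (x = 0 ∧ (y = 1 ∨ y = -1) ∧ X = lam)) := by
  have hlam0 : 0 < lam := by linarith
  have hX0 : 0 < X := hmu0.trans hX1
  have hY0 : 0 < Y := (pos_iff_pos_of_mul_pos (by rw [hXY]; norm_num)).mp hX0
  -- bounds for Y
  have hY1 : mu ≤ Y := by
    have h1 : 1 ≤ lam * Y := by
      rw [← hXY]; exact mul_le_mul_of_nonneg_right hX2 hY0.le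
    have h2 : mu * 1 ≤ mu * (lam * Y) := mul_le_mul_of_nonneg_left h1 hmu0.le
    calc mu = mu * 1 := (mul_one _).symm
      _ ≤ mu * (lam * Y) := h2
      _ = Y := by linear_combination Y * hli
  have hY2 : Y < lam := by
    have h1 : mu * Y < 1 := by
      rw [← hXY]; exact mul_lt_mul_of_pos_right hX1 hY0
    have h2 : lam * (mu * Y) < lam * 1 := mul_lt_mul_of_pos_left h1 hlam0
    calc Y = lam * (mu * Y) := by linear_combination (-Y) * hli
      _ < lam * 1 := h2
      _ = lam := mul_one _
  have ha : X + Y ≤ n := by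
    have h1 : 0 ≤ (X - mu) * (lam - X) := mul_nonneg (by linarith) (by linarith)
    have h3 : 0 ≤ X * (n - X - Y) := by
      have : X * (n - X - Y) = (X - mu) * (lam - X) := by
        rw [← hsum]
        linear_combination hli - hXY
      rw [this]; exact h1
    have h4 : 0 ≤ n - X - Y := nonneg_of_mul_nonneg_right h3 hX0
    linarith
  -- abbreviations
  obtain ⟨a, hadef⟩ : ∃ a, a = X + Y := ⟨_, rfl⟩
  obtain ⟨b, hbdef⟩ : ∃ b, b = mu * X + lam * Y := ⟨_, rfl⟩
  obtain ⟨c, hcdef⟩ : ∃ c, c = mu ^ 2 * X + lam ^ 2 * Y := ⟨_, rfl⟩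
  have ha0 : 0 < a := by rw [hadef]; linarith
  have hb0 : 0 < b := by rw [hbdef]; positivity
  have hnb : n * b = a + c := by
    rw [hadef, hbdef, hcdef, ← hsum]
    linear_combination (X + Y) * hli
  have hQ : ∀ x y : ℝ, X * (x - mu * y) ^ 2 + Y * (lam * y - x) ^ 2
      = a * x ^ 2 - 2 * b * x * y + c * y ^ 2 := by
    intro x y
    rw [hadef, hbdef, hcdef]; ring
  have hdisc : a * c - b ^ 2 = n ^ 2 - 4 := by
    rw [hadef, hbdef, hcdef, ← hsum]
    linear_combination (lam - mu) ^ 2 * hXY - 4 * hli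
  have hca : a ≤ c := by
    have h1 : c - a = (lam ^ 2 - 1) * (Y - mu ^ 2 * X) := by
      rw [hcdef, hadef]
      linear_combination ((lam * mu + 1) * X) * hli
    have h2 : 0 ≤ Y - mu ^ 2 * X := by
      have h3 : mu * X ≤ 1 := by
        calc mu * X ≤ mu * lam := mul_le_mul_of_nonneg_left hX2 hmu0.le
          _ = 1 := by rw [mul_comm]; exact hli
      have h4 : mu * (mu * X) ≤ mu * 1 := mul_le_mul_of_nonneg_left h3 hmu0.le
      rw [pow_two, mul_assoc]; linarith
    have h3 : 0 ≤ (lam ^ 2 - 1) * (Y - mu ^ 2 * X) := by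
      apply mul_nonneg _ h2
      have : 1 * 1 < lam * lam := mul_lt_mul hlam hlam.le (by norm_num) hlam0.le
      rw [pow_two]; linarith
    linarith
  have hca' : c = a → X = lam := by
    intro h
    have h1 : c - a = (lam ^ 2 - 1) * (Y - mu ^ 2 * X) := by
      rw [hcdef, hadef]
      linear_combination ((lam * mu + 1) * X) * hli
    have h2 : Y - mu ^ 2 * X = 0 := by
      have h3 : (lam ^ 2 - 1) * (Y - mu ^ 2 * X) = 0 := by rw [← h1, h]; ring
      rcases mul_eq_zero.mp h3 with h4 | h4
      · exfalso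
        have : 1 * 1 < lam * lam := mul_lt_mul hlam hlam.le (by norm_num) hlam0.le
        rw [pow_two] at h4; linarith
      · exact h4
    have h3 : (mu * X - 1) * (mu * X + 1) = 0 := by
      have : X * (Y - mu ^ 2 * X) = 0 := by rw [h2]; ring
      linear_combination hXY - this
    rcases mul_eq_zero.mp h3 with h4 | h4
    · have : X = lam * (mu * X) := by linear_combination (-X) * hli
      rw [this, show mu * X = 1 by linarith, mul_one]
    · exfalso
      have := mul_pos hmu0 hX0
      linarith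
  obtain ⟨c', hc'def⟩ : ∃ c', c' = a * n ^ 2 - 2 * b * n + c := ⟨_, rfl⟩
  have hc'a : a < c' := by
    have h0 : c' = lam ^ 2 * X + mu ^ 2 * Y := by
      have : c' = a * (n ^ 2 - 2) - c := by rw [hc'def]; linear_combination (-2) * hnb
      rw [this, hadef, hcdef, ← hsum]
      linear_combination (2 * X + 2 * Y) * hli
    have h1 : c' - a = (lam ^ 2 - 1) * (X - mu ^ 2 * Y) := by
      rw [h0, hadef]
      linear_combination ((lam * mu + 1) * Y) * hli
    have h2 : 0 < X - mu ^ 2 * Y := by
      have h3 : mu * Y < 1 := by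
        calc mu * Y < mu * lam := mul_lt_mul_of_pos_left hY2 hmu0
          _ = 1 := by rw [mul_comm]; exact hli
      have h4 : mu * (mu * Y) < mu * 1 := mul_lt_mul_of_pos_left h3 hmu0
      calc (0:ℝ) < X - mu := by linarith
        _ ≤ X - mu ^ 2 * Y := by rw [pow_two, mul_assoc]; linarith
    have h3 : 0 < (lam ^ 2 - 1) * (X - mu ^ 2 * Y) := by
      apply mul_pos _ h2
      have : 1 * 1 < lam * lam := mul_lt_mul hlam hlam.le (by norm_num) hlam0.le
      rw [pow_two]; linarith
    linarith
  -- the case y = 1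
  have key : ∀ x : ℤ, a ≤ a * (x:ℝ) ^ 2 - 2 * b * x + c ∧
      (a * (x:ℝ) ^ 2 - 2 * b * x + c = a → x = 0 ∧ X = lam) := by
    intro x
    have hmain : ∀ (u : ℝ) (C : ℝ), a ≤ C → 1 ≤ u → 2 * u ≤ n →
        0 < n * (a * u ^ 2 - 2 * ((a + C) / n) * u + C - a) := by
      intro u C hC hu1 hu2
      have hn0 : n ≠ 0 := by linarith
      have h1 : n * (a * u ^ 2 - 2 * ((a + C) / n) * u + C - a)
          = a * (n * u ^ 2 - 2 * u - n) + C * (n - 2 * u) := by
        field_simp
        ring
      rw [h1]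
      have h2 : C * (n - 2 * u) ≥ a * (n - 2 * u) :=
        mul_le_mul_of_nonneg_right hC (by linarith)
      have h3 : 0 < a * (u * (n * u - 4)) := by
        apply mul_pos ha0
        apply mul_pos (by linarith)
        have : 5 * 1 ≤ n * u := mul_le_mul hn5 hu1 (by norm_num) (by linarith)
        linarith
      have h4 : a * (n * u ^ 2 - 2 * u - n) + a * (n - 2 * u) = a * (u * (n * u - 4)) := by ring
      linarith
    have hbn : b = (a + c) / n := by
      rw [eq_div_iff (by linarith)]
      linarith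
    rcases lt_trichotomy x 0 with hx | hx | hx
    · have hx' : (x:ℝ) ≤ -1 := by exact_mod_cast Int.le_sub_one_of_lt hx
      have : a < a * (x:ℝ) ^ 2 - 2 * b * x + c := by
        have h1 : 0 < b * (-x) := mul_pos hb0 (by linarith)
        have h0 : (x:ℝ) ≠ 0 := by linarith
        have h2 : 0 < a * (x:ℝ) ^ 2 := mul_pos ha0 (by positivity)
        linarith
      exact ⟨this.le, fun h => absurd h this.ne'⟩
    · subst hx
      refine ⟨by simpa using hca, fun h => ⟨rfl, hca' ?_⟩⟩
      simpa using h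
    · have hx1 : (1:ℝ) ≤ x := by exact_mod_cast hx
      have hlt : a < a * (x:ℝ) ^ 2 - 2 * b * x + c := by
        by_cases h2 : 2 * (x:ℝ) ≤ n
        · have h3 := hmain x c hca hx1 h2
          rw [← hbn] at h3
          have h4 : 0 < a * (x:ℝ) ^ 2 - 2 * b * x + c - a :=
            (pos_iff_pos_of_mul_pos h3).mp (by linarith)
          linarith
        · push Not at h2
          have hform : a * (x:ℝ) ^ 2 - 2 * b * x + c =
              a * (n - x) ^ 2 - 2 * (a * n - b) * (n - x) + c' := by
            rw [hc'def]; ring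
          have hb' : a * n - b = (a + c') / n := by
            rw [eq_div_iff (by linarith), hc'def]
            linear_combination hnb
          rw [hform]
          rcases lt_trichotomy x m with hxm | hxm | hxm
          · have h5 : (1:ℝ) ≤ n - x := by
              have : (x:ℝ) + 1 ≤ m := by exact_mod_cast hxm
              rw [hm] at this
              linarith
            have h3 := hmain (n - x) c' hc'a.le h5 (by linarith)
            rw [← hb'] at h3
            have h4 : 0 < a * (n - x) ^ 2 - 2 * (a * n - b) * (n - x) + c' - a :=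
              (pos_iff_pos_of_mul_pos h3).mp (by linarith)
            linarith
          · have : (n - x : ℝ) = 0 := by rw [hxm, hm]; ring
            rw [this]
            simpa using hc'a
          · have h5 : n - (x:ℝ) ≤ -1 := by
              have : (m:ℝ) + 1 ≤ x := by exact_mod_cast hxm
              rw [hm] at this
              linarith
            have h6 : 0 < a * n - b := by
              rw [hb']
              exact div_pos (by linarith) (by linarith)
            have h7 : 0 < (a * n - b) * (-(n - x)) := mul_pos h6 (by linarith)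
            have h8 : 0 ≤ a * (n - (x:ℝ)) ^ 2 := by positivity
            linarith
      exact ⟨hlt.le, fun h => absurd h hlt.ne'⟩
  rw [hQ, ← hadef]
  rcases lt_trichotomy y 0 with hy | hy | hy
  · rcases (Int.le_sub_one_of_lt hy).lt_or_eq with hy2 | hy2
    · have hy3 : (y:ℝ) ≤ -2 := by
        have : y ≤ -2 := by omega
        exact_mod_cast this
      have hlt : a < a * (x:ℝ) ^ 2 - 2 * b * x * y + c * y ^ 2 := by
        have h1 : a * (a * (x:ℝ) ^ 2 - 2 * b * x * y + c * y ^ 2)
            = (a * x - b * y) ^ 2 + (n ^ 2 - 4) * y ^ 2 := by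
          rw [← hdisc]; ring
        have h2 : a * a < a * (a * (x:ℝ) ^ 2 - 2 * b * x * y + c * y ^ 2) := by
          rw [h1]
          have h3 : (4:ℝ) ≤ (y:ℝ) ^ 2 := four_le_sq (by first | exact Or.inl hy3 | exact Or.inr hy3)
          have h6 : 25 ≤ n * n := by
            have := mul_le_mul hn5 hn5 (by norm_num) (by linarith)
            linarith
          have h4 : (n ^ 2 - 4) * 4 ≤ (n ^ 2 - 4) * (y:ℝ) ^ 2 :=
            mul_le_mul_of_nonneg_left h3 (by rw [pow_two]; linarith)
          have h5 : a * a ≤ n * n := mul_le_mul (by linarith) (by linarith) ha0.le (by linarith)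
          have h7 := sq_nonneg (a * (x:ℝ) - b * y)
          rw [pow_two n] at h4
          rw [pow_two n]
          linarith
        exact lt_of_mul_lt_mul_left h2 ha0.le
      exact ⟨hlt.le, fun h => absurd h hlt.ne'⟩
    · have hy3 : y = -1 := by omega
      subst hy3
      obtain ⟨h1, h2⟩ := key (-x)
      have he : a * (x:ℝ) ^ 2 - 2 * b * x * ((-1 : ℤ) : ℝ) + c * ((-1 : ℤ) : ℝ) ^ 2
          = a * ((-x : ℤ) : ℝ) ^ 2 - 2 * b * ((-x : ℤ) : ℝ) + c := by push_cast; ring
      rw [he]
      refine ⟨h1, fun h => Or.inr ?_⟩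
      obtain ⟨h3, h4⟩ := h2 h
      exact ⟨by omega, Or.inr rfl, h4⟩
  · subst hy
    have hx0 : x ≠ 0 := fun h => hxy ⟨h, rfl⟩
    have h1 : (1:ℝ) ≤ (x:ℝ) ^ 2 := by
      have : 1 ≤ x ^ 2 := by
        have := sq_nonneg x
        have h' : x ^ 2 ≠ 0 := pow_ne_zero 2 hx0
        omega
      exact_mod_cast this
    have he : a * (x:ℝ) ^ 2 - 2 * b * x * ((0 : ℤ) : ℝ) + c * ((0 : ℤ) : ℝ) ^ 2 = a * (x:ℝ)^2 := by
      push_cast; ring
    rw [he]
    refine ⟨le_mul_of_one_le_right ha0.le h1, fun h => Or.inl ⟨rfl, ?_⟩⟩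
    have h2 : (x:ℝ) ^ 2 = 1 := by
      have : a * ((x:ℝ) ^ 2 - 1) = 0 := by linarith
      rcases mul_eq_zero.mp this with h3 | h3
      · exact absurd h3 ha0.ne'
      · linarith
    have h3 : x ^ 2 = 1 := by exact_mod_cast h2
    have h4 : (x - 1) * (x + 1) = 0 := by linear_combination h3
    rcases mul_eq_zero.mp h4 with h5 | h5
    · left; omega
    · right; omega
  · rcases (Int.add_one_le_of_lt hy).lt_or_eq with hy2 | hy2
    · have hy3 : (2:ℝ) ≤ (y:ℝ) := by
        have : 2 ≤ y := by omega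
        exact_mod_cast this
      have hlt : a < a * (x:ℝ) ^ 2 - 2 * b * x * y + c * y ^ 2 := by
        have h1 : a * (a * (x:ℝ) ^ 2 - 2 * b * x * y + c * y ^ 2)
            = (a * x - b * y) ^ 2 + (n ^ 2 - 4) * y ^ 2 := by
          rw [← hdisc]; ring
        have h2 : a * a < a * (a * (x:ℝ) ^ 2 - 2 * b * x * y + c * y ^ 2) := by
          rw [h1]
          have h3 : (4:ℝ) ≤ (y:ℝ) ^ 2 := four_le_sq (by first | exact Or.inl hy3 | exact Or.inr hy3)
          have h6 : 25 ≤ n * n := by
            have := mul_le_mul hn5 hn5 (by norm_num) (by linarith)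
            linarith
          have h4 : (n ^ 2 - 4) * 4 ≤ (n ^ 2 - 4) * (y:ℝ) ^ 2 :=
            mul_le_mul_of_nonneg_left h3 (by rw [pow_two]; linarith)
          have h5 : a * a ≤ n * n := mul_le_mul (by linarith) (by linarith) ha0.le (by linarith)
          have h7 := sq_nonneg (a * (x:ℝ) - b * y)
          rw [pow_two n] at h4
          rw [pow_two n]
          linarith
        exact lt_of_mul_lt_mul_left h2 ha0.le
      exact ⟨hlt.le, fun h => absurd h hlt.ne'⟩
    · have hy3 : y = 1 := by omega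
      subst hy3
      obtain ⟨h1, h2⟩ := key x
      have he : a * (x:ℝ) ^ 2 - 2 * b * x * ((1 : ℤ) : ℝ) + c * ((1 : ℤ) : ℝ) ^ 2
          = a * (x : ℝ) ^ 2 - 2 * b * (x : ℝ) + c := by push_cast; ring
      rw [he]
      refine ⟨h1, fun h => Or.inr ?_⟩
      obtain ⟨h3, h4⟩ := h2 h
      exact ⟨h3, Or.inl rfl, h4⟩

end Pool.Agent.TH615.ML
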