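import Pool.Agent.TH615.ML.Defs
import Pool.Agent.TH615.ML.Arith

/-! Isometries between the lattices along the axis of `[[n,-1],[1,0]]`. -/

set_option autoImplicit false

namespace Pool.Agent.TH615.ML

/-- The matrix `[[n,-1],[1,0]]`. -/
def An (n : ℤ) : SL2Z := ⟨!![n, -1; 1, 0], by simp [Matrix.det_fin_two]⟩

@[simp] lemma An_00 (n : ℤ) : (An n) 0 0 = n := rfl
@[simp] lemma An_01 (n : ℤ) : (An n) 0 1 = -1 := rfl
@[simp] lemma An_10 (n : ℤ) : (An n) 1 0 = 1 := rfl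
@[simp] lemma An_11 (n : ℤ) : (An n) 1 1 = 0 := rfl

lemma mul00 (A B : SL2Z) : (A * B) 0 0 = A 0 0 * B 0 0 + A 0 1 * B 1 0 := by
  simp [Matrix.SpecialLinearGroup.coe_mul, Matrix.mul_apply, Fin.sum_univ_two]
lemma mul01 (A B : SL2Z) : (A * B) 0 1 = A 0 0 * B 0 1 + A 0 1 * B 1 1 := by
  simp [Matrix.SpecialLinearGroup.coe_mul, Matrix.mul_apply, Fin.sum_univ_two]
lemma mul10 (A B : SL2Z) : (A * B) 1 0 = A 1 0 * B 0 0 + A 1 1 * B 1 0 := by
  simp [Matrix.SpecialLinearGroup.coe_mul, Matrix.mul_apply, Fin.sum_univ_two]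
lemma mul11 (A B : SL2Z) : (A * B) 1 1 = A 1 0 * B 0 1 + A 1 1 * B 1 1 := by
  simp [Matrix.SpecialLinearGroup.coe_mul, Matrix.mul_apply, Fin.sum_univ_two]

lemma linR_mul (A B : SL2Z) (v : ℝ × ℝ) : linR (A * B) v = linR A (linR B v) := by
  unfold linR
  rw [mul00, mul01, mul10, mul11]
  push_cast
  ext <;> simp <;> ring

@[simp] lemma linR_one (v : ℝ × ℝ) : linR 1 v = v := by
  unfold linR
  ext <;> simp

lemma det_eq (B : SL2Z) : B 0 0 * B 1 1 - B 0 1 * B 1 0 = 1 := by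
  have := B.2
  rwa [Matrix.det_fin_two] at this

/-- The unstable form of `[[n,-1],[1,0]]`. -/
def al (mu : ℝ) : ℝ × ℝ →ₗ[ℝ] ℝ := LinearMap.fst ℝ ℝ ℝ - mu • LinearMap.snd ℝ ℝ ℝ
/-- The stable form of `[[n,-1],[1,0]]`. -/
def be (lam : ℝ) : ℝ × ℝ →ₗ[ℝ] ℝ := lam • LinearMap.snd ℝ ℝ ℝ - LinearMap.fst ℝ ℝ ℝ

@[simp] lemma al_apply (mu : ℝ) (v : ℝ × ℝ) : al mu v = v.1 - mu * v.2 := by simp [al]
@[simp] lemma be_apply (lam : ℝ) (v : ℝ × ℝ) : be lam v = lam * v.2 - v.1 := by simp [be]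

section

variable {lam mu : ℝ} {n : ℤ} (hsum : lam + mu = n) (hli : lam * mu = 1) (hlam : 1 < lam)

include hsum hli in
lemma al_An (v : ℝ × ℝ) : al mu (linR (An n) v) = lam * al mu v := by
  simp only [al_apply, linR, An_00, An_01, An_10, An_11]
  push_cast
  rw [← hsum]
  linear_combination (v.2) * hli

include hsum hli in
lemma be_An (v : ℝ × ℝ) : be lam (linR (An n) v) = mu * be lam v := by
  simp only [be_apply, linR, An_00, An_01, An_10, An_11]
  push_cast
  rw [← hsum]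
  linear_combination (-v.2) * hli

include hsum hli hlam in
lemma coord_An (t : ℝ) (v : ℝ × ℝ) :
    coord (al mu) (be lam) t (linR (An n) v) = coord (al mu) (be lam) (t + Real.log lam) v := by
  unfold coord
  rw [al_An hsum hli, be_An hsum hli]
  have h0 : 0 < lam := by linarith
  have h1 : Real.exp (t + Real.log lam) = Real.exp t * lam := by
    rw [Real.exp_add, Real.exp_log h0]
  have h2 : Real.exp (-(t + Real.log lam)) = Real.exp (-t) * mu := by
    rw [neg_add, Real.exp_add, Real.exp_neg (Real.log lam), Real.exp_log h0]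
    congr 1
    field_simp
    linarith
  rw [h1, h2]
  push_cast
  ring

include hsum hli hlam in
lemma coord_An_zpow (k : ℤ) (t : ℝ) (v : ℝ × ℝ) :
    coord (al mu) (be lam) t (linR (An n ^ k) v)
      = coord (al mu) (be lam) (t + k * Real.log lam) v := by
  induction k using Int.induction_on generalizing t v with
  | zero => simp
  | succ i ih =>
    rw [zpow_add_one, linR_mul, ih, coord_An hsum hli hlam]
    congr 1
    push_cast
    ring
  | pred i ih =>
    have h : linR (An n ^ (-(i:ℤ) - 1)) v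
        = linR (An n ^ (-(i:ℤ))) (linR ((An n)⁻¹) v) := by
      rw [← linR_mul, zpow_sub_one]
    rw [h, ih]
    have h2 : coord (al mu) (be lam) (t + ((-(i:ℤ) - 1 : ℤ) : ℝ) * Real.log lam) v
        = coord (al mu) (be lam) (t + ((-(i:ℤ) - 1 : ℤ) : ℝ) * Real.log lam)
          (linR (An n) (linR ((An n)⁻¹) v)) := by
      rw [← linR_mul, mul_inv_cancel, linR_one]
    rw [h2, coord_An hsum hli hlam]
    congr 1
    push_cast
    ring

end

/-- `B` maps `(1,-1)` to `μ (1,-1)` modulo `p`. -/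
def Pres (p : ℤ) (B : SL2Z) (μ : ℤ) : Prop := p ∣ B 0 0 - B 0 1 - μ ∧ p ∣ B 1 0 - B 1 1 + μ

lemma Pres.mul {p : ℤ} {B B' : SL2Z} {μ μ' : ℤ} (h : Pres p B μ) (h' : Pres p B' μ') :
    Pres p (B * B') (μ * μ') := by
  obtain ⟨⟨u, hu⟩, ⟨w, hw⟩⟩ := h
  obtain ⟨⟨u', hu'⟩, ⟨w', hw'⟩⟩ := h'
  constructor
  · rw [mul00, mul01]
    refine ⟨B 0 0 * u' + B 0 1 * w' + μ' * u, ?_⟩
    linear_combination (B 0 0) * hu' + (B 0 1) * hw' + μ' * hu
  · rw [mul10, mul11]
    refine ⟨B 1 0 * u' + B 1 1 * w' + μ' * w, ?_⟩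
    linear_combination (B 1 0) * hu' + (B 1 1) * hw' + μ' * hw

lemma Pres.An (n : ℤ) : Pres (n + 2) (An n) (-1) := by
  constructor
  · simp only [An_00, An_01]
    exact ⟨1, by ring⟩
  · simp

lemma Pres.An_inv (n : ℤ) : Pres (n + 2) (ML.An n)⁻¹ (-1) := by
  have h00 : (ML.An n)⁻¹ 0 0 = 0 := by
    rw [Matrix.SpecialLinearGroup.SL2_inv_expl]; simp
  have h01 : (ML.An n)⁻¹ 0 1 = 1 := by
    rw [Matrix.SpecialLinearGroup.SL2_inv_expl]; simp
  have h10 : (ML.An n)⁻¹ 1 0 = -1 := by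
    rw [Matrix.SpecialLinearGroup.SL2_inv_expl]; simp
  have h11 : (ML.An n)⁻¹ 1 1 = n := by
    rw [Matrix.SpecialLinearGroup.SL2_inv_expl]; simp
  unfold Pres
  rw [h00, h01, h10, h11]
  constructor
  · simp
  · exact ⟨-1, by ring⟩

lemma Pres.one (p : ℤ) : Pres p 1 1 := by
  constructor <;> simp

lemma Pres.zpow (n : ℤ) (k : ℤ) :
    Pres (n + 2) (ML.An n ^ k) 1 ∨ Pres (n + 2) (ML.An n ^ k) (-1) := by
  induction k using Int.induction_on with
  | zero => left; rw [zpow_zero]; exact Pres.one _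
  | succ i ih =>
    rw [zpow_add_one]
    rcases ih with h | h
    · right; simpa using h.mul (Pres.An n)
    · left; simpa using h.mul (Pres.An n)
  | pred i ih =>
    rw [zpow_sub_one]
    rcases ih with h | h
    · right; simpa using h.mul (Pres.An_inv n)
    · left; simpa using h.mul (Pres.An_inv n)

end Pool.Agent.TH615.ML
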