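import Pool.Agent.TH615.ML.Arith2

/-! The arithmetic of self-intersections of the closed geodesic of `[[n,-1],[1,0]]`. -/

set_option autoImplicit false

namespace Pool.Agent.TH615.ML

section core

variable {lam mu : ℝ} {n : ℤ}

/-- Core statement on the fundamental arc. -/
lemma core (hn5 : 5 ≤ n) (hsum : lam + mu = n) (hli : lam * mu = 1) (hlam : 1 < lam)
    (a b c d : ℤ) (hdet : a * d - b * c = 1) {X Y X' Y' : ℝ} (hXY : X * Y = 1)
    (hXY' : X' * Y' = 1)
    (h1 : mu < X) (h2 : X ≤ lam) (h1' : mu < X') (h2' : X' ≤ lam)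
    (hQ : ∀ x y : ℝ, X * ((a * x + b * y) - mu * (c * x + d * y)) ^ 2
      + Y * (lam * (c * x + d * y) - (a * x + b * y)) ^ 2
      = X' * (x - mu * y) ^ 2 + Y' * (lam * y - x) ^ 2) (hP : (n + 2) ∣ a - b + c - d) :
    X = X' ∧ ((a = 1 ∧ b = 0 ∧ c = 0 ∧ d = 1) ∨ (a = -1 ∧ b = 0 ∧ c = 0 ∧ d = -1)) := by
  have hlam0 : 0 < lam := by linarith
  have hmu0 : 0 < mu := (pos_iff_pos_of_mul_pos (by rw [hli]; norm_num)).mp hlam0
  have hmu1 : mu < 1 := by
    have : mu * 1 < mu * lam := mul_lt_mul_of_pos_left hlam hmu0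
    linarith
  have hn5' : (5:ℝ) ≤ (n:ℝ) := by exact_mod_cast hn5
  have hX0 : 0 < X := hmu0.trans h1
  have hX0' : 0 < X' := hmu0.trans h1'
  have hY0 : 0 < Y := (pos_iff_pos_of_mul_pos (by rw [hXY]; norm_num)).mp hX0
  have hY0' : 0 < Y' := (pos_iff_pos_of_mul_pos (by rw [hXY']; norm_num)).mp hX0'
  have hq : ∀ x y : ℤ, X * ((a * x + b * y : ℤ) - mu * (c * x + d * y : ℤ)) ^ 2
      + Y * (lam * (c * x + d * y : ℤ) - (a * x + b * y : ℤ)) ^ 2
      = X' * ((x:ℝ) - mu * y) ^ 2 + Y' * (lam * y - x) ^ 2 := by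
    intro x y
    have := hQ (x:ℝ) (y:ℝ)
    push_cast
    exact this
  have e1 := hq 1 0
  simp only [mul_one, mul_zero, add_zero] at e1
  have hcol : ¬ (a = 0 ∧ c = 0) := by
    rintro ⟨h3, h4⟩
    rw [h3, h4] at hdet
    simp at hdet
  obtain ⟨m1, m2⟩ := qmin (m := n) rfl hn5' hlam hmu0 hmu1 hli hsum hXY h1 h2 (a) (c) hcol
  have hcol' : ¬ (d = 0 ∧ - c = 0) := by
    rintro ⟨h3, h4⟩
    rw [neg_eq_zero] at h4
    rw [h3, h4] at hdet
    simp at hdet
  obtain ⟨m1', m2'⟩ := qmin (m := n) rfl hn5' hlam hmu0 hmu1 hli hsum hXY' h1' h2' (d) (- c)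
    hcol'
  have e2 := hq (d) (- c)
  rw [show a * d + b * (- c) = 1 by linarith,
    show c * d + d * (- c) = 0 by ring] at e2
  rw [← e2] at m1'
  rw [e1] at m1 m2
  have haa : X + Y = X' + Y' := by
    apply le_antisymm
    · calc X + Y ≤ X' * (((1:ℤ):ℝ) - mu * ((0:ℤ):ℝ)) ^ 2 + Y' * (lam * ((0:ℤ):ℝ) - ((1:ℤ):ℝ)) ^ 2 := m1
        _ = X' + Y' := by push_cast; ring
    · calc X' + Y' ≤ X * (((1:ℤ):ℝ) - mu * ((0:ℤ):ℝ)) ^ 2 + Y * (lam * ((0:ℤ):ℝ) - ((1:ℤ):ℝ)) ^ 2 := m1'
        _ = X + Y := by push_cast; ring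
  have e3 := hq 0 1
  have e4 := hq 1 1
  simp only [mul_one, mul_zero, zero_add] at e3 e4
  have hsame : ∀ (h : mu * X + lam * Y = mu * X' + lam * Y'), X = X' := by
    intro h
    have h5 : (lam - mu) * (X - X') = 0 := by linear_combination lam * haa - h
    rcases mul_eq_zero.mp h5 with h6 | h6
    · exfalso; linarith
    · linarith
  rcases m2 (by rw [haa]; push_cast; ring) with ⟨hy, hx⟩ | ⟨hx, hy, hXl⟩
  · -- B is upper triangular
    have hx2 : a * a = 1 := by rcases hx with h | h <;> rw [h] <;> norm_num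
    have h11 : d = a := by
      rw [hy, mul_zero, sub_zero] at hdet
      calc d = (a * a) * d := by rw [hx2, one_mul]
        _ = a * (a * d) := by ring
        _ = a := by rw [hdet, mul_one]
    obtain ⟨w, hw⟩ := hP
    have hdvd : b = (n + 2) * (-w) := by
      rw [hy, h11] at hw
      linear_combination -hw
    rw [hy, h11] at e4
    rw [h11] at e3
    push_cast at e3 e4
    have hx2' : (a : ℝ) * a = 1 := by exact_mod_cast hx2
    have hj : (X + Y) * ((a : ℝ) * b) = (mu * X + lam * Y) - (mu * X' + lam * Y') := by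
      linear_combination (1/2) * e4 - (1/2) * e3 - (1/2) * haa
        + (- (1/2) * (X + Y) + mu * X + lam * Y) * hx2'
    have hb : |(X + Y) * ((a : ℝ) * b)| < (X + Y) * n := by
      rw [hj, abs_lt]
      have p1 : 0 < mu * X + lam * Y := by positivity
      have p2 : 0 < mu * X' + lam * Y' := by positivity
      have p3 : mu * X + lam * Y < (X + Y) * n := by
        rw [← hsum]
        have : 0 < lam * X + mu * Y := by positivity
        linarith
      have p4 : mu * X' + lam * Y' < (X + Y) * n := by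
        rw [haa, ← hsum]
        have : 0 < lam * X' + mu * Y' := by positivity
        linarith
      constructor <;> linarith
    have hb2 : |(b : ℝ)| < n := by
      rw [abs_mul, abs_mul, abs_of_pos (by positivity : 0 < X + Y)] at hb
      have h7 : |(a : ℝ)| = 1 := by rcases hx with h | h <;> rw [h] <;> norm_num
      rw [h7, one_mul] at hb
      exact lt_of_mul_lt_mul_left hb (by positivity)
    have hb3 : |b| < n := by exact_mod_cast hb2
    have h01 : b = 0 := by
      by_contra hne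
      have h8 : w ≠ 0 := by
        intro h
        apply hne
        rw [hdvd, h]; ring
      have h9 : 1 ≤ |w| := Int.one_le_abs h8
      rw [hdvd, abs_mul, abs_neg, abs_of_pos (by linarith : (0:ℤ) < n + 2)] at hb3
      have h10 := mul_le_mul_of_nonneg_left h9 (by linarith : (0:ℤ) ≤ n + 2)
      linarith
    refine ⟨hsame ?_, ?_⟩
    · rw [h01] at hj
      push_cast at hj
      linarith
    · rcases hx with h | h
      · left; exact ⟨h, h01, hy, by rw [h11, h]⟩
      · right; exact ⟨h, h01, hy, by rw [h11, h]⟩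
  · exfalso
    have hYl : Y = mu := by
      have : lam * (Y - mu) = 0 := by
        rw [hXl] at hXY
        linear_combination hXY - hli
      rcases mul_eq_zero.mp this with h | h
      · linarith
      · linarith
    have hXl' : X' = lam := by
      have h5 : (X' - lam) * (X' - mu) = 0 := by
        have : X' * (X' + Y') = X' * (lam + mu) := by rw [← haa, hXl, hYl]
        linear_combination this - hXY' + hli
      rcases mul_eq_zero.mp h5 with h | h
      · linarith
      · linarith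
    have hYl' : Y' = mu := by linarith
    subst hXl hYl
    rw [hXl', hYl'] at e3 e4
    have h01 : b * c = -1 := by
      rw [hx, zero_mul] at hdet
      linarith
    have hy2 : c * c = 1 := by rcases hy with h | h <;> rw [h] <;> norm_num
    have h01' : b = - c := by
      calc b = b * (c * c) := by rw [hy2, mul_one]
        _ = (b * c) * c := by ring
        _ = - c := by rw [h01]; ring
    have hcol2 : ¬ (b = 0 ∧ d = 0) := by
      rintro ⟨h3, h4⟩
      rw [h3, zero_mul] at h01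
      norm_num at h01
    obtain ⟨-, m3⟩ := qmin (m := n) rfl hn5' hlam hmu0 hmu1 hli hsum hXY h1 h2 (b) (d) hcol2
    have h11 : d = 0 := by
      rcases m3 (by rw [e3]; push_cast; linear_combination (X + Y) * hli) with ⟨h, -⟩ | ⟨h, -, -⟩
      · exact h
      · exfalso
        rw [h, zero_mul] at h01
        norm_num at h01
    rw [hx, h01', h11] at e4
    push_cast at e4
    have hy2' : (c : ℝ) * c = 1 := by exact_mod_cast hy2
    have : (4:ℝ) * (2 * (X * Y)) = 0 := by
      have e5 : X * ((1 + Y) * (1 + Y)) * ((c : ℝ) * c)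
          + Y * ((X + 1) * (X + 1)) * ((c : ℝ) * c)
          = X * (1 - Y) ^ 2 + Y * (X - 1) ^ 2 := by linear_combination e4
      rw [hy2'] at e5
      linear_combination e5
    rw [hXY] at this
    norm_num at this

end core

section main

variable {lam mu : ℝ} {n : ℤ}

lemma coord_re (α β : ℝ × ℝ →ₗ[ℝ] ℝ) (t : ℝ) (v : ℝ × ℝ) :
    (coord α β t v).re = Real.exp t * α v := by
  unfold coord
  rw [Complex.add_re, Complex.ofReal_re, Complex.re_ofReal_mul, Complex.I_re]
  ring

lemma coord_im (α β : ℝ × ℝ →ₗ[ℝ] ℝ) (t : ℝ) (v : ℝ × ℝ) :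
    (coord α β t v).im = Real.exp (-t) * β v := by
  unfold coord
  rw [Complex.add_im, Complex.ofReal_im, Complex.im_ofReal_mul, Complex.I_im]
  ring

lemma exp_mul_exp_neg (t : ℝ) : Real.exp t * Real.exp (-t) = 1 := by
  rw [← Real.exp_add, add_neg_cancel, Real.exp_zero]

lemma area (α β : ℝ × ℝ →ₗ[ℝ] ℝ) (t : ℝ) (v w : ℝ × ℝ) :
    ((starRingEnd ℂ) (coord α β t v) * coord α β t w).im = α v * β w - β v * α w := by
  rw [Complex.mul_im, Complex.conj_re, Complex.conj_im, coord_re, coord_im, coord_re, coord_im]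
  linear_combination (α v * β w - β v * α w) * exp_mul_exp_neg t

lemma normSq_coord (α β : ℝ × ℝ →ₗ[ℝ] ℝ) (t : ℝ) (v : ℝ × ℝ) :
    Complex.normSq (coord α β t v) = Real.exp (2 * t) * (α v) ^ 2
      + Real.exp (-(2 * t)) * (β v) ^ 2 := by
  rw [Complex.normSq_apply, coord_re, coord_im]
  have h1 : Real.exp (2 * t) = Real.exp t * Real.exp t := by
    rw [← Real.exp_add]; congr 1; ring
  have h2 : Real.exp (-(2 * t)) = Real.exp (-t) * Real.exp (-t) := by
    rw [← Real.exp_add]; congr 1; ring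
  rw [h1, h2]; ring

lemma normSq_eq_one (hlm : lam ≠ mu) (B : SL2Z) (c : ℂ) (s t : ℝ)
    (hB : ∀ v, coord (al mu) (be lam) s (linR B v) = c * coord (al mu) (be lam) t v) :
    Complex.normSq c = 1 := by
  have h1 := area (al mu) (be lam) s (linR B (1, 0)) (linR B (0, 1))
  have h2 := area (al mu) (be lam) t (1, 0) (0, 1)
  rw [hB, hB] at h1
  have h3 : (starRingEnd ℂ) (c * coord (al mu) (be lam) t (1, 0)) *
      (c * coord (al mu) (be lam) t (0, 1)) = (Complex.normSq c : ℂ) *
      ((starRingEnd ℂ) (coord (al mu) (be lam) t (1, 0)) * coord (al mu) (be lam) t (0, 1)) := by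
    rw [map_mul, Complex.normSq_eq_conj_mul_self]; ring
  rw [h3, Complex.im_ofReal_mul, h2] at h1
  have hdet : (B 0 0 : ℝ) * B 1 1 - B 0 1 * B 1 0 = 1 := by exact_mod_cast det_eq B
  simp only [al_apply, be_apply, linR] at h1
  have h4 : (lam - mu) * (Complex.normSq c - 1) = 0 := by
    linear_combination h1 + (lam - mu) * hdet
  rcases mul_eq_zero.mp h4 with h | h
  · exact absurd (sub_eq_zero.mp h) hlm
  · linarith

lemma exists_reduce {l : ℝ} (hl : 0 < l) (t : ℝ) : ∃ k : ℤ, -(l / 2) < t - k * l ∧ t - k * l ≤ l / 2 := by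
  refine ⟨⌈t / l - 1 / 2⌉, ?_, ?_⟩
  · have h1 := Int.ceil_lt_add_one (t / l - 1 / 2)
    have h2 : (⌈t / l - 1 / 2⌉ : ℝ) * l < (t / l - 1 / 2 + 1) * l := mul_lt_mul_of_pos_right h1 hl
    have h3 : (t / l - 1 / 2 + 1) * l = t + l / 2 := by field_simp; ring
    linarith
  · have h1 := Int.le_ceil (t / l - 1 / 2)
    have h2 : (t / l - 1 / 2) * l ≤ (⌈t / l - 1 / 2⌉ : ℝ) * l := mul_le_mul_of_nonneg_right h1 hl.le
    have h3 : (t / l - 1 / 2) * l = t - l / 2 := by field_simp
    linarith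

/-- **The arithmetic of self-intersections.** -/
theorem arith_main (hn5 : 5 ≤ n) (hsum : lam + mu = n) (hli : lam * mu = 1) (hlam : 1 < lam)
    (B : SL2Z) (c : ℂ) (s t : ℝ)
    (hB : ∀ v, coord (al mu) (be lam) s (linR B v) = c * coord (al mu) (be lam) t v)
    (μ : ℤ) (hP : Pres (n + 2) B μ) :
    (∃ k : ℤ, s - t = k * Real.log lam) ∧ (Pres (n + 2) B 1 ∨ Pres (n + 2) B (-1)) := by
  have hlam0 : 0 < lam := by linarith
  have hmu0 : 0 < mu := (pos_iff_pos_of_mul_pos (by rw [hli]; norm_num)).mp hlam0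
  have hmu1 : mu < 1 := by
    have : mu * 1 < mu * lam := mul_lt_mul_of_pos_left hlam hmu0
    linarith
  have hc := normSq_eq_one (by linarith) B c s t hB
  have hl : 0 < Real.log lam := Real.log_pos hlam
  have hmulog : mu = Real.exp (-Real.log lam) := by
    rw [Real.exp_neg, Real.exp_log hlam0]
    field_simp
    linarith
  obtain ⟨ks, hs1, hs2⟩ := exists_reduce hl s
  obtain ⟨kt, ht1, ht2⟩ := exists_reduce hl t
  set s0 := s - ks * Real.log lam with hs0
  set t0 := t - kt * Real.log lam with ht0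
  obtain ⟨B0, hB0⟩ : ∃ B0, B0 = An n ^ ks * B * An n ^ (-kt) := ⟨_, rfl⟩
  have hB0c : ∀ w, coord (al mu) (be lam) s0 (linR B0 w) = c * coord (al mu) (be lam) t0 w := by
    intro w
    rw [hB0, linR_mul, linR_mul, coord_An_zpow hsum hli hlam]
    have e1 : s0 + ks * Real.log lam = s := by rw [hs0]; ring
    rw [e1, hB, coord_An_zpow hsum hli hlam]
    congr 2
    rw [ht0]; push_cast; ring
  have hQ : ∀ x y : ℝ, Real.exp (2 * s0) * ((B0 0 0 * x + B0 0 1 * y) - mu * (B0 1 0 * x + B0 1 1 * y)) ^ 2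
      + Real.exp (-(2 * s0)) * (lam * (B0 1 0 * x + B0 1 1 * y) - (B0 0 0 * x + B0 0 1 * y)) ^ 2
      = Real.exp (2 * t0) * (x - mu * y) ^ 2 + Real.exp (-(2 * t0)) * (lam * y - x) ^ 2 := by
    intro x y
    have h1 := congrArg Complex.normSq (hB0c (x, y))
    rw [Complex.normSq_mul, hc, one_mul, normSq_coord, normSq_coord] at h1
    simp only [al_apply, be_apply, linR] at h1
    exact h1
  have hPz : ∀ k : ℤ, ∃ ν : ℤ, Pres (n + 2) (An n ^ k) ν := by
    intro k
    rcases Pres.zpow n k with h | h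
    · exact ⟨_, h⟩
    · exact ⟨_, h⟩
  have hP0 : (n + 2) ∣ B0 0 0 - B0 0 1 + B0 1 0 - B0 1 1 := by
    obtain ⟨ν1, hν1⟩ := hPz ks
    obtain ⟨ν2, hν2⟩ := hPz (-kt)
    have h3 := (hν1.mul hP).mul hν2
    rw [← hB0] at h3
    obtain ⟨⟨u, hu⟩, ⟨w, hw⟩⟩ := h3
    exact ⟨u + w, by linear_combination hu + hw⟩
  have hexp : ∀ r : ℝ, Real.exp r * Real.exp (-r) = 1 := exp_mul_exp_neg
  have hup : ∀ r : ℝ, r ≤ Real.log lam / 2 → Real.exp (2 * r) ≤ lam := by
    intro r hr
    calc Real.exp (2 * r) ≤ Real.exp (Real.log lam) := Real.exp_le_exp.mpr (by linarith)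
      _ = lam := Real.exp_log hlam0
  have hlo : ∀ r : ℝ, -(Real.log lam / 2) < r → mu < Real.exp (2 * r) := by
    intro r hr
    rw [hmulog]
    exact Real.exp_lt_exp.mpr (by linarith)
  obtain ⟨hst, hent⟩ := core hn5 hsum hli hlam (B0 0 0) (B0 0 1) (B0 1 0) (B0 1 1) (det_eq B0)
    (hexp (2 * s0)) (hexp (2 * t0)) (hlo s0 hs1) (hup s0 hs2) (hlo t0 ht1) (hup t0 ht2) hQ hP0
  have hst' : s0 = t0 := by
    have := Real.exp_injective hst
    linarith
  refine ⟨⟨ks - kt, ?_⟩, ?_⟩
  · push_cast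
    have : s - ks * Real.log lam = t - kt * Real.log lam := by rw [← hs0, ← ht0]; exact hst'
    linarith
  · have hPB0 : Pres (n + 2) B0 1 ∨ Pres (n + 2) B0 (-1) := by
      rcases hent with ⟨h1, h2, h3, h4⟩ | ⟨h1, h2, h3, h4⟩
      · left
        constructor
        · rw [h1, h2]; simp
        · rw [h3, h4]; simp
      · right
        constructor
        · rw [h1, h2]; simp
        · rw [h3, h4]; simp
    have hBe : B = An n ^ (-ks) * B0 * An n ^ kt := by
      rw [hB0]
      have e1 : An n ^ (-ks) * (An n ^ ks * B * An n ^ (-kt)) * An n ^ kt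
          = (An n ^ (-ks) * An n ^ ks) * B * (An n ^ (-kt) * An n ^ kt) := by group
      rw [e1, ← zpow_add, ← zpow_add, neg_add_cancel, neg_add_cancel, zpow_zero, one_mul, mul_one]
    rcases Pres.zpow n (-ks) with h1 | h1 <;> rcases Pres.zpow n kt with h2 | h2 <;>
      rcases hPB0 with h3 | h3 <;> rw [hBe] <;>
      first
        | (left; simpa using (h1.mul h3).mul h2)
        | (right; simpa using (h1.mul h3).mul h2)

end main

end Pool.Agent.TH615.ML
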