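import Pool.Agent.TH615.ML.Coord
import Pool.Agent.TH615.ML.Arith2

/-! Torsion points and the combinatorics of the branch sets. -/

set_option autoImplicit false

open Topology Filter Set

namespace Pool.Agent.TH615.ML

/-- the torsion point `(k, -k)/p` -/
noncomputable def pt (p k : ℤ) : Torus := mk ((k : ℝ) / p, -((k : ℝ) / p))

lemma pt_add (p k l : ℤ) : pt p (k + l) = pt p k + pt p l := by
  unfold pt
  rw [← mk_add]
  congr 1
  ext
  · simp; ring
  · simp; ring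

lemma pt_neg (p k : ℤ) : pt p (-k) = - pt p k := by
  unfold pt
  rw [← mk_neg]
  congr 1
  ext
  · simp; ring
  · simp; ring

lemma pt_sub (p k l : ℤ) : pt p (k - l) = pt p k - pt p l := by
  rw [sub_eq_add_neg, pt_add, pt_neg, sub_eq_add_neg]

lemma pt_eq_zero {p : ℤ} (hp : p ≠ 0) (k : ℤ) : pt p k = 0 ↔ p ∣ k := by
  have hp' : (p : ℝ) ≠ 0 := by exact_mod_cast hp
  unfold pt
  rw [mk_eq_zero]
  constructor
  · rintro ⟨m, n, h⟩
    have h1 : (k : ℝ) / p = m := congrArg Prod.fst h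
    rw [div_eq_iff hp'] at h1
    refine ⟨m, ?_⟩
    have : (k : ℝ) = ((p * m : ℤ) : ℝ) := by push_cast; linarith
    exact_mod_cast this
  · rintro ⟨m, rfl⟩
    refine ⟨m, -m, ?_⟩
    ext
    · push_cast
      field_simp
    · push_cast
      field_simp

lemma pt_eq {p : ℤ} (hp : p ≠ 0) (k l : ℤ) : pt p k = pt p l ↔ p ∣ k - l := by
  rw [← pt_eq_zero hp, pt_sub, sub_eq_zero]

lemma linT_mk (A : SL2Z) (v : ℝ × ℝ) : linT A (mk v) = mk (linR A v) := by
  unfold linT linR mk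
  ext
  · simp only
    rw [AddCircle.coe_add]
    congr 1
    · rw [← zsmul_eq_mul, AddCircle.coe_zsmul]
    · rw [← zsmul_eq_mul, AddCircle.coe_zsmul]
  · simp only
    rw [AddCircle.coe_add]
    congr 1
    · rw [← zsmul_eq_mul, AddCircle.coe_zsmul]
    · rw [← zsmul_eq_mul, AddCircle.coe_zsmul]

lemma linR_add (A : SL2Z) (v w : ℝ × ℝ) : linR A (v + w) = linR A v + linR A w := by
  unfold linR
  ext
  · simp; ring
  · simp; ring

lemma linR_neg (A : SL2Z) (v : ℝ × ℝ) : linR A (-v) = - linR A v := by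
  unfold linR
  ext
  · simp; ring
  · simp; ring

lemma linT_continuous (A : SL2Z) : Continuous (linT A) := by
  unfold linT
  exact ((continuous_fst.zsmul _).add (continuous_snd.zsmul _)).prodMk
    ((continuous_fst.zsmul _).add (continuous_snd.zsmul _))

lemma linR_continuous (A : SL2Z) : Continuous (linR A) := by
  unfold linR
  fun_prop

/-- the automorphism of the torus -/
noncomputable def linTH (A : SL2Z) : Torus ≃ₜ Torus where
  toFun := linT A
  invFun := linT A⁻¹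
  left_inv := by
    intro x
    obtain ⟨v, rfl⟩ := mk_surj x
    rw [linT_mk, linT_mk, ← linR_mul, inv_mul_cancel, linR_one]
  right_inv := by
    intro x
    obtain ⟨v, rfl⟩ := mk_surj x
    rw [linT_mk, linT_mk, ← linR_mul, mul_inv_cancel, linR_one]
  continuous_toFun := linT_continuous A
  continuous_invFun := linT_continuous A⁻¹

lemma linTH_apply (A : SL2Z) (x : Torus) : linTH A x = linT A x := rfl

lemma linTH_neg (A : SL2Z) (x : Torus) : linTH A (-x) = - linTH A x := by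
  obtain ⟨v, rfl⟩ := mk_surj x
  rw [← mk_neg, linTH_apply, linTH_apply, linT_mk, linT_mk, linR_neg, mk_neg]

lemma linT_pt (n k : ℤ) (hn : n + 2 ≠ 0) : linT (An n) (pt (n + 2) k) = - pt (n + 2) k := by
  have hp' : ((n + 2 : ℤ) : ℝ) ≠ 0 := by exact_mod_cast hn
  unfold pt
  rw [linT_mk, ← mk_neg, ← sub_eq_zero, ← mk_sub, mk_eq_zero]
  refine ⟨k, 0, ?_⟩
  unfold linR
  ext
  · simp only [An_00, An_01, An_10, An_11, Prod.fst_sub, Prod.fst_neg]
    push_cast at hp' ⊢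
    field_simp
    ring
  · simp only [An_00, An_01, An_10, An_11, Prod.snd_sub, Prod.snd_neg]
    push_cast at hp' ⊢
    ring

/-- the branch set -/
def Mset (p : ℤ) (m : ℕ) (ν : ℕ → ℕ) (x : Torus) : Prop :=
  ∃ r, (1 ≤ r ∧ r ≤ 2 * m) ∧ (x = pt p (ν r) ∨ x = - pt p (ν r))

lemma Mset_neg {p : ℤ} {m : ℕ} {ν : ℕ → ℕ} {x : Torus} (h : Mset p m ν x) :
    Mset p m ν (-x) := by
  obtain ⟨r, hr, h⟩ := h
  refine ⟨r, hr, ?_⟩
  rcases h with h | h
  · right; rw [h]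
  · left; rw [h, neg_neg]

lemma Mset_neg_iff {p : ℤ} {m : ℕ} {ν : ℕ → ℕ} (x : Torus) :
    Mset p m ν (-x) ↔ Mset p m ν x := by
  constructor
  · intro h
    have := Mset_neg h
    rwa [neg_neg] at this
  · exact Mset_neg

/-- admissible index functions -/
structure Adm (p : ℤ) (m : ℕ) (ν : ℕ → ℕ) : Prop where
  pos : ∀ r, 1 ≤ r → r ≤ 2 * m → 0 < ν r
  lt : ∀ r, 1 ≤ r → r ≤ 2 * m → 2 * (ν r : ℤ) < p
  inj : ∀ r r', 1 ≤ r → r ≤ 2 * m → 1 ≤ r' → r' ≤ 2 * m → ν r = ν r' → r = r'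

lemma Adm.p0 {p : ℤ} {m : ℕ} {ν : ℕ → ℕ} (h : Adm p m ν) (hm : 0 < m) : 0 < p := by
  have := h.lt 1 le_rfl (by omega)
  omega

lemma small_eq {p : ℤ} (hp : 0 < p) {k l : ℕ} (hk : 2 * (k : ℤ) < p) (hl : 2 * (l : ℤ) < p)
    (hk0 : 0 < k) (h : pt p k = pt p l ∨ pt p k = - pt p l) : k = l := by
  rcases h with h | h
  · rw [pt_eq hp.ne'] at h
    have h2 : (k : ℤ) - l = 0 := Int.eq_zero_of_abs_lt_dvd h (by rw [abs_lt]; constructor <;> omega)
    omega
  · rw [← pt_neg, pt_eq hp.ne'] at h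
    have h2 : (k : ℤ) - (-l) = 0 := Int.eq_zero_of_abs_lt_dvd h (by
      rw [abs_lt]; constructor <;> omega)
    omega

lemma linR_pt {p : ℤ} (hp : p ≠ 0) {B : SL2Z} {μ : ℤ} (hB : Pres p B μ) (k : ℤ) :
    mk (linR B ((k : ℝ) / p, -((k : ℝ) / p))) = pt p (μ * k) := by
  have hp' : (p : ℝ) ≠ 0 := by exact_mod_cast hp
  obtain ⟨⟨u, hu⟩, ⟨w, hw⟩⟩ := hB
  have hu' : (B 0 0 : ℝ) - B 0 1 - μ = p * u := by exact_mod_cast hu
  have hw' : (B 1 0 : ℝ) - B 1 1 + μ = p * w := by exact_mod_cast hw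
  unfold pt
  rw [← sub_eq_zero, ← mk_sub, mk_eq_zero]
  refine ⟨u * k, w * k, ?_⟩
  unfold linR
  ext
  · simp only [Prod.fst_sub]
    push_cast
    field_simp
    linear_combination (k:ℝ) * hu'
  · simp only [Prod.snd_sub]
    push_cast
    field_simp
    linear_combination (k:ℝ) * hw'

lemma pres_of {p : ℤ} (hp : p ≠ 0) {B : SL2Z} {μ : ℤ}
    (h : mk (linR B (((1:ℤ) : ℝ) / p, -(((1:ℤ) : ℝ) / p))) = pt p μ) : Pres p B μ := by
  have hp' : (p : ℝ) ≠ 0 := by exact_mod_cast hp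
  unfold pt at h
  rw [← sub_eq_zero, ← mk_sub, mk_eq_zero] at h
  obtain ⟨u, w, h⟩ := h
  unfold linR at h
  have h1 := congrArg Prod.fst h
  have h2 := congrArg Prod.snd h
  simp only [Prod.fst_sub, Prod.snd_sub] at h1 h2
  push_cast at h1 h2
  field_simp at h1 h2
  constructor
  · refine ⟨u, ?_⟩
    have : ((B 0 0 - B 0 1 - μ : ℤ) : ℝ) = ((p * u : ℤ) : ℝ) := by
      push_cast
      linear_combination h1
    exact_mod_cast this
  · refine ⟨w, ?_⟩
    have : ((B 1 0 - B 1 1 + μ : ℤ) : ℝ) = ((p * w : ℤ) : ℝ) := by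
      push_cast
      linear_combination h2
    exact_mod_cast this

lemma Mset_pt {p : ℤ} {m : ℕ} {ν : ℕ → ℕ} {x : Torus} (h : Mset p m ν x) : ∃ k, x = pt p k := by
  obtain ⟨r, -, h | h⟩ := h
  · exact ⟨_, h⟩
  · exact ⟨-(ν r), by rw [h, pt_neg]⟩

theorem comb_pres {p : ℤ} {m : ℕ} (hm : 1 ≤ m) {ν ν' : ℕ → ℕ} (hν : Adm p m ν)
    (h1 : ν 1 = 1) (h2 : ν 2 = 2) {B : SL2Z} {x0 : Torus}
    (hB : ∀ v, Mset p m ν (mk v) ↔ Mset p m ν' (mk (linR B v) + x0)) :
    ∃ μ u, Pres p B μ ∧ x0 = pt p u := by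
  have hp := hν.p0 hm
  have e1 : Mset p m ν (mk (((1:ℤ) : ℝ) / p, -(((1:ℤ) : ℝ) / p))) :=
    ⟨1, ⟨le_rfl, by omega⟩, Or.inl (by rw [h1]; rfl)⟩
  have e2 : Mset p m ν (mk (((2:ℤ) : ℝ) / p, -(((2:ℤ) : ℝ) / p))) :=
    ⟨2, ⟨by omega, by omega⟩, Or.inl (by rw [h2]; rfl)⟩
  obtain ⟨k1, hk1⟩ := Mset_pt ((hB _).mp e1)
  obtain ⟨k2, hk2⟩ := Mset_pt ((hB _).mp e2)
  have e3 : ((((2:ℤ) : ℝ) / p, -(((2:ℤ) : ℝ) / p)) : ℝ × ℝ) =
      (((1:ℤ) : ℝ) / p, -(((1:ℤ) : ℝ) / p)) + (((1:ℤ) : ℝ) / p, -(((1:ℤ) : ℝ) / p)) := by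
    ext
    · simp; ring
    · simp; ring
  rw [e3, linR_add, mk_add] at hk2
  have e4 : mk (linR B (((1:ℤ) : ℝ) / p, -(((1:ℤ) : ℝ) / p))) = pt p (k2 - k1) := by
    rw [pt_sub, ← hk1, ← hk2]
    abel
  refine ⟨k2 - k1, k1 - (k2 - k1), pres_of hp.ne' e4, ?_⟩
  rw [pt_sub, ← hk1, ← e4]
  abel

theorem comb_eq {p : ℤ} (hpr : Prime p) (hp2 : ¬ p ∣ 2) {m : ℕ} (hm : 1 ≤ m) {ν ν' : ℕ → ℕ}
    (hν : Adm p m ν) (hν' : Adm p m ν')
    (h1' : ν' 1 = 1) {B : SL2Z} {x0 : Torus}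
    (hB : ∀ v, Mset p m ν (mk v) ↔ Mset p m ν' (mk (linR B v) + x0))
    {u : ℤ} (hx0 : x0 = pt p u) (hP : Pres p B 1 ∨ Pres p B (-1)) (x : Torus) :
    Mset p m ν x ↔ Mset p m ν' x := by
  have hp := hν.p0 hm
  have a1 : ∀ k : ℤ, Mset p m ν (pt p k) ↔ Mset p m ν' (pt p (k + u)) := by
    intro k
    rcases hP with h | h
    · have := hB ((k : ℝ) / p, -((k : ℝ) / p))
      rw [linR_pt hp.ne' h, hx0, one_mul, ← pt_add] at this
      exact this
    · have := hB (((-k : ℤ) : ℝ) / p, -(((-k : ℤ) : ℝ) / p))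
      rw [linR_pt hp.ne' h, hx0, ← pt_add] at this
      have e : -1 * -k + u = k + u := by ring
      rw [e] at this
      rw [← this, ← Mset_neg_iff, ← pt_neg]
      rfl
  have a2 : ∀ k : ℤ, Mset p m ν' (pt p k) ↔ Mset p m ν' (pt p (k - 2 * u)) := by
    intro k
    have e1 := a1 (k - u)
    have e2 := a1 (-(k - u))
    rw [sub_add_cancel] at e1
    rw [← e1, ← Mset_neg_iff, ← pt_neg, e2, ← Mset_neg_iff, ← pt_neg]
    have : -(-(k - u) + u) = k - 2 * u := by ring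
    rw [this]
  have a3 : ∀ t k : ℤ, Mset p m ν' (pt p k) ↔ Mset p m ν' (pt p (k - 2 * u * t)) := by
    intro t
    induction t using Int.induction_on with
    | zero => intro k; simp
    | succ i ih =>
      intro k
      rw [ih k, a2 (k - 2 * u * i)]
      have : k - 2 * u * i - 2 * u = k - 2 * u * (i + 1) := by ring
      rw [this]
    | pred i ih =>
      intro k
      rw [ih k, a2 (k - 2 * u * (-i - 1))]
      have : k - 2 * u * (-i - 1) - 2 * u = k - 2 * u * -i := by ring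
      rw [this]
  have hu : p ∣ u := by
    by_contra hu
    have hcop : IsCoprime (2 * u) p := by
      apply IsCoprime.symm
      apply (Prime.coprime_iff_not_dvd hpr).mpr
      intro h
      rcases hpr.dvd_or_dvd h with h | h
      · exact hp2 h
      · exact hu h
    obtain ⟨t, w, htw⟩ := hcop
    have b1 := (a3 t 1).mp ⟨1, ⟨le_rfl, by omega⟩, Or.inl (by rw [h1']; rfl)⟩
    have b2 : pt p (1 - 2 * u * t) = 0 := by
      rw [pt_eq_zero hp.ne']
      exact ⟨w, by linear_combination -htw⟩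
    rw [b2] at b1
    obtain ⟨r, ⟨hr1, hr2⟩, hr⟩ := b1
    have b3 : pt p (ν' r) = 0 := by
      rcases hr with hr | hr
      · exact hr.symm
      · rw [← neg_eq_zero]; exact hr.symm
    rw [pt_eq_zero hp.ne'] at b3
    have b4 := hν'.pos r hr1 hr2
    have b5 := hν'.lt r hr1 hr2
    have := Int.le_of_dvd (by omega) b3
    omega
  have a4 : ∀ k : ℤ, Mset p m ν (pt p k) ↔ Mset p m ν' (pt p k) := by
    intro k
    rw [a1 k]
    have : pt p (k + u) = pt p k := by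
      rw [pt_eq hp.ne']
      simpa using hu
    rw [this]
  constructor
  · intro h
    obtain ⟨k, rfl⟩ := Mset_pt h
    exact (a4 k).mp h
  · intro h
    obtain ⟨k, rfl⟩ := Mset_pt h
    exact (a4 k).mpr h

/-- the index functions used -/
def nu (m j r : ℕ) : ℕ := if r = 2 * m then 2 * m + j else r

lemma nu_adm {p : ℤ} {m N : ℕ} (hp : 2 * (2 * (m : ℤ) + N) < p) {j : ℕ} (hj : j < N) :
    Adm p m (nu m j) where
  pos := by
    intro r h1 h2
    unfold nu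
    split_ifs <;> omega
  lt := by
    intro r h1 h2
    unfold nu
    split_ifs
    · push_cast
      omega
    · omega
  inj := by
    intro r r' h1 h2 h3 h4
    unfold nu
    split_ifs <;> omega

lemma nu_inj {p : ℤ} {m N : ℕ} (hm : 1 ≤ m) (hp : 2 * (2 * (m : ℤ) + N) < p) {i j : ℕ}
    (hi : i < N) (hj : j < N) (h : ∀ x, Mset p m (nu m i) x ↔ Mset p m (nu m j) x) : i = j := by
  have h0 : nu m i (2 * m) = 2 * m + i := by simp [nu]
  have h1 : Mset p m (nu m i) (pt p (nu m i (2 * m))) :=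
    ⟨2 * m, ⟨by omega, le_rfl⟩, Or.inl rfl⟩
  obtain ⟨r, ⟨hr1, hr2⟩, hr⟩ := (h _).mp h1
  have a1 := nu_adm hp hi
  have a2 := nu_adm hp hj
  have h2 := small_eq (a1.p0 hm) (a1.lt (2 * m) (by omega) le_rfl) (a2.lt r hr1 hr2)
    (a1.pos (2 * m) (by omega) le_rfl) hr
  rw [h0] at h2
  unfold nu at h2
  split_ifs at h2 <;> omega

end Pool.Agent.TH615.ML
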