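import Pool.Agent.TH615.ML.Defs
import Pool.Agent.Helper620.Wg.KI
import Pool.Agent.Helper620.Wg.KS

/-! The torus, its universal cover, and the Weierstrass function of a linear coordinate. -/

set_option autoImplicit false

open Topology Filter Set

namespace Pool.Agent.TH615.ML

lemma mk_add (v w : ℝ × ℝ) : mk (v + w) = mk v + mk w := by
  simp [mk]

lemma mk_neg (v : ℝ × ℝ) : mk (-v) = - mk v := by
  simp [mk]

lemma mk_sub (v w : ℝ × ℝ) : mk (v - w) = mk v - mk w := by
  rw [sub_eq_add_neg, mk_add, mk_neg, sub_eq_add_neg]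

@[simp] lemma mk_zero : mk 0 = 0 := by
  simp [mk]

lemma mk_eq_zero (v : ℝ × ℝ) : mk v = 0 ↔ ∃ m n : ℤ, v = ((m : ℝ), (n : ℝ)) := by
  unfold mk
  rw [Prod.mk_eq_zero, AddCircle.coe_eq_zero_iff, AddCircle.coe_eq_zero_iff]
  constructor
  · rintro ⟨⟨m, hm⟩, ⟨n, hn⟩⟩
    refine ⟨m, n, ?_⟩
    ext
    · simp [← hm]
    · simp [← hn]
  · rintro ⟨m, n, rfl⟩
    exact ⟨⟨m, by simp⟩, ⟨n, by simp⟩⟩

lemma mk_surj : Function.Surjective mk := by
  rintro ⟨x, y⟩
  obtain ⟨a, rfl⟩ := QuotientAddGroup.mk_surjective x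
  obtain ⟨b, rfl⟩ := QuotientAddGroup.mk_surjective y
  exact ⟨(a, b), rfl⟩

lemma mk_eq_prodMap : mk = Prod.map ((↑) : ℝ → AddCircle (1:ℝ)) ((↑) : ℝ → AddCircle (1:ℝ)) := rfl

lemma mk_continuous : Continuous mk := by
  rw [mk_eq_prodMap]
  exact (AddCircle.continuous_mk' 1).prodMap (AddCircle.continuous_mk' 1)

lemma mk_isLocalHomeomorph : IsLocalHomeomorph mk := by
  rw [IsLocalHomeomorph]
  rw [mk_eq_prodMap]
  rintro ⟨x, y⟩
  obtain ⟨e1, h1, h1'⟩ := AddCircle.isLocalHomeomorph_coe (1:ℝ) x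
  obtain ⟨e2, h2, h2'⟩ := AddCircle.isLocalHomeomorph_coe (1:ℝ) y
  refine ⟨e1.prod e2, ⟨h1, h2⟩, ?_⟩
  funext p
  exact Prod.ext (congrFun h1' p.1) (congrFun h2' p.2)

lemma mk_isOpenMap : IsOpenMap mk := mk_isLocalHomeomorph.isOpenMap

/-- a representative -/
noncomputable def rep (x : Torus) : ℝ × ℝ := Classical.choose (mk_surj x)

@[simp] lemma mk_rep (x : Torus) : mk (rep x) = x := Classical.choose_spec (mk_surj x)

section

variable (c : (ℝ × ℝ) ≃L[ℝ] ℂ)

/-- the period pair of a coordinate -/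
noncomputable def lat : PeriodPair where
  ω₁ := c (1, 0)
  ω₂ := c (0, 1)
  indep := by
    rw [LinearIndependent.pair_iff]
    intro s t h
    rw [← map_smul, ← map_smul, ← map_add] at h
    have h2 := (map_eq_zero_iff c c.injective).mp h
    simpa [Prod.ext_iff] using h2

lemma mem_lat (z : ℂ) : z ∈ (lat c).lattice ↔ ∃ m n : ℤ, z = c ((m : ℝ), (n : ℝ)) := by
  rw [PeriodPair.mem_lattice]
  have key : ∀ m n : ℤ, (m : ℂ) * (lat c).ω₁ + (n : ℂ) * (lat c).ω₂ = c ((m : ℝ), (n : ℝ)) := by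
    intro m n
    have : ((m : ℝ), (n : ℝ)) = (m : ℝ) • ((1 : ℝ), (0 : ℝ)) + (n : ℝ) • ((0 : ℝ), (1 : ℝ)) := by
      simp
    rw [this, map_add, map_smul, map_smul]
    simp [lat]
  constructor
  · rintro ⟨m, n, h⟩
    exact ⟨m, n, by rw [← h, key]⟩
  · rintro ⟨m, n, h⟩
    exact ⟨m, n, by rw [h, key]⟩

/-- universal covering in the coordinate -/
noncomputable def PP (z : ℂ) : Torus := mk (c.symm z)

lemma PP_add (z w : ℂ) : PP c (z + w) = PP c z + PP c w := by
  unfold PP; rw [map_add, mk_add]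
lemma PP_neg (z : ℂ) : PP c (-z) = - PP c z := by
  unfold PP; rw [map_neg, mk_neg]
lemma PP_sub (z w : ℂ) : PP c (z - w) = PP c z - PP c w := by
  unfold PP; rw [map_sub, mk_sub]
@[simp] lemma PP_zero : PP c 0 = 0 := by
  unfold PP; rw [map_zero, mk_zero]

lemma PP_eq_zero (z : ℂ) : PP c z = 0 ↔ z ∈ (lat c).lattice := by
  unfold PP
  rw [mk_eq_zero, mem_lat]
  constructor
  · rintro ⟨m, n, h⟩
    exact ⟨m, n, by rw [← h, c.apply_symm_apply]⟩
  · rintro ⟨m, n, h⟩
    exact ⟨m, n, by rw [h, c.symm_apply_apply]⟩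

lemma PP_eq (z w : ℂ) : PP c z = PP c w ↔ z - w ∈ (lat c).lattice := by
  rw [← PP_eq_zero, PP_sub, sub_eq_zero]

lemma PP_eq_neg (z w : ℂ) : PP c z = - PP c w ↔ z + w ∈ (lat c).lattice := by
  rw [← PP_eq_zero, PP_add, eq_neg_iff_add_eq_zero]

lemma PP_surj : Function.Surjective (PP c) := mk_surj.comp c.symm.surjective

lemma PP_continuous : Continuous (PP c) := mk_continuous.comp c.symm.continuous

lemma PP_isOpenMap : IsOpenMap (PP c) := mk_isOpenMap.comp c.symm.toHomeomorph.isOpenMap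

lemma PP_isLocalHomeomorph : IsLocalHomeomorph (PP c) :=
  mk_isLocalHomeomorph.comp c.symm.toHomeomorph.isLocalHomeomorph

@[simp] lemma PP_c (v : ℝ × ℝ) : PP c (c v) = mk v := by
  unfold PP; rw [c.symm_apply_apply]

/-- there is a positive gap in the lattice -/
lemma lat_gap : ∃ δ > 0, ∀ z ∈ (lat c).lattice, ‖z‖ < δ → z = 0 := by
  have h := (lat c).compl_lattice_sdiff_singleton_mem_nhds 0
  obtain ⟨δ, hδ, h2⟩ := Metric.mem_nhds_iff.mp h
  refine ⟨δ, hδ, fun z hz hzn => ?_⟩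
  by_contra hne
  have := h2 (show z ∈ Metric.ball 0 δ by simpa using hzn)
  exact this ⟨hz, hne⟩

/-- a continuous function with values in the lattice is constant -/
lemma lat_const {X : Type*} [TopologicalSpace X] [PreconnectedSpace X] {f : X → ℂ}
    (hf : Continuous f) (h : ∀ x, f x ∈ (lat c).lattice) (x y : X) : f x = f y := by
  have : DiscreteTopology (lat c).lattice := inferInstance
  let g : X → (lat c).lattice := fun x => ⟨f x, h x⟩
  have hg : Continuous g := Continuous.subtype_mk hf h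
  have := PreconnectedSpace.constant (inferInstance : PreconnectedSpace X) hg (x := x) (y := y)
  exact congrArg Subtype.val this

/-- Weierstrass function on the torus -/
noncomputable def wpT (x : Torus) : ℂ := (lat c).weierstrassP (c (rep x))

lemma wp_add {z l : ℂ} (hl : l ∈ (lat c).lattice) :
    (lat c).weierstrassP (z + l) = (lat c).weierstrassP z :=
  (lat c).weierstrassP_add_coe z ⟨l, hl⟩

lemma wp_congr {z w : ℂ} (h : PP c z = PP c w) :
    (lat c).weierstrassP z = (lat c).weierstrassP w := by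
  rw [PP_eq] at h
  have := wp_add c (z := w) h
  rwa [add_sub_cancel] at this

lemma wpT_PP (z : ℂ) : wpT c (PP c z) = (lat c).weierstrassP z := by
  unfold wpT
  apply wp_congr
  rw [PP_c, mk_rep]

lemma wp_eq_iff {z w : ℂ} (hz : z ∉ (lat c).lattice) (hw : w ∉ (lat c).lattice) :
    (lat c).weierstrassP z = (lat c).weierstrassP w ↔ PP c z = PP c w ∨ PP c z = - PP c w := by
  constructor
  · intro h
    rcases Wg.wp_inj (lat c) z w hz hw h with h | h
    · left; exact (PP_eq c z w).mpr h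
    · right; exact (PP_eq_neg c z w).mpr h
  · rintro (h | h)
    · exact wp_congr c h
    · rw [← PP_neg] at h
      rw [wp_congr c h, (lat c).weierstrassP_neg]

lemma isOpen_lat_compl : IsOpen ((lat c).lattice : Set ℂ)ᶜ := (lat c).isClosed_lattice.isOpen_compl

end

end Pool.Agent.TH615.ML
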