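import Pool.Agent.TH615.ML.Coord
import Pool.Agent.TH615.ML.Ana

/-! An elliptic function with too many zeros vanishes. -/

set_option autoImplicit false

open Topology Filter Set

namespace Pool.Agent.TH615.ML

section

variable (c : (ℝ × ℝ) ≃L[ℝ] ℂ)

lemma countable_bad {F : Set ℂ} (hF : F.Countable) :
    {w : ℂ | w ∈ (lat c).lattice ∨ (lat c).weierstrassP w ∈ F}.Countable := by
  have hL := Wg.wp_inj_count (lat c)
  choose z hz hzx using Wg.wp_surj (lat c)
  have h1 : {w : ℂ | w ∈ (lat c).lattice ∨ (lat c).weierstrassP w ∈ F} ⊆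
      ((lat c).lattice : Set ℂ) ∪ ⋃ x ∈ F, ((fun l => z x + l) '' ((lat c).lattice : Set ℂ) ∪
        (fun l => - z x + l) '' ((lat c).lattice : Set ℂ)) := by
    intro w hw
    by_cases hwl : w ∈ (lat c).lattice
    · left; exact hwl
    · rcases hw with hw | hw
      · exact absurd hw hwl
      · right
        rw [mem_iUnion₂]
        refine ⟨_, hw, ?_⟩
        rcases Wg.wp_inj (lat c) w (z ((lat c).weierstrassP w)) hwl (hz _) (hzx _).symm with h | h
        · left; exact ⟨_, h, by ring⟩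
        · right; exact ⟨_, h, by ring⟩
  refine Countable.mono h1 (hL.union (hF.biUnion fun x _ => (hL.image _).union (hL.image _)))

lemma period_square (z : ℂ) : ∃ v ∈ (Icc (0:ℝ) 1) ×ˢ (Icc (0:ℝ) 1), PP c (c v) = PP c z := by
  refine ⟨(Int.fract (c.symm z).1, Int.fract (c.symm z).2), ⟨⟨Int.fract_nonneg _,
    (Int.fract_lt_one _).le⟩, ⟨Int.fract_nonneg _, (Int.fract_lt_one _).le⟩⟩, ?_⟩
  rw [PP_c, PP, ← sub_eq_zero, ← mk_sub, mk_eq_zero]
  refine ⟨-⌊(c.symm z).1⌋, -⌊(c.symm z).2⌋, ?_⟩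
  have h1 := Int.floor_add_fract (c.symm z).1
  have h2 := Int.floor_add_fract (c.symm z).2
  ext
  · push_cast
    simp only [Prod.fst_sub]
    linarith
  · push_cast
    simp only [Prod.snd_sub]
    linarith

lemma global_bound {Q : ℂ → ℂ} (hper : ∀ z w, PP c z = PP c w → Q z = Q w) {m : ℕ}
    (hbd : ∀ z0, ∃ C, ∀ᶠ z in 𝓝 z0, ‖Q z‖ ≤ C * (1 + ‖(lat c).weierstrassP z‖) ^ m) :
    ∃ C, 0 ≤ C ∧ ∀ z, ‖Q z‖ ≤ C * (1 + ‖(lat c).weierstrassP z‖) ^ m := by
  have hK : IsCompact (c '' ((Icc (0:ℝ) 1) ×ˢ (Icc (0:ℝ) 1))) :=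
    (isCompact_Icc.prod isCompact_Icc).image c.continuous
  have h1 : ∃ C, ∀ z ∈ c '' ((Icc (0:ℝ) 1) ×ˢ (Icc (0:ℝ) 1)),
      ‖Q z‖ ≤ C * (1 + ‖(lat c).weierstrassP z‖) ^ m := by
    refine hK.induction_on (p := fun s => ∃ C, ∀ z ∈ s,
      ‖Q z‖ ≤ C * (1 + ‖(lat c).weierstrassP z‖) ^ m) ⟨0, by simp⟩ ?_ ?_ ?_
    · rintro s t hst ⟨C, hC⟩
      exact ⟨C, fun z hz => hC z (hst hz)⟩
    · rintro s t ⟨C, hC⟩ ⟨D, hD⟩
      refine ⟨max C D, ?_⟩
      rintro z (hz | hz)
      · exact (hC z hz).trans (mul_le_mul_of_nonneg_right (le_max_left _ _) (by positivity))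
      · exact (hD z hz).trans (mul_le_mul_of_nonneg_right (le_max_right _ _) (by positivity))
    · intro x _
      obtain ⟨C, hC⟩ := hbd x
      exact ⟨_, nhdsWithin_le_nhds hC, C, fun z hz => hz⟩
  obtain ⟨C, hC⟩ := h1
  refine ⟨|C|, abs_nonneg _, fun z => ?_⟩
  obtain ⟨v, hv, hvz⟩ := period_square c z
  rw [← hper _ _ hvz, ← wp_congr c hvz]
  exact (hC _ ⟨v, hv, rfl⟩).trans (mul_le_mul_of_nonneg_right (le_abs_self _) (by positivity))

theorem core5 {Q : ℂ → ℂ} (hper : ∀ z w, PP c z = PP c w → Q z = Q w)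
    (hbd : ∀ z0, ∃ C, ∀ᶠ z in 𝓝 z0, ‖Q z‖ ≤ C * (1 + ‖(lat c).weierstrassP z‖) ^ 8)
    {F : Set ℂ} (hF : F.Finite)
    (hana : ∀ z ∉ (lat c).lattice, (lat c).weierstrassP z ∉ F → AnalyticAt ℂ Q z)
    (Z : Finset ℂ) (hZ : 16 < Z.card)
    (hz : ∀ e ∈ Z, ∃ z ∉ (lat c).lattice, (lat c).weierstrassP z = e ∧ Tendsto Q (𝓝 z) (𝓝 0)) :
    ∀ z ∉ (lat c).lattice, (lat c).weierstrassP z ∉ F → Q z = 0 := by
  obtain ⟨C, hC0, hC⟩ := global_bound c hper hbd
  choose sec hsec hsecx using Wg.wp_surj (lat c)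
  set N : ℂ → ℂ := fun z => Q z * Q (-z) with hN
  set P : ℂ → ℂ := fun x => N (sec x) with hP
  have hPN : ∀ z ∉ (lat c).lattice, P ((lat c).weierstrassP z) = N z := by
    intro z hzl
    have h1 := (wp_eq_iff c (hsec ((lat c).weierstrassP z)) hzl).mp (hsecx _)
    simp only [hP, hN]
    rcases h1 with h1 | h1
    · rw [hper _ _ h1, hper (-sec ((lat c).weierstrassP z)) (-z) (by rw [PP_neg, PP_neg, h1])]
    · rw [hper (sec ((lat c).weierstrassP z)) (-z) (by rw [h1, PP_neg]),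
        hper (-sec ((lat c).weierstrassP z)) z (by rw [PP_neg, h1, neg_neg])]
      ring
  -- the bad values
  have hcub : {x : ℂ | 4 * x ^ 3 - (lat c).g₂ * x - (lat c).g₃ = 0}.Finite := by
    have h0 : (Polynomial.C 4 * Polynomial.X ^ 3 - Polynomial.C (lat c).g₂ * Polynomial.X
        - Polynomial.C (lat c).g₃ : Polynomial ℂ) ≠ 0 := by
      intro h
      have h1 := congrArg (fun p => Polynomial.coeff p 3) h
      simp [Polynomial.coeff_X, Polynomial.coeff_C] at h1
    refine Set.Finite.subset (Polynomial.rootSet_finite (Polynomial.C 4 * Polynomial.X ^ 3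
      - Polynomial.C (lat c).g₂ * Polynomial.X - Polynomial.C (lat c).g₃ :
        Polynomial ℂ) ℂ) ?_
    intro x hx
    rw [Polynomial.mem_rootSet]
    refine ⟨h0, ?_⟩
    simpa using hx
  set F' : Set ℂ := F ∪ {x : ℂ | 4 * x ^ 3 - (lat c).g₂ * x - (lat c).g₃ = 0} with hF'
  have hF'fin : F'.Finite := hF.union hcub
  have hPd : ∀ x ∉ F', DifferentiableAt ℂ P x := by
    intro x hx
    have hz0 := hsec x
    have hd0 : (lat c).derivWeierstrassP (sec x) ≠ 0 := by
      intro h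
      apply hx
      right
      have := (lat c).derivWeierstrassP_sq (sec x) hz0
      rw [h, hsecx] at this
      simp only [mem_ofPred_eq]
      rw [← this]
      simp
    have hs : HasStrictDerivAt (lat c).weierstrassP ((lat c).derivWeierstrassP (sec x)) (sec x) := by
      rw [← (lat c).deriv_weierstrassP]
      exact ((lat c).analyticOnNhd_weierstrassP _ hz0).hasStrictDerivAt
    set g := hs.localInverse _ _ _ hd0 with hg
    have hgd : HasStrictDerivAt g ((lat c).derivWeierstrassP (sec x))⁻¹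
        ((lat c).weierstrassP (sec x)) := hs.to_localInverse hd0
    have hgx : g ((lat c).weierstrassP (sec x)) = sec x := by
      exact HasStrictFDerivAt.localInverse_apply_image _
    have hri : ∀ᶠ y in 𝓝 ((lat c).weierstrassP (sec x)), (lat c).weierstrassP (g y) = y :=
      HasStrictFDerivAt.eventually_right_inverse (hs.hasStrictFDerivAt_equiv hd0)
    rw [hsecx] at hgd hgx hri
    have hgc : ContinuousAt g x := hgd.hasDerivAt.continuousAt
    have hnl : ∀ᶠ y in 𝓝 x, g y ∉ (lat c).lattice := by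
      have : ∀ᶠ w in 𝓝 (g x), w ∉ (lat c).lattice := by
        rw [hgx]
        exact (isOpen_lat_compl c).mem_nhds hz0
      exact hgc.eventually this
    have heq : P =ᶠ[𝓝 x] fun y => N (g y) := by
      filter_upwards [hri, hnl] with y hy hy2
      rw [← hPN _ hy2, hy]
    have hxF : x ∉ F := fun h => hx (Or.inl h)
    have hQ1 : AnalyticAt ℂ Q (sec x) := hana _ hz0 (by rwa [hsecx])
    have hQ2 : AnalyticAt ℂ Q (-sec x) := hana _ (fun h => hz0 (by simpa using neg_mem h))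
      (by rwa [(lat c).weierstrassP_neg, hsecx])
    have hN0 : DifferentiableAt ℂ N (g x) := by
      rw [hgx]
      exact hQ1.differentiableAt.mul (DifferentiableAt.comp (sec x) (f := fun z : ℂ => -z)
        hQ2.differentiableAt differentiableAt_id.neg)
    exact (DifferentiableAt.comp x hN0 hgd.hasDerivAt.differentiableAt).congr_of_eventuallyEq heq
  have hPb : ∀ x, ‖P x‖ ≤ C ^ 2 * (1 + ‖x‖) ^ 16 := by
    intro x
    have h1 := hC (sec x)
    have h2 := hC (- sec x)
    rw [(lat c).weierstrassP_neg] at h2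
    rw [hsecx] at h1 h2
    calc ‖P x‖ = ‖Q (sec x)‖ * ‖Q (- sec x)‖ := norm_mul _ _
      _ ≤ (C * (1 + ‖x‖) ^ 8) * (C * (1 + ‖x‖) ^ 8) := by gcongr
      _ = _ := by ring
  obtain ⟨P', hP'd, hP'⟩ := entire_ext hF'fin hPd (by
    intro x
    refine ⟨C ^ 2 * (1 + (‖x‖ + 1)) ^ 16, ?_⟩
    filter_upwards [(continuous_norm.continuousAt (x := x)).eventually_lt_const
      (u := ‖x‖ + 1) (by linarith)] with y hy
    refine (hPb y).trans ?_
    gcongr)
  have hP'b : ∀ x, ‖P' x‖ ≤ C ^ 2 * (1 + ‖x‖) ^ 16 := by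
    have hcl : IsClosed {x | ‖P' x‖ ≤ C ^ 2 * (1 + ‖x‖) ^ 16} :=
      isClosed_le hP'd.continuous.norm (by fun_prop)
    have hden : Dense F'ᶜ := hF'fin.countable.dense_compl ℝ
    intro x
    have hsub : F'ᶜ ⊆ {x | ‖P' x‖ ≤ C ^ 2 * (1 + ‖x‖) ^ 16} := by
      intro y hy
      show ‖P' y‖ ≤ _
      rw [hP' y hy]
      exact hPb y
    exact (hcl.closure_subset_iff.mpr hsub) (hden x)
  have hGc : {w : ℂ | w ∈ (lat c).lattice ∨ (lat c).weierstrassP w ∈ F'}.Countable :=
    countable_bad c hF'fin.countable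
  have hcw : ∀ z ∉ (lat c).lattice, ContinuousAt (lat c).weierstrassP z := fun z hzl =>
    ((lat c).analyticOnNhd_weierstrassP z hzl).continuousAt
  have hP'Z : ∀ e ∈ Z, P' e = 0 := by
    intro e he
    obtain ⟨z, hzl, hze, hzt⟩ := hz e he
    set G : Set ℂ := {w : ℂ | w ∈ (lat c).lattice ∨ (lat c).weierstrassP w ∈ F'}ᶜ with hG
    have hGd : Dense G := hGc.dense_compl ℝ
    have hne : (𝓝[G] z).NeBot := mem_closure_iff_nhdsWithin_neBot.mp (hGd z)
    have t1 : Tendsto (fun w => P' ((lat c).weierstrassP w)) (𝓝[G] z) (𝓝 (P' e)) := by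
      have h1 : ContinuousAt (fun w => P' ((lat c).weierstrassP w)) z :=
        ContinuousAt.comp (f := (lat c).weierstrassP) hP'd.continuous.continuousAt (hcw z hzl)
      have h2 := h1.tendsto
      simp only [hze] at h2
      exact h2.mono_left nhdsWithin_le_nhds
    have t2 : Tendsto N (𝓝 z) (𝓝 0) := by
      have hb : ∀ᶠ w in 𝓝 z, ‖Q (-w)‖ ≤ C * (1 + (‖(lat c).weierstrassP z‖ + 1)) ^ 8 := by
        filter_upwards [(hcw z hzl).norm.eventually_lt_const
          (u := ‖(lat c).weierstrassP z‖ + 1) (by linarith)] with w hw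
        refine (hC (-w)).trans ?_
        rw [(lat c).weierstrassP_neg]
        gcongr
      exact hzt.zero_mul_isBoundedUnder_le ⟨_, by simpa [Filter.eventually_map] using hb⟩
    have t3 : Tendsto (fun w => P' ((lat c).weierstrassP w)) (𝓝[G] z) (𝓝 0) := by
      refine (t2.mono_left nhdsWithin_le_nhds).congr' ?_
      filter_upwards [self_mem_nhdsWithin] with w hw
      have h1 : w ∉ (lat c).lattice := fun h => hw (Or.inl h)
      have h2 : (lat c).weierstrassP w ∉ F' := fun h => hw (Or.inr h)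
      rw [hP' _ h2, hPN _ h1]
    exact tendsto_nhds_unique t1 t3
  have hP'0 := entire_zero 16 P' hP'd _ hP'b Z hZ hP'Z
  have hN0 : ∀ w, w ∉ (lat c).lattice → (lat c).weierstrassP w ∉ F' → N w = 0 := by
    intro w h1 h2
    rw [← hPN _ h1, ← hP' _ h2, hP'0]
  -- the identity theorem
  intro z hzl hzF
  by_contra hQz
  have hzl' : -z ∉ (lat c).lattice := fun h => hzl (by simpa using neg_mem h)
  have hzF' : (lat c).weierstrassP (-z) ∉ F := by rwa [(lat c).weierstrassP_neg]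
  have hQa := hana z hzl hzF
  have hQa' := hana (-z) hzl' hzF'
  have hQn : AnalyticAt ℂ (fun w => Q (-w)) z := AnalyticAt.comp (f := fun w : ℂ => -w) hQa'
    (analyticAt_id.neg)
  have hQne : ∀ᶠ w in 𝓝 z, Q w ≠ 0 := hQa.continuousAt.eventually_ne hQz
  have hQn0 : ∀ᶠ w in 𝓝 z, Q (-w) = 0 := by
    rcases hQn.eventually_eq_zero_or_eventually_ne_zero with h | h
    · exact h
    · exfalso
      rw [eventually_nhdsWithin_iff] at h
      have hGc2 : ({w : ℂ | w ∈ (lat c).lattice ∨ (lat c).weierstrassP w ∈ F'} ∪ {z}).Countable :=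
        hGc.union (countable_singleton z)
      have hd2 := hGc2.dense_compl ℝ
      obtain ⟨w, ⟨hw1, hw2⟩, hw3⟩ := (mem_closure_iff_nhds.mp (hd2 z) _ (h.and hQne))
      have h1 : w ∉ (lat c).lattice := fun h => hw3 (Or.inl (Or.inl h))
      have h2 : (lat c).weierstrassP w ∉ F' := fun h => hw3 (Or.inl (Or.inr h))
      have h3 : w ≠ z := fun h => hw3 (Or.inr h)
      have h4 : Q w * Q (-w) = 0 := hN0 w h1 h2
      rcases mul_eq_zero.mp h4 with h5 | h5
      · exact hw2 h5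
      · exact hw1 h3 h5
  have hQ0 : ∀ᶠ w in 𝓝 (-z), Q w = 0 := by
    have h1 : Tendsto (fun w : ℂ => -w) (𝓝 (-z)) (𝓝 z) := by
      have := (continuous_neg (G := ℂ)).tendsto (-z)
      rwa [neg_neg] at this
    filter_upwards [h1.eventually hQn0] with w hw
    rwa [neg_neg] at hw
  set G0 : Set ℂ := {w : ℂ | w ∈ (lat c).lattice ∨ (lat c).weierstrassP w ∈ F}ᶜ with hG0
  have hG0p : IsPreconnected G0 :=
    ((countable_bad c hF.countable).isConnected_compl_of_one_lt_rank (by simp)).isPreconnected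
  have hQG0 : AnalyticOnNhd ℂ Q G0 := by
    intro w hw
    exact hana w (fun h => hw (Or.inl h)) (fun h => hw (Or.inr h))
  have := hQG0.eqOn_zero_of_preconnected_of_eventuallyEq_zero hG0p
    (show -z ∈ G0 from fun h => h.elim hzl' hzF') hQ0
  exact hQz (this (show z ∈ G0 from fun h => h.elim hzl hzF))

end

end Pool.Agent.TH615.ML
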