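import Pool.Agent.TH615.ML.Defs

/-! Construction of branched double covers of the torus as `w² = H(x)`. -/

set_option autoImplicit false

open Topology Filter Set

namespace Pool.Agent.TH615.ML

/-- Data for a double cover `w² = H(x)`. -/
structure DblData where
  H : Torus → ℂ
  H_cont : Continuous H
  H_zero : ∃ x, H x = 0
  H_fin : {x | H x = 0}.Finite
  loc : ∀ x0, ∃ e : OpenPartialHomeomorph Torus ℂ, x0 ∈ e.source ∧ ∃ k : Torus → ℂ,
    ContinuousOn k e.source ∧ ∀ x ∈ e.source, k x ≠ 0 ∧ H x = e x * k x ^ 2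

namespace DblData

variable (D : DblData)

/-- the double cover -/
abbrev S : Type := {p : Torus × ℂ // p.2 ^ 2 = D.H p.1}

instance : CompactSpace D.S := by
  show CompactSpace {p : Torus × ℂ // p.2 ^ 2 = D.H p.1}
  have : IsCompact {p : Torus × ℂ | p.2 ^ 2 = D.H p.1} := by
    obtain ⟨C, hC⟩ := isCompact_univ.exists_bound_of_continuousOn D.H_cont.continuousOn
    have hK : IsCompact ((univ : Set Torus) ×ˢ Metric.closedBall (0:ℂ) (C + 1)) :=
      isCompact_univ.prod (isCompact_closedBall _ _)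
    refine hK.of_isClosed_subset (isClosed_eq (by fun_prop)
      (D.H_cont.comp continuous_fst)) ?_
    rintro ⟨x, w⟩ hxw
    have h1 : w ^ 2 = D.H x := hxw
    have h2 := hC x (mem_univ _)
    rw [← h1, norm_pow] at h2
    refine ⟨mem_univ _, ?_⟩
    rw [mem_closedBall_zero_iff]
    nlinarith [norm_nonneg w, sq_nonneg (‖w‖ - 1)]
  exact isCompact_iff_compactSpace.mp this

/-- projection -/
def pr (p : D.S) : Torus := p.1.1
/-- involution -/
def inv (p : D.S) : D.S := ⟨(p.1.1, -p.1.2), by
  have := p.2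
  simp only at this ⊢
  rw [neg_sq]; exact this⟩

lemma pr_cont : Continuous D.pr := continuous_fst.comp continuous_subtype_val

lemma w_cont : Continuous fun p : D.S => p.1.2 := continuous_snd.comp continuous_subtype_val

lemma inv_cont : Continuous D.inv := by
  refine Continuous.subtype_mk ?_ _
  exact D.pr_cont.prodMk D.w_cont.neg

lemma inv_inv (p : D.S) : D.inv (D.inv p) = p := by
  apply Subtype.ext
  simp [inv]

lemma pr_surj : Function.Surjective D.pr := by
  intro x
  obtain ⟨w, hw⟩ := IsAlgClosed.exists_pow_nat_eq (D.H x) (n := 2) (by norm_num)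
  exact ⟨⟨(x, w), hw⟩, rfl⟩

lemma fib (p q : D.S) : D.pr p = D.pr q ↔ (q = p ∨ q = D.inv p) := by
  constructor
  · intro h
    have h1 := p.2
    have h2 := q.2
    have h3 : p.1.1 = q.1.1 := h
    rw [h3, ← h2] at h1
    rcases sq_eq_sq_iff_eq_or_eq_neg.mp h1 with h4 | h4
    · left
      exact Subtype.ext (Prod.ext h3.symm h4.symm)
    · right
      apply Subtype.ext
      refine Prod.ext h3.symm ?_
      show q.1.2 = - p.1.2
      rw [h4, neg_neg]
  · rintro (h | h)
    · rw [h]
    · rw [h]; rfl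

lemma inv_fix (p : D.S) : D.inv p = p ↔ D.H (D.pr p) = 0 := by
  have h1 := p.2
  constructor
  · intro h
    have h2 : -p.1.2 = p.1.2 := congrArg (fun q : D.S => q.1.2) h
    have h3 : p.1.2 = 0 := by linear_combination (-1/2 : ℂ) * h2
    show D.H p.1.1 = 0
    rw [← h1, h3]
    norm_num
  · intro h
    have h2 : p.1.2 = 0 := by
      have : p.1.2 ^ 2 = 0 := by rw [h1]; exact h
      exact pow_eq_zero_iff (two_ne_zero) |>.mp this
    apply Subtype.ext
    refine Prod.ext rfl ?_
    show -p.1.2 = p.1.2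
    rw [h2, neg_zero]

lemma pr_open : IsOpenMap D.pr := by
  intro U hU
  have hq : IsQuotientMap D.pr := (D.pr_cont.isClosedMap).isQuotientMap D.pr_cont D.pr_surj
  rw [← hq.isOpen_preimage]
  have : D.pr ⁻¹' (D.pr '' U) = U ∪ D.inv ⁻¹' U := by
    ext q
    simp only [mem_preimage, mem_image, mem_union]
    constructor
    · rintro ⟨p, hp, hpq⟩
      rcases (D.fib p q).mp hpq with h | h
      · left; rwa [h]
      · right; rw [h, D.inv_inv]; exact hp
    · rintro (h | h)
      · exact ⟨q, h, rfl⟩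
      · exact ⟨D.inv q, h, rfl⟩
  rw [this]
  exact hU.union (hU.preimage D.inv_cont)

instance : ConnectedSpace D.S := by
  have hpre : IsPreconnected (univ : Set D.S) := by
    rw [isPreconnected_iff_subset_of_disjoint_closed]
    intro U V hU hV hUV hd
    rw [univ_inter] at hd
    have hUc : U = Vᶜ := by
      ext x
      constructor
      · intro hx hx'
        have : x ∈ U ∩ V := ⟨hx, hx'⟩
        rw [hd] at this
        exact this
      · intro hx
        rcases hUV (mem_univ x) with h | h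
        · exact h
        · exact absurd h hx
    have hVc : V = Uᶜ := by rw [hUc, compl_compl]
    have hUo : IsOpen U := by rw [hUc]; exact hV.isOpen_compl
    have hVo : IsOpen V := by rw [hVc]; exact hU.isOpen_compl
    have c1 : IsClopen (D.pr '' U) := ⟨D.pr_cont.isClosedMap U hU, D.pr_open U hUo⟩
    have c2 : IsClopen (D.pr '' V) := ⟨D.pr_cont.isClosedMap V hV, D.pr_open V hVo⟩
    rcases isClopen_iff.mp c1 with h1 | h1
    · right
      intro x _
      rcases hUV (mem_univ x) with h | h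
      · exfalso
        have : D.pr x ∈ D.pr '' U := ⟨x, h, rfl⟩
        rw [h1] at this
        exact this
      · exact h
    rcases isClopen_iff.mp c2 with h2 | h2
    · left
      intro x _
      rcases hUV (mem_univ x) with h | h
      · exact h
      · exfalso
        have : D.pr x ∈ D.pr '' V := ⟨x, h, rfl⟩
        rw [h2] at this
        exact this
    exfalso
    obtain ⟨x0, hx0⟩ := D.H_zero
    obtain ⟨p, hp, hpx⟩ : x0 ∈ D.pr '' U := by rw [h1]; exact mem_univ _
    obtain ⟨q, hq, hqx⟩ : x0 ∈ D.pr '' V := by rw [h2]; exact mem_univ _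
    have hpq : q = p := by
      rcases (D.fib p q).mp (by rw [hpx, hqx]) with h | h
      · exact h
      · rw [h]
        exact (D.inv_fix p).mpr (by rw [hpx]; exact hx0)
    rw [hpq] at hq
    have : p ∈ U ∩ V := ⟨hp, hq⟩
    rw [hd] at this
    exact this
  obtain ⟨x0, hx0⟩ := D.H_zero
  obtain ⟨p, -⟩ := D.pr_surj x0
  exact { toPreconnectedSpace := ⟨hpre⟩, toNonempty := ⟨p⟩ }

lemma chart (p : D.S) : ∃ e : OpenPartialHomeomorph D.S ℂ, p ∈ e.source := by
  classical
  obtain ⟨e, he, k, hk, hH⟩ := D.loc (D.pr p)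
  have hinv : ∀ ζ : ℂ, ζ ^ 2 ∈ e.target →
      (ζ * k (e.symm (ζ ^ 2))) ^ 2 = D.H (e.symm (ζ ^ 2)) := by
    intro ζ hζ
    rw [(hH _ (e.map_target hζ)).2, e.right_inv hζ, mul_pow]
  refine ⟨{
    toFun := fun q => q.1.2 / k q.1.1
    invFun := fun ζ => if h : ζ ^ 2 ∈ e.target then
      ⟨(e.symm (ζ ^ 2), ζ * k (e.symm (ζ ^ 2))), hinv ζ h⟩ else p
    source := {q | q.1.1 ∈ e.source}
    target := {ζ | ζ ^ 2 ∈ e.target}
    map_source' := ?_
    map_target' := ?_
    left_inv' := ?_
    right_inv' := ?_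
    open_source := ?_
    open_target := ?_
    continuousOn_toFun := ?_
    continuousOn_invFun := ?_ }, he⟩
  · intro q hq
    have h1 := hH _ hq
    have h2 : (q.1.2 / k q.1.1) ^ 2 = e q.1.1 := by
      rw [div_pow, q.2, h1.2]
      field_simp [h1.1]
    show (q.1.2 / k q.1.1) ^ 2 ∈ e.target
    rw [h2]
    exact e.map_source hq
  · intro ζ hζ
    have hζ' : ζ ^ 2 ∈ e.target := hζ
    simp only [hζ', dif_pos]
    exact e.map_target hζ'
  · intro q hq
    have h1 := hH _ hq
    have h2 : (q.1.2 / k q.1.1) ^ 2 = e q.1.1 := by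
      rw [div_pow, q.2, h1.2]
      field_simp [h1.1]
    have h3 : (q.1.2 / k q.1.1) ^ 2 ∈ e.target := by rw [h2]; exact e.map_source hq
    simp only [h3, dif_pos]
    apply Subtype.ext
    show (e.symm ((q.1.2 / k q.1.1) ^ 2), q.1.2 / k q.1.1 * k (e.symm ((q.1.2 / k q.1.1) ^ 2)))
      = q.1
    rw [h2, e.left_inv hq, div_mul_cancel₀ _ h1.1]
  · intro ζ hζ
    have hζ' : ζ ^ 2 ∈ e.target := hζ
    simp only [hζ', dif_pos]
    rw [mul_div_assoc, div_self (hH _ (e.map_target hζ')).1, mul_one]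
  · intro q hq
    have h1 : ContinuousAt k q.1.1 := hk.continuousAt (e.open_source.mem_nhds hq)
    have h2 : ContinuousAt (fun q : D.S => k q.1.1) q :=
      ContinuousAt.comp (f := D.pr) h1 D.pr_cont.continuousAt
    exact (D.w_cont.continuousAt.div h2 (hH _ hq).1).continuousWithinAt
  · have hind : IsInducing (Subtype.val : D.S → Torus × ℂ) := IsInducing.subtypeVal
    rw [hind.continuousOn_iff]
    have h1 : ContinuousOn (fun ζ : ℂ => (e.symm (ζ ^ 2), ζ * k (e.symm (ζ ^ 2))))
        {ζ | ζ ^ 2 ∈ e.target} := by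
      intro ζ hζ
      have hζ' : ζ ^ 2 ∈ e.target := hζ
      have h2 : ContinuousAt (fun ζ : ℂ => e.symm (ζ ^ 2)) ζ :=
        ContinuousAt.comp (f := fun ζ : ℂ => ζ ^ 2) (e.continuousAt_symm hζ')
          (by fun_prop)
      have h3 : ContinuousAt k (e.symm (ζ ^ 2)) :=
        hk.continuousAt (e.open_source.mem_nhds (e.map_target hζ'))
      have h4 : ContinuousAt (fun ζ : ℂ => k (e.symm (ζ ^ 2))) ζ :=
        ContinuousAt.comp (f := fun ζ : ℂ => e.symm (ζ ^ 2)) h3 h2
      exact (h2.prodMk (continuousAt_id.mul h4)).continuousWithinAt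
    refine h1.congr ?_
    intro ζ hζ
    have hζ' : ζ ^ 2 ∈ e.target := hζ
    simp only [Function.comp_apply, hζ', dif_pos]
  · exact e.open_source.preimage D.pr_cont
  · exact e.open_target.preimage (by fun_prop)

/-- The double cover as a `TorusDouble`. -/
noncomputable def toTD (g : ℕ) (hg : {x | D.H x = 0}.ncard = 2 * g - 2) : TorusDouble g where
  S := D.S
  locallyPlane := D.chart
  π := D.pr
  τ := D.inv
  π_continuous := D.pr_cont
  π_surjective := D.pr_surj
  τ_continuous := D.inv_cont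
  τ_τ := D.inv_inv
  fibre := D.fib
  branch_finite := by
    have : {p : D.S | D.inv p = p} = D.pr ⁻¹' {x | D.H x = 0} := by
      ext p
      exact D.inv_fix p
    rw [this]
    refine D.H_fin.preimage ?_
    intro p hp q hq hpq
    have h1 := (D.inv_fix p).mpr hp
    rcases (D.fib p q).mp hpq with h | h
    · exact h.symm
    · rw [h, h1]
  branch_card := by
    rw [← hg]
    have h2 : D.pr '' {p : D.S | D.inv p = p} = {x | D.H x = 0} := by
      ext x
      constructor
      · rintro ⟨p, hp, rfl⟩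
        exact (D.inv_fix p).mp hp
      · intro hx
        obtain ⟨p, rfl⟩ := D.pr_surj x
        exact ⟨p, (D.inv_fix p).mpr hx, rfl⟩
    rw [← h2, Set.InjOn.ncard_image]
    intro p hp q hq hpq
    have h1 : D.inv p = p := hp
    rcases (D.fib p q).mp hpq with h | h
    · exact h.symm
    · rw [h, h1]

/-- The lift of a homeomorphism. -/
theorem exists_lift (A : Torus ≃ₜ Torus) (χ : Torus → ℂ)
    (hχ : ContinuousOn χ {x | D.H x ≠ 0}) (hχ2 : ∀ x, χ x ^ 2 * D.H x = D.H (A x))
    (hA : ∀ x, D.H (A x) = 0 ↔ D.H x = 0) :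
    ∃ f : D.S ≃ₜ D.S, ∀ p, D.pr (f p) = A (D.pr p) := by
  let f0 : D.S → D.S := fun p => ⟨(A p.1.1, p.1.2 * χ p.1.1), by
    show (p.1.2 * χ p.1.1) ^ 2 = D.H (A p.1.1)
    rw [mul_pow, p.2, mul_comm, hχ2]⟩
  have hf0 : ∀ p, (f0 p).1 = (A p.1.1, p.1.2 * χ p.1.1) := fun p => rfl
  have hcont : Continuous f0 := by
    refine Continuous.subtype_mk ?_ _
    refine (A.continuous.comp D.pr_cont).prodMk ?_
    rw [continuous_iff_continuousAt]
    intro p
    by_cases hp : D.H p.1.1 = 0
    · have hw : p.1.2 = 0 := by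
        have : p.1.2 ^ 2 = 0 := by rw [p.2]; exact hp
        exact pow_eq_zero_iff (two_ne_zero) |>.mp this
      show Tendsto (fun p : D.S => p.1.2 * χ p.1.1) (𝓝 p) (𝓝 (p.1.2 * χ p.1.1))
      rw [hw, zero_mul, tendsto_zero_iff_norm_tendsto_zero]
      have h1 : ∀ q : D.S, ‖q.1.2 * χ q.1.1‖ = Real.sqrt ‖D.H (A q.1.1)‖ := by
        intro q
        rw [← hχ2, ← q.2, ← mul_pow, norm_pow, Real.sqrt_sq (norm_nonneg _), mul_comm]
      simp only [h1]
      have h2 : Continuous fun q : D.S => Real.sqrt ‖D.H (A q.1.1)‖ :=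
        Real.continuous_sqrt.comp ((D.H_cont.comp (A.continuous.comp D.pr_cont)).norm)
      have h3 := h2.tendsto p
      have h4 : D.H (A p.1.1) = 0 := (hA _).mpr hp
      rw [h4, norm_zero, Real.sqrt_zero] at h3
      exact h3
    · have hopen : IsOpen {x | D.H x ≠ 0} := isOpen_ne_fun D.H_cont continuous_const
      have h1 : ContinuousAt χ p.1.1 := hχ.continuousAt (hopen.mem_nhds hp)
      have h2 : ContinuousAt (fun q : D.S => χ q.1.1) p :=
        ContinuousAt.comp (f := D.pr) h1 D.pr_cont.continuousAt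
      exact D.w_cont.continuousAt.mul h2
  have hχne : ∀ x, D.H x ≠ 0 → χ x ≠ 0 := by
    intro x hx h
    have := hχ2 x
    rw [h] at this
    apply hx
    rw [← hA x, ← this]
    simp
  have hinj : Function.Injective f0 := by
    intro p q hpq
    have h1 : (A p.1.1, p.1.2 * χ p.1.1) = (A q.1.1, q.1.2 * χ q.1.1) := by
      rw [← hf0, ← hf0, hpq]
    rw [Prod.mk.injEq] at h1
    have h2 : p.1.1 = q.1.1 := A.injective h1.1
    apply Subtype.ext
    refine Prod.ext h2 ?_
    by_cases hp : D.H p.1.1 = 0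
    · have e1 : p.1.2 = 0 := by
        have : p.1.2 ^ 2 = 0 := by rw [p.2]; exact hp
        exact pow_eq_zero_iff (two_ne_zero) |>.mp this
      have e2 : q.1.2 = 0 := by
        have : q.1.2 ^ 2 = 0 := by rw [q.2, ← h2]; exact hp
        exact pow_eq_zero_iff (two_ne_zero) |>.mp this
      rw [e1, e2]
    · have h3 := h1.2
      rw [← h2] at h3
      exact mul_right_cancel₀ (hχne _ hp) h3
  have hsurj : Function.Surjective f0 := by
    intro q
    by_cases hq : D.H q.1.1 = 0
    · have e2 : q.1.2 = 0 := by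
        have : q.1.2 ^ 2 = 0 := by rw [q.2]; exact hq
        exact pow_eq_zero_iff (two_ne_zero) |>.mp this
      have h1 : D.H (A.symm q.1.1) = 0 := by rw [← hA, A.apply_symm_apply]; exact hq
      refine ⟨⟨(A.symm q.1.1, 0), by simpa using h1.symm⟩, ?_⟩
      apply Subtype.ext
      rw [hf0]
      refine Prod.ext (A.apply_symm_apply _) ?_
      simp [e2]
    · have h1 : D.H (A.symm q.1.1) ≠ 0 := by
        intro h
        apply hq
        rw [← hA, A.apply_symm_apply] at h
        exact h
      have h2 := hχne _ h1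
      refine ⟨⟨(A.symm q.1.1, q.1.2 / χ (A.symm q.1.1)), ?_⟩, ?_⟩
      · show (q.1.2 / χ (A.symm q.1.1)) ^ 2 = D.H (A.symm q.1.1)
        have h3 := hχ2 (A.symm q.1.1)
        rw [A.apply_symm_apply, ← q.2] at h3
        rw [div_pow, ← h3]
        field_simp
      · apply Subtype.ext
        rw [hf0]
        refine Prod.ext (A.apply_symm_apply _) ?_
        show q.1.2 / χ (A.symm q.1.1) * χ (A.symm q.1.1) = q.1.2
        rw [div_mul_cancel₀ _ h2]
  refine ⟨Continuous.homeoOfEquivCompactToT2 (f := Equiv.ofBijective f0 ⟨hinj, hsurj⟩) hcont,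
    fun p => rfl⟩

end DblData

end Pool.Agent.TH615.ML
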