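import Mathlib

/-!
# Closed surfaces which are double covers of a torus, and their Teichmueller geodesics

Definitions used in the statement of
`Pool/Agent/Results/MP_f17b37_gt/UnboundedSimpleMultiplicity.lean`.
-/

set_option autoImplicit false

open Topology

namespace Pool.Agent.TH615.ML

/-- The torus `ℝ² / ℤ²`. -/
abbrev Torus : Type := AddCircle (1 : ℝ) × AddCircle (1 : ℝ)

/-- The universal covering `ℝ² → ℝ² / ℤ²`. -/
def mk (v : ℝ × ℝ) : Torus := ((v.1 : AddCircle (1 : ℝ)), (v.2 : AddCircle (1 : ℝ)))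

/-- The group `SL(2, ℤ)`. -/
abbrev SL2Z : Type := Matrix.SpecialLinearGroup (Fin 2) ℤ

/-- The linear action of `A ∈ SL(2, ℤ)` on `ℝ²`. -/
def linR (A : SL2Z) (v : ℝ × ℝ) : ℝ × ℝ :=
  ((A 0 0 : ℝ) * v.1 + (A 0 1 : ℝ) * v.2, (A 1 0 : ℝ) * v.1 + (A 1 1 : ℝ) * v.2)

/-- The automorphism of the torus `ℝ² / ℤ²` induced by `A ∈ SL(2, ℤ)`. -/
def linT (A : SL2Z) (x : Torus) : Torus :=
  (A 0 0 • x.1 + A 0 1 • x.2, A 1 0 • x.1 + A 1 1 • x.2)

/-- A closed connected surface `S` of genus `g ≥ 2`, presented as a two-fold branched cover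
`π : S → ℝ² / ℤ²` with covering involution `τ`.  The branch points are the fixed points of `τ`;
there are `2 g - 2` of them, so that `S` has genus `g` by the Riemann-Hurwitz formula
`2 - 2 g = 2 · 0 - (2 g - 2)`. -/
structure TorusDouble (g : ℕ) where
  /-- the underlying set of the surface -/
  S : Type
  /-- its topology -/
  [top : TopologicalSpace S]
  [t2 : T2Space S]
  [compact : CompactSpace S]
  [connected : ConnectedSpace S]
  /-- `S` is locally homeomorphic to the plane -/
  locallyPlane : ∀ p : S, ∃ e : OpenPartialHomeomorph S ℂ, p ∈ e.source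
  /-- the projection to the torus -/
  π : S → Torus
  /-- the covering involution -/
  τ : S → S
  π_continuous : Continuous π
  π_surjective : Function.Surjective π
  τ_continuous : Continuous τ
  τ_τ : ∀ p, τ (τ p) = p
  fibre : ∀ p q, π p = π q ↔ (q = p ∨ q = τ p)
  branch_finite : {p : S | τ p = p}.Finite
  branch_card : {p : S | τ p = p}.ncard = 2 * g - 2

attribute [instance] TorusDouble.top TorusDouble.t2 TorusDouble.compact TorusDouble.connected

/-- A lift `f : S → S` of the automorphism of `ℝ² / ℤ²` given by `A ∈ SL(2, ℤ)` to such a surface.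
If `A` is hyperbolic then `f` is a pseudo-Anosov homeomorphism of `S`; its foliations are the
lifts of the two eigenfoliations of `A`, and its stretch factor is the spectral radius of `A`. -/
structure PALift (g : ℕ) (A : SL2Z) extends TorusDouble g where
  f : S ≃ₜ S
  f_lift : ∀ p, π (f p) = linT A (π p)

/-- The complex coordinate `e^t α + i e^{-t} β` on `ℝ²`.  When `α` and `β` are linear forms which
are multiplied by `λ` and `λ⁻¹` under `A`, these are the natural coordinates of the quadratic
differentials along the axis of `A`, at time `t`. -/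
noncomputable def coord (α β : ℝ × ℝ →ₗ[ℝ] ℝ) (t : ℝ) (v : ℝ × ℝ) : ℂ :=
  ((Real.exp t * α v : ℝ) : ℂ) + ((Real.exp (-t) * β v : ℝ) : ℂ) * Complex.I

/-- The map `ψ : X → Y` is holomorphic near `p` in the local coordinates `cX` of `X` and `cY` of
`Y`: in terms of local lifts `a`, `b` to `ℝ²` of the projections to the torus, `cY ∘ b` is an
analytic function of `cX ∘ a`. -/
def HoloAt {g h : ℕ} (X : TorusDouble g) (Y : TorusDouble h) (cX cY : ℝ × ℝ → ℂ)
    (ψ : X.S → Y.S) (p : X.S) : Prop :=
  ∃ U ∈ 𝓝 p, ∃ (a b : X.S → ℝ × ℝ) (F : ℂ → ℂ), ContinuousOn a U ∧ ContinuousOn b U ∧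
    (∀ q ∈ U, mk (a q) = X.π q) ∧ (∀ q ∈ U, mk (b q) = Y.π (ψ q)) ∧
    AnalyticAt ℂ F (cX (a p)) ∧ ∀ q ∈ U, cY (b q) = F (cX (a q))

/-- The Riemann surfaces `(X, cX)` and `(Y, cY)` are conformally equivalent: there is a
homeomorphism from `X` to `Y` which is holomorphic outside a finite set.  Here `(X, cX)` is the
closed surface `X` with the conformal structure for which `π` is holomorphic, the torus having
the complex structure given by the coordinate `cX` on `ℝ²`. -/
def ConfEquiv {g h : ℕ} (X : TorusDouble g) (Y : TorusDouble h) (cX cY : ℝ × ℝ → ℂ) : Prop :=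
  ∃ ψ : X.S ≃ₜ Y.S, ∃ E : Set X.S, E.Finite ∧ ∀ p, p ∉ E → HoloAt X Y cX cY ψ p

end Pool.Agent.TH615.ML
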