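import Pool.Agent.TH615.ML.Unique
import Pool.Agent.TH615.ML.Arith2

/-! Conformal maps between branched double covers of tori are lifts of affine maps. -/

set_option autoImplicit false

open Topology Filter Set

namespace Pool.Agent.TH615.ML

section

variable {g h : ℕ} {X : TorusDouble g} {Y : TorusDouble h} {cX cY : (ℝ × ℝ) ≃L[ℝ] ℂ}
  {ψ : X.S ≃ₜ Y.S}

theorem uniq (hX : {p : X.S | X.τ p = p}.Finite) (hY : {p : Y.S | Y.τ p = p}.Finite)
    (E : Set X.S) (hE : E.Finite) (hψ : ∀ p, p ∉ E → HoloAt X Y cX cY ψ p)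
    (Z : Finset ℂ) (hZ : 16 < Z.card)
    (hz : ∀ e ∈ Z, ∃ p, X.τ p = p ∧ X.π p ≠ 0 ∧ wpT cX (X.π p) = e) :
    ∀ q, Y.π (ψ (X.τ q)) = Y.π (ψ q) := by
  set Bq : Set X.S := E ∪ X.τ '' E ∪ {p | X.τ p = p} ∪ ψ ⁻¹' {y | Y.τ y = y} ∪ X.π ⁻¹' {0} with hBq
  have hBqf : Bq.Finite :=
    (((hE.union (hE.image _)).union hX).union (hY.preimage ψ.injective.injOn)).union
      (preimage_finite X (finite_singleton 0))
  set Bd : Set Torus := (fun q => Y.π (ψ q)) '' Bq with hBd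
  have hBdf : Bd.Finite := hBqf.image _
  have hgood : ∀ t0 ∉ Bd, ∀ q, Y.π (ψ q) = t0 → q ∉ E ∧ X.τ q ∉ E ∧ X.τ q ≠ q ∧
      Y.τ (ψ q) ≠ ψ q ∧ X.π q ≠ 0 := by
    rintro t0 ht q rfl
    have hq : q ∉ Bq := fun h => ht ⟨q, h, rfl⟩
    simp only [hBq, mem_union, not_or] at hq
    obtain ⟨⟨⟨⟨h1, h2⟩, h3⟩, h4⟩, h5⟩ := hq
    exact ⟨h1, fun h => h2 ⟨X.τ q, h, X.τ_τ q⟩, h3, h4, h5⟩
  -- two base points
  have hinf : (Ioo (0:ℝ) (1/2) \ {r | mk (r, 0) ∈ Bd}).Infinite := by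
    have h1 : (Ioo (0:ℝ) (1/2)).Infinite := Ioo_infinite (by norm_num)
    have h2 : (Ioo (0:ℝ) (1/2) ∩ {r | mk (r, 0) ∈ Bd}).Finite := by
      have : InjOn (fun r : ℝ => mk (r, 0)) (Ioo (0:ℝ) (1/2)) := by
        intro r hr r' hr' hrr
        have h3 : mk ((r, 0) - (r', 0)) = 0 := by
          rw [mk_sub]
          exact sub_eq_zero.mpr hrr
        rw [mk_eq_zero] at h3
        obtain ⟨m, n, h4⟩ := h3
        have h5 : r - r' = m := congrArg Prod.fst h4
        have h6 : |(m:ℝ)| < 1 := by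
          rw [← h5, abs_lt]
          constructor <;> linarith [hr.1, hr.2, hr'.1, hr'.2]
        have h7 : m = 0 := by
          have : |m| < 1 := by exact_mod_cast h6
          exact Int.abs_lt_one_iff.mp this
        rw [h7] at h5
        push_cast at h5
        linarith
      refine Set.Finite.of_finite_image (f := fun r : ℝ => mk (r, 0)) (hBdf.subset ?_)
        (this.mono inter_subset_left)
      rintro _ ⟨r, hr, rfl⟩
      exact hr.2
    intro hfin
    apply h1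
    have : Ioo (0:ℝ) (1/2) = (Ioo (0:ℝ) (1/2) \ {r | mk (r, 0) ∈ Bd}) ∪
        (Ioo (0:ℝ) (1/2) ∩ {r | mk (r, 0) ∈ Bd}) := by
      ext r
      simp only [mem_union, Set.mem_sdiff, mem_inter_iff]
      tauto
    rw [this]
    exact hfin.union h2
  obtain ⟨r, hr, r', hr', hne⟩ := hinf.nontrivial
  obtain ⟨B1, hB1, h1⟩ := step E hE hψ Z hZ hz (mk (r, 0)) (hgood _ hr.2)
  obtain ⟨B2, hB2, h2⟩ := step E hE hψ Z hZ hz (mk (r', 0)) (hgood _ hr'.2)
  have h3 : ∀ q ∉ B1 ∪ B2, Y.π (ψ (X.τ q)) = Y.π (ψ q) := by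
    intro q hq
    rcases h1 q (fun h => hq (Or.inl h)) with h | h
    · exact h
    · rcases h2 q (fun h => hq (Or.inr h)) with h' | h'
      · exact h'
      · exfalso
        rw [h] at h'
        have h4 : mk ((r, 0) + (r, 0) - ((r', 0) + (r', 0))) = 0 := by
          rw [mk_sub, mk_add, mk_add]
          exact sub_eq_zero.mpr h'
        rw [mk_eq_zero] at h4
        obtain ⟨m, n, h4⟩ := h4
        have h5 : r + r - (r' + r') = m := congrArg Prod.fst h4
        have h6 : |(m:ℝ)| < 1 := by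
          rw [← h5, abs_lt]
          constructor <;> linarith [hr.1.1, hr.1.2, hr'.1.1, hr'.1.2]
        have h7 : m = 0 := by
          have : |m| < 1 := by exact_mod_cast h6
          exact Int.abs_lt_one_iff.mp this
        rw [h7] at h5
        push_cast at h5
        apply hne
        linarith
  have hcl : IsClosed {q | Y.π (ψ (X.τ q)) = Y.π (ψ q)} :=
    isClosed_eq (Y.π_continuous.comp (ψ.continuous.comp X.τ_continuous))
      (Y.π_continuous.comp ψ.continuous)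
  intro q
  exact hcl.closure_subset_iff.mpr (fun q hq => h3 q hq) (dense_of_finite X (hB1.union hB2) q)

lemma tau_comm (hX : {p : X.S | X.τ p = p}.Finite)
    (h : ∀ q, Y.π (ψ (X.τ q)) = Y.π (ψ q)) (q : X.S) : ψ (X.τ q) = Y.τ (ψ q) := by
  have hcl : IsClosed {q | ψ (X.τ q) = Y.τ (ψ q)} :=
    isClosed_eq (ψ.continuous.comp X.τ_continuous) (Y.τ_continuous.comp ψ.continuous)
  refine hcl.closure_subset_iff.mpr ?_ (dense_of_finite X hX q)
  intro q hq
  rcases (Y.fibre (ψ q) (ψ (X.τ q))).mp (h q).symm with h1 | h1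
  · exact absurd (ψ.injective h1) hq
  · exact h1

lemma exists_bar (hc : ∀ q, ψ (X.τ q) = Y.τ (ψ q)) :
    ∃ bar : Torus → Torus, Continuous bar ∧ Function.Injective bar ∧
      ∀ q, bar (X.π q) = Y.π (ψ q) := by
  refine ⟨fun x => Y.π (ψ (Function.surjInv X.π_surjective x)), ?_, ?_, ?_⟩
  all_goals
    have hb : ∀ q, Y.π (ψ (Function.surjInv X.π_surjective (X.π q))) = Y.π (ψ q) := by
      intro q
      have h1 : X.π q = X.π (Function.surjInv X.π_surjective (X.π q)) :=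
        (Function.surjInv_eq X.π_surjective _).symm
      rcases (X.fibre _ _).mp h1 with h2 | h2
      · rw [h2]
      · rw [h2, hc, pi_tau]
  · rw [(pi_isQuotientMap X).continuous_iff]
    have : (fun x => Y.π (ψ (Function.surjInv X.π_surjective x))) ∘ X.π =
        fun q => Y.π (ψ q) := funext hb
    rw [this]
    exact Y.π_continuous.comp ψ.continuous
  · intro x x' hxx
    obtain ⟨q, rfl⟩ := X.π_surjective x
    obtain ⟨q', rfl⟩ := X.π_surjective x'
    simp only [hb] at hxx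
    rw [X.fibre]
    rcases (Y.fibre _ _).mp hxx with h2 | h2
    · left; exact ψ.injective h2
    · right
      rw [← hc] at h2
      exact ψ.injective h2
  · exact hb

/-- lifting a self-map of the torus to the universal covering -/
lemma exists_torus_lift (cX cY : (ℝ × ℝ) ≃L[ℝ] ℂ) (bar : Torus → Torus) (hbar : Continuous bar) :
    ∃ Ψ : ℂ → ℂ, Continuous Ψ ∧ ∀ z, PP cY (Ψ z) = bar (PP cX z) := by
  have key : ∀ f : C(ℂ, AddCircle (1:ℝ)), ∃ l : C(ℂ, ℝ), ∀ z, ((l z : ℝ) : AddCircle (1:ℝ)) = f z := by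
    intro f
    obtain ⟨e0, he0⟩ := QuotientAddGroup.mk_surjective (f 0)
    obtain ⟨F, ⟨-, hF⟩, -⟩ := (AddCircle.isCoveringMap_coe (1:ℝ)).existsUnique_continuousMap_lifts
      f 0 e0 he0
    exact ⟨F, fun z => congrFun hF z⟩
  have hcont : Continuous fun z => bar (PP cX z) := hbar.comp (PP_continuous cX)
  obtain ⟨l1, hl1⟩ := key ⟨fun z => (bar (PP cX z)).1, hcont.fst⟩
  obtain ⟨l2, hl2⟩ := key ⟨fun z => (bar (PP cX z)).2, hcont.snd⟩
  refine ⟨fun z => cY (l1 z, l2 z), cY.continuous.comp (l1.continuous.prodMk l2.continuous), ?_⟩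
  intro z
  rw [PP_c]
  unfold mk
  exact Prod.ext (hl1 z) (hl2 z)

lemma affine (E : Set X.S) (hE : E.Finite) (hψ : ∀ p, p ∉ E → HoloAt X Y cX cY ψ p)
    (bar : Torus → Torus) (hbar : Continuous bar) (hinj : Function.Injective bar)
    (hb : ∀ q, bar (X.π q) = Y.π (ψ q)) :
    ∃ b d : ℂ, b ≠ 0 ∧ ∀ z, bar (PP cX z) = PP cY (b * z + d) := by
  obtain ⟨Ψ, hΨc, hΨ⟩ := exists_torus_lift cX cY bar hbar
  obtain ⟨δ, hδ, hgap⟩ := lat_gap cY
  have hd1 : ∀ z0, PP cX z0 ∉ X.π '' E → DifferentiableAt ℂ Ψ z0 := by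
    intro z0 hz0
    obtain ⟨p, hp⟩ := X.π_surjective (PP cX z0)
    have hpE : p ∉ E := fun h => hz0 ⟨p, h, hp⟩
    obtain ⟨F, hF, W, hW, V, hV, h1⟩ := local_lift (hψ p hpE) hp.symm
    have h2 : ∀ᶠ z in 𝓝 z0, PP cY (F z) = PP cY (Ψ z) := by
      filter_upwards [local_section hp.symm hW, hV] with z hz hzV
      obtain ⟨q, hqW, hq⟩ := hz
      rw [h1 q hqW z hzV hq.symm, hΨ, ← hq, hb]
    have h3 : ContinuousAt (fun z => F z - Ψ z) z0 := hF.continuousAt.sub hΨc.continuousAt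
    have h4 : ∀ᶠ z in 𝓝 z0, ‖(F z - Ψ z) - (F z0 - Ψ z0)‖ < δ := by
      have := Metric.tendsto_nhds.mp h3 δ hδ
      simpa [dist_eq_norm] using this
    have h5 : ∀ᶠ z in 𝓝 z0, Ψ z = F z - (F z0 - Ψ z0) := by
      filter_upwards [h2, h4] with z e1 e2
      have e3 : F z0 - Ψ z0 ∈ (lat cY).lattice := (PP_eq cY _ _).mp h2.self_of_nhds
      have e4 : F z - Ψ z ∈ (lat cY).lattice := (PP_eq cY _ _).mp e1
      have e5 := hgap _ (sub_mem e4 e3) e2
      linear_combination -e5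
    exact (hF.differentiableAt.sub_const _).congr_of_eventuallyEq h5
  have hentire : Differentiable ℂ Ψ := by
    intro z0
    refine (Complex.analyticAt_of_differentiable_on_punctured_nhds_of_continuousAt ?_
      hΨc.continuousAt).differentiableAt
    obtain ⟨ε, hε, hgapX⟩ := lat_gap cX
    have hinjX : InjOn (PP cX) (Metric.ball z0 (ε / 2)) := by
      intro z hz w hw hzw
      rw [PP_eq] at hzw
      have e1 : ‖z - z0‖ < ε / 2 := by simpa [dist_eq_norm] using hz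
      have e2 : ‖w - z0‖ < ε / 2 := by simpa [dist_eq_norm] using hw
      have := hgapX _ hzw (by
        calc ‖z - w‖ = ‖(z - z0) - (w - z0)‖ := by ring_nf
          _ ≤ ‖z - z0‖ + ‖w - z0‖ := norm_sub_le _ _
          _ < ε := by linarith)
      exact sub_eq_zero.mp this
    have hfin : (Metric.ball z0 (ε / 2) ∩ PP cX ⁻¹' (X.π '' E)).Finite := by
      refine Set.Finite.of_finite_image (f := PP cX) ((hE.image X.π).subset ?_)
        (hinjX.mono inter_subset_left)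
      rintro _ ⟨z, hz, rfl⟩
      exact hz.2
    have hev : ∀ᶠ z in 𝓝 z0, z ∉ (Metric.ball z0 (ε / 2) ∩ PP cX ⁻¹' (X.π '' E)) \ {z0} :=
      (hfin.subset sdiff_subset).isClosed.isOpen_compl.mem_nhds (by simp)
    filter_upwards [nhdsWithin_le_nhds hev, nhdsWithin_le_nhds
      (Metric.ball_mem_nhds z0 (by positivity : 0 < ε / 2)), self_mem_nhdsWithin] with z e1 e2 e3
    apply hd1
    intro h
    exact e1 ⟨⟨e2, h⟩, e3⟩
  -- the derivative is periodic, hence constant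
  have hper : ∀ z w, w ∈ (lat cX).lattice → deriv Ψ (z + w) = deriv Ψ z := by
    intro z w hw
    have h1 : ∀ z, Ψ (z + w) - Ψ z ∈ (lat cY).lattice := by
      intro z
      rw [← PP_eq, hΨ, hΨ, PP_add, (PP_eq_zero cX w).mpr hw, add_zero]
    have hcc : Continuous fun z => Ψ (z + w) - Ψ z := by fun_prop
    have h2 : ∀ z, Ψ (z + w) = Ψ z + (Ψ (0 + w) - Ψ 0) := by
      intro z
      have := lat_const cY hcc h1 z 0
      linear_combination this
    have h3 : (fun z => Ψ (z + w)) = fun z => Ψ z + (Ψ (0 + w) - Ψ 0) := funext h2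
    rw [← deriv_comp_add_const, h3, deriv_add_const]
  have hd2 : Differentiable ℂ (deriv Ψ) := by
    intro z
    exact (hentire.analyticAt z).deriv.differentiableAt
  have hconst := hd2.apply_eq_apply_of_bounded
    (IsZLattice.isCompact_range_of_periodic (lat cX).lattice _ hd2.continuous hper).isBounded
  set b := deriv Ψ 0 with hbdef
  have h4 : ∀ z, Ψ z = b * z + Ψ 0 := by
    intro z
    have h5 : Differentiable ℂ (fun z => Ψ z - b * z) := hentire.sub (by fun_prop)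
    have h6 : ∀ z, deriv (fun z => Ψ z - b * z) z = 0 := by
      intro z
      have : HasDerivAt (fun z => Ψ z - b * z) (deriv Ψ z - b * 1) z :=
        (hentire z).hasDerivAt.sub ((hasDerivAt_id' z).const_mul b)
      rw [this.deriv, hconst z 0, mul_one, sub_self]
    have h7 := is_const_of_deriv_eq_zero h5 h6 z 0
    simp only [mul_zero, sub_zero] at h7
    linear_combination h7
  refine ⟨b, Ψ 0, ?_, fun z => by rw [← h4, hΨ]⟩
  intro hb0
  have h5 : ∀ z w, PP cX z = PP cX w := by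
    intro z w
    apply hinj
    rw [← hΨ, ← hΨ, h4 z, h4 w, hb0]
    ring_nf
  have h6 := h5 ((lat cX).ω₁ / 2) 0
  rw [PP_zero, PP_eq_zero] at h6
  exact (lat cX).ω₁_div_two_notMem_lattice h6

end

/-- the area form of a coordinate -/
noncomputable def ar (c : (ℝ × ℝ) ≃L[ℝ] ℂ) : ℝ := (starRingEnd ℂ (c (1, 0)) * c (0, 1)).im

lemma ar_formula (c : (ℝ × ℝ) ≃L[ℝ] ℂ) (v w : ℝ × ℝ) :
    (starRingEnd ℂ (c v) * c w).im = (v.1 * w.2 - v.2 * w.1) * ar c := by
  have hv : c v = v.1 * c (1, 0) + v.2 * c (0, 1) := by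
    have : v = v.1 • ((1:ℝ), (0:ℝ)) + v.2 • ((0:ℝ), (1:ℝ)) := by ext <;> simp
    conv_lhs => rw [this]
    rw [map_add, map_smul, map_smul]
    simp
  have hw : c w = w.1 * c (1, 0) + w.2 * c (0, 1) := by
    have : w = w.1 • ((1:ℝ), (0:ℝ)) + w.2 • ((0:ℝ), (1:ℝ)) := by ext <;> simp
    conv_lhs => rw [this]
    rw [map_add, map_smul, map_smul]
    simp
  rw [hv, hw]
  unfold ar
  simp
  ring

lemma matrix_of (cX cY : (ℝ × ℝ) ≃L[ℝ] ℂ) (hX : 0 < ar cX) (hY : 0 < ar cY) (b : ℂ) (hb : b ≠ 0)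
    (h1 : ∀ l ∈ (lat cX).lattice, b * l ∈ (lat cY).lattice)
    (h2 : ∀ l ∈ (lat cY).lattice, l / b ∈ (lat cX).lattice) :
    ∃ B : SL2Z, ∀ v, cY (linR B v) = b * cX v := by
  have lin : ∀ (c : (ℝ × ℝ) ≃L[ℝ] ℂ) (v : ℝ × ℝ), c v = v.1 * c (1, 0) + v.2 * c (0, 1) := by
    intro c v
    have : v = v.1 • ((1:ℝ), (0:ℝ)) + v.2 • ((0:ℝ), (1:ℝ)) := by ext <;> simp
    conv_lhs => rw [this]
    rw [map_add, map_smul, map_smul]
    simp
  have e1 : cX (1, 0) ∈ (lat cX).lattice := (mem_lat cX _).mpr ⟨1, 0, by simp⟩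
  have e2 : cX (0, 1) ∈ (lat cX).lattice := (mem_lat cX _).mpr ⟨0, 1, by simp⟩
  have f1 : cY (1, 0) ∈ (lat cY).lattice := (mem_lat cY _).mpr ⟨1, 0, by simp⟩
  have f2 : cY (0, 1) ∈ (lat cY).lattice := (mem_lat cY _).mpr ⟨0, 1, by simp⟩
  obtain ⟨p, r, h3⟩ := (mem_lat cY _).mp (h1 _ e1)
  obtain ⟨q, s, h4⟩ := (mem_lat cY _).mp (h1 _ e2)
  obtain ⟨p', r', h5⟩ := (mem_lat cX _).mp (h2 _ f1)
  obtain ⟨q', s', h6⟩ := (mem_lat cX _).mp (h2 _ f2)
  -- determinants
  have d1 : ((p * s - r * q : ℤ) : ℝ) * ar cY = Complex.normSq b * ar cX := by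
    have := ar_formula cY (p, r) (q, s)
    rw [← h3, ← h4] at this
    push_cast
    rw [← this]
    unfold ar
    simp [Complex.normSq_apply]
    ring
  have d2 : ((p' * s' - r' * q' : ℤ) : ℝ) * ar cX = Complex.normSq b⁻¹ * ar cY := by
    have := ar_formula cX (p', r') (q', s')
    rw [← h5, ← h6] at this
    push_cast
    rw [← this, div_eq_inv_mul, div_eq_inv_mul]
    unfold ar
    simp only [map_mul, Complex.normSq_apply, Complex.mul_im, Complex.mul_re, Complex.conj_re,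
      Complex.conj_im]
    ring
  have hnb : 0 < Complex.normSq b := Complex.normSq_pos.mpr hb
  have hdet1 : (0:ℝ) < ((p * s - r * q : ℤ) : ℝ) := by
    have : 0 < ((p * s - r * q : ℤ) : ℝ) * ar cY := by rw [d1]; positivity
    exact (pos_iff_pos_of_mul_pos this).mpr hY
  have hdet2 : (0:ℝ) < ((p' * s' - r' * q' : ℤ) : ℝ) := by
    have : 0 < ((p' * s' - r' * q' : ℤ) : ℝ) * ar cX := by
      rw [d2, Complex.normSq_inv]
      positivity
    exact (pos_iff_pos_of_mul_pos this).mpr hX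
  have hprod : (p * s - r * q) * (p' * s' - r' * q') = 1 := by
    have h7 : (((p * s - r * q : ℤ) : ℝ) * ((p' * s' - r' * q' : ℤ) : ℝ)) * (ar cX * ar cY)
        = 1 * (ar cX * ar cY) := by
      calc _ = (((p * s - r * q : ℤ) : ℝ) * ar cY) * (((p' * s' - r' * q' : ℤ) : ℝ) * ar cX) := by
            ring
        _ = _ := by
            rw [d1, d2, Complex.normSq_inv]
            field_simp
    have h8 := mul_right_cancel₀ (by positivity) h7
    exact_mod_cast h8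
  have hd1 : 0 < p * s - r * q := by exact_mod_cast hdet1
  have hd2 : 0 < p' * s' - r' * q' := by exact_mod_cast hdet2
  have hdet : p * s - r * q = 1 := by nlinarith
  refine ⟨⟨!![p, q; r, s], by rw [Matrix.det_fin_two]; simp; linarith⟩, ?_⟩
  intro v
  have h7 : linR (⟨!![p, q; r, s], by rw [Matrix.det_fin_two]; simp; linarith⟩ : SL2Z) v =
      ((p:ℝ) * v.1 + (q:ℝ) * v.2, (r:ℝ) * v.1 + (s:ℝ) * v.2) := rfl
  rw [h7, lin cX v, lin cY]
  rw [lin cY] at h3 h4
  simp only at h3 h4 ⊢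
  push_cast at h3 h4 ⊢
  linear_combination (-(v.1:ℂ)) * h3 - (v.2:ℂ) * h4

theorem descend {g h : ℕ} {X : TorusDouble g} {Y : TorusDouble h} {cX cY : (ℝ × ℝ) ≃L[ℝ] ℂ}
    (hX : 0 < ar cX) (hY : 0 < ar cY)
    {ψ : X.S ≃ₜ Y.S} (E : Set X.S) (hE : E.Finite) (hψ : ∀ p, p ∉ E → HoloAt X Y cX cY ψ p)
    (Z : Finset ℂ) (hZ : 16 < Z.card)
    (hz : ∀ e ∈ Z, ∃ p, X.τ p = p ∧ X.π p ≠ 0 ∧ wpT cX (X.π p) = e) :
    ∃ (B : SL2Z) (b : ℂ) (x0 : Torus), (∀ v, cY (linR B v) = b * cX v) ∧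
      ∀ v, (∃ p, X.τ p = p ∧ X.π p = mk v) ↔ (∃ p, Y.τ p = p ∧ Y.π p = mk (linR B v) + x0) := by
  have hu := uniq X.branch_finite Y.branch_finite E hE hψ Z hZ hz
  have hc := tau_comm X.branch_finite hu
  obtain ⟨bar, hbar, hinj, hb⟩ := exists_bar hc
  obtain ⟨b, d, hb0, hbd⟩ := affine E hE hψ bar hbar hinj hb
  obtain ⟨B, hB⟩ := matrix_of cX cY hX hY b hb0
    (by
      intro l hl
      have h1 := hbd l
      have h2 := hbd 0
      rw [(PP_eq_zero cX l).mpr hl, ← PP_zero cX, h2, PP_eq] at h1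
      have h3 := neg_mem h1
      convert h3 using 1
      ring)
    (by
      intro l hl
      rw [← PP_eq_zero, ← PP_zero cX]
      apply hinj
      rw [hbd, hbd, PP_eq]
      convert hl using 1
      field_simp
      ring)
  refine ⟨B, b, PP cY d, hB, ?_⟩
  intro v
  have hkey : bar (mk v) = mk (linR B v) + PP cY d := by
    rw [← PP_c cX v, hbd, ← hB, PP_add, PP_c]
  rw [← hkey]
  constructor
  · rintro ⟨p, hp1, hp2⟩
    refine ⟨ψ p, ?_, ?_⟩
    · rw [← hc, hp1]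
    · rw [← hp2, hb]
  · rintro ⟨p, hp1, hp2⟩
    refine ⟨ψ.symm p, ?_, ?_⟩
    · apply ψ.injective
      rw [hc, ψ.apply_symm_apply, hp1]
    · apply hinj
      rw [hb, ψ.apply_symm_apply, hp2]

end Pool.Agent.TH615.ML
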