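import Pool.Agent.TH615.ML.Surf
import Pool.Agent.TH615.ML.Comb
import Pool.Agent.TH615.ML.Descend
import Pool.Agent.TH615.ML.Arith3

/-! Final assembly. -/

set_option autoImplicit false

open Topology Filter Set

namespace Pool.Agent.TH615.ML

/-- the standard coordinate -/
noncomputable def c0 : (ℝ × ℝ) ≃L[ℝ] ℂ := Complex.equivRealProdCLM.symm

section

variable {p : ℤ} {m : ℕ} {ν : ℕ → ℕ}

lemma Adm.key (h : Adm p m ν) (hm : 0 < m) {r r' : ℕ} (h1 : 1 ≤ r) (h2 : r ≤ 2 * m)
    (h1' : 1 ≤ r') (h2' : r' ≤ 2 * m)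
    (he : pt p (ν r) = pt p (ν r') ∨ pt p (ν r) = - pt p (ν r')) : r = r' :=
  h.inj r r' h1 h2 h1' h2' (small_eq (h.p0 hm) (h.lt r h1 h2) (h.lt r' h1' h2') (h.pos r h1 h2) he)

lemma Adm.two (h : Adm p m ν) (hm : 0 < m) {r : ℕ} (h1 : 1 ≤ r) (h2 : r ≤ 2 * m) :
    pt p (ν r) + pt p (ν r) ≠ 0 := by
  rw [← pt_add]
  intro h3
  rw [pt_eq_zero (h.p0 hm).ne'] at h3
  have h4 := Int.le_of_dvd (by have := h.pos r h1 h2; omega) h3
  have h5 := h.lt r h1 h2
  omega

/-- the pairs of branch points -/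
noncomputable def prs (h : Adm p m ν) (hm : 0 < m) : Pairs m where
  a i := pt p (ν (2 * i + 1))
  b i := pt p (ν (2 * i + 2))
  ok i := by
    have hi := i.2
    refine ⟨h.two hm (by omega) (by omega), h.two hm (by omega) (by omega), ?_, ?_⟩
    · intro he
      have := h.key hm (by omega) (by omega) (by omega) (by omega) (Or.inl he)
      omega
    · intro he
      have := h.key hm (by omega) (by omega) (by omega) (by omega) (Or.inr he)
      omega
  dis i j hij x := by
    rintro ⟨h1, h2⟩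
    have hi := i.2
    have hj := j.2
    have hij' : (i : ℕ) ≠ j := fun h => hij (Fin.ext h)
    have e1 : ∃ r, (r = 2 * (i : ℕ) + 1 ∨ r = 2 * (i : ℕ) + 2) ∧
        (x = pt p (ν r) ∨ x = - pt p (ν r)) := by
      rcases h1 with h1 | h1
      · exact ⟨_, Or.inl rfl, h1⟩
      · exact ⟨_, Or.inr rfl, h1⟩
    have e2 : ∃ r, (r = 2 * (j : ℕ) + 1 ∨ r = 2 * (j : ℕ) + 2) ∧
        (x = pt p (ν r) ∨ x = - pt p (ν r)) := by
      rcases h2 with h2 | h2
      · exact ⟨_, Or.inl rfl, h2⟩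
      · exact ⟨_, Or.inr rfl, h2⟩
    obtain ⟨r, hr, hx⟩ := e1
    obtain ⟨r', hr', hx'⟩ := e2
    have he : pt p (ν r) = pt p (ν r') ∨ pt p (ν r) = - pt p (ν r') := by
      rcases hx with hx | hx <;> rcases hx' with hx' | hx'
      · left; rw [← hx, ← hx']
      · right; rw [← hx, ← hx']
      · right; rw [← hx', hx, neg_neg]
      · left; rw [hx] at hx'; exact neg_injective hx'
    have := h.key hm (by omega) (by omega) (by omega) (by omega) he
    omega

lemma zero_iff (h : Adm p m ν) (hm : 0 < m) (x : Torus) :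
    HH c0 (prs h hm) x = 0 ↔ Mset p m ν x := by
  rw [HH_eq_zero]
  constructor
  · rintro ⟨i, hi⟩
    have hi' := i.2
    rcases hi with hi | hi
    · exact ⟨2 * i + 1, ⟨by omega, by omega⟩, hi⟩
    · exact ⟨2 * i + 2, ⟨by omega, by omega⟩, hi⟩
  · rintro ⟨r, ⟨hr1, hr2⟩, hr⟩
    refine ⟨⟨(r - 1) / 2, by omega⟩, ?_⟩
    rcases Nat.even_or_odd r with he | ho
    · right
      obtain ⟨k, hk⟩ := he
      have : 2 * ((r - 1) / 2) + 2 = r := by omega
      simp only [prs, this]
      exact hr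
    · left
      obtain ⟨k, hk⟩ := ho
      have : 2 * ((r - 1) / 2) + 1 = r := by omega
      simp only [prs, this]
      exact hr

lemma card_zero (h : Adm p m ν) (hm : 0 < m) :
    {x | HH c0 (prs h hm) x = 0}.ncard = 4 * m := by
  classical
  have hset : {x | HH c0 (prs h hm) x = 0} =
      (((Finset.Icc 1 (2 * m)).image (fun r => pt p (ν r)) ∪
        (Finset.Icc 1 (2 * m)).image (fun r => - pt p (ν r)) : Finset Torus) : Set Torus) := by
    ext x
    rw [mem_ofPred_eq, zero_iff h hm]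
    simp only [Finset.coe_union, Finset.coe_image, mem_union, mem_image, Finset.mem_coe,
      Finset.mem_Icc]
    constructor
    · rintro ⟨r, hr, h1 | h1⟩
      · left; exact ⟨r, hr, h1.symm⟩
      · right; exact ⟨r, hr, h1.symm⟩
    · rintro (⟨r, hr, h1⟩ | ⟨r, hr, h1⟩)
      · exact ⟨r, hr, Or.inl h1.symm⟩
      · exact ⟨r, hr, Or.inr h1.symm⟩
  rw [hset, ncard_coe_finset, Finset.card_union_of_disjoint, Finset.card_image_of_injOn,
    Finset.card_image_of_injOn, Nat.card_Icc]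
  · omega
  · intro r hr r' hr' he
    rw [Finset.coe_Icc] at hr hr'
    exact h.key hm hr.1 hr.2 hr'.1 hr'.2 (Or.inl (neg_injective he))
  · intro r hr r' hr' he
    rw [Finset.coe_Icc] at hr hr'
    exact h.key hm hr.1 hr.2 hr'.1 hr'.2 (Or.inl he)
  · rw [Finset.disjoint_left]
    intro x hx hx'
    rw [Finset.mem_image] at hx hx'
    obtain ⟨r, hr, h1⟩ := hx
    obtain ⟨r', hr', h2⟩ := hx'
    rw [Finset.mem_Icc] at hr hr'
    have h3 : pt p (ν r) = - pt p (ν r') := by rw [h1, h2]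
    have h4 := h.key hm hr.1 hr.2 hr'.1 hr'.2 (Or.inr h3)
    subst h4
    apply h.two hm hr.1 hr.2
    nth_rewrite 2 [h3]
    exact add_neg_cancel _

/-- the lift of the hyperbolic automorphism exists -/
lemma lift_exists {n : ℤ} (h : Adm (n + 2) m ν) (hm : 0 < m) :
    ∃ f : (PD c0 (prs h hm) hm).S ≃ₜ (PD c0 (prs h hm) hm).S,
      ∀ q, (PD c0 (prs h hm) hm).pr (f q) = linTH (An n) ((PD c0 (prs h hm) hm).pr q) := by
  have hn : n + 2 ≠ 0 := (h.p0 hm).ne'
  refine PD_lift c0 (prs h hm) hm (linTH (An n)) (linTH_neg _) ?_ ?_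
  · intro i
    right
    exact linT_pt n _ hn
  · intro i
    right
    exact linT_pt n _ hn

/-- the surface with its pseudo-Anosov map -/
noncomputable def surf {n : ℤ} (g : ℕ) (hg : g = 2 * m + 1) (h : Adm (n + 2) m ν) (hm : 0 < m) :
    PALift g (An n) where
  toTorusDouble := (PD c0 (prs h hm) hm).toTD g (by
    show {x | HH c0 (prs h hm) x = 0}.ncard = 2 * g - 2
    rw [card_zero h hm]
    omega)
  f := Classical.choose (lift_exists h hm)
  f_lift := Classical.choose_spec (lift_exists h hm)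

lemma surf_fix {n : ℤ} (g : ℕ) (hg : g = 2 * m + 1) (h : Adm (n + 2) m ν) (hm : 0 < m)
    (x : Torus) :
    (∃ q, (surf g hg h hm).τ q = q ∧ (surf g hg h hm).π q = x) ↔ Mset (n + 2) m ν x := by
  rw [← zero_iff h hm]
  constructor
  · rintro ⟨q, h1, h2⟩
    rw [← h2]
    exact (DblData.inv_fix (PD c0 (prs h hm) hm) q).mp h1
  · intro hx
    obtain ⟨q, hq⟩ := (PD c0 (prs h hm) hm).pr_surj x
    refine ⟨q, ?_, hq⟩
    refine (DblData.inv_fix (PD c0 (prs h hm) hm) q).mpr ?_
    rw [hq]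
    exact hx

end

/-- the coordinate as a continuous linear equivalence -/
noncomputable def coordL (α β : ℝ × ℝ →ₗ[ℝ] ℝ) (t : ℝ)
    (hD : 0 < α (1, 0) * β (0, 1) - α (0, 1) * β (1, 0)) : (ℝ × ℝ) ≃L[ℝ] ℂ :=
  (LinearMap.linearEquivOfInjective
    ({ toFun := coord α β t
       map_add' := by
        intro v w
        unfold coord
        rw [map_add, map_add]
        push_cast
        ring
       map_smul' := by
        intro r v
        unfold coord
        rw [map_smul, map_smul]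
        simp only [smul_eq_mul, RingHom.id_apply, Complex.real_smul]
        push_cast
        ring } : ℝ × ℝ →ₗ[ℝ] ℂ)
    (by
      rw [injective_iff_map_eq_zero]
      intro v hv
      have hv' : coord α β t v = 0 := hv
      have h1 := congrArg Complex.re hv'
      have h2 := congrArg Complex.im hv'
      rw [coord_re, Complex.zero_re] at h1
      rw [coord_im, Complex.zero_im] at h2
      replace h1 := (mul_eq_zero.mp h1).resolve_left (Real.exp_pos t).ne'
      replace h2 := (mul_eq_zero.mp h2).resolve_left (Real.exp_pos (-t)).ne'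
      have hv2 : v = v.1 • ((1:ℝ), (0:ℝ)) + v.2 • ((0:ℝ), (1:ℝ)) := by ext <;> simp
      have e1 : v.1 * α (1, 0) + v.2 * α (0, 1) = 0 := by
        rw [hv2, map_add, map_smul, map_smul] at h1
        simpa using h1
      have e2 : v.1 * β (1, 0) + v.2 * β (0, 1) = 0 := by
        rw [hv2, map_add, map_smul, map_smul] at h2
        simpa using h2
      have e3 : v.1 * (α (1, 0) * β (0, 1) - α (0, 1) * β (1, 0)) = 0 := by
        linear_combination β (0, 1) * e1 - α (0, 1) * e2
      have e4 : v.2 * (α (1, 0) * β (0, 1) - α (0, 1) * β (1, 0)) = 0 := by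
        linear_combination α (1, 0) * e2 - β (1, 0) * e1
      have e5 := (mul_eq_zero.mp e3).resolve_right hD.ne'
      have e6 := (mul_eq_zero.mp e4).resolve_right hD.ne'
      exact Prod.ext e5 e6)
    (by simp)).toContinuousLinearEquiv

lemma coordL_apply (α β : ℝ × ℝ →ₗ[ℝ] ℝ) (t : ℝ)
    (hD : 0 < α (1, 0) * β (0, 1) - α (0, 1) * β (1, 0)) (v : ℝ × ℝ) :
    coordL α β t hD v = coord α β t v := rfl

lemma coordL_coe (α β : ℝ × ℝ →ₗ[ℝ] ℝ) (t : ℝ)
    (hD : 0 < α (1, 0) * β (0, 1) - α (0, 1) * β (1, 0)) :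
    (coordL α β t hD : ℝ × ℝ → ℂ) = coord α β t := rfl

lemma ar_coordL (α β : ℝ × ℝ →ₗ[ℝ] ℝ) (t : ℝ)
    (hD : 0 < α (1, 0) * β (0, 1) - α (0, 1) * β (1, 0)) : 0 < ar (coordL α β t hD) := by
  unfold ar
  rw [coordL_apply, coordL_apply, area]
  linarith

/-- powers of the lift -/
lemma pow_lift {g : ℕ} {A : SL2Z} (X : PALift g A) (k : ℤ) :
    ∀ (q : X.S) (v : ℝ × ℝ), X.π q = mk v → X.π ((X.f ^ k) q) = mk (linR (A ^ k) v) := by
  have h1 : ∀ (q : X.S) (v : ℝ × ℝ), X.π q = mk v → X.π (X.f q) = mk (linR A v) := by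
    intro q v hq
    rw [X.f_lift, hq, linT_mk]
  have h2 : ∀ (q : X.S) (v : ℝ × ℝ), X.π q = mk v → X.π (X.f⁻¹ q) = mk (linR A⁻¹ v) := by
    intro q v hq
    obtain ⟨w, hw⟩ := mk_surj (X.π (X.f⁻¹ q))
    have h3 := h1 (X.f⁻¹ q) w hw.symm
    have h4 : X.f (X.f⁻¹ q) = q := X.f.apply_symm_apply q
    rw [h4, hq, ← linT_mk] at h3
    rw [← hw]
    have h5 := congrArg (linT A⁻¹) h3
    rw [linT_mk, linT_mk, linT_mk, ← linR_mul A⁻¹ A w, inv_mul_cancel, linR_one] at h5
    exact h5.symm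
  induction k using Int.induction_on with
  | zero => intro q v hq; simpa using hq
  | succ i ih =>
    intro q v hq
    rw [zpow_add_one, zpow_add_one, linR_mul]
    exact ih _ _ (h1 q v hq)
  | pred i ih =>
    intro q v hq
    rw [zpow_sub_one, zpow_sub_one, linR_mul]
    exact ih _ _ (h2 q v hq)

lemma confEquiv_pow {g : ℕ} {A : SL2Z} (X : PALift g A) (k : ℤ) (cX cY : ℝ × ℝ → ℂ)
    (hc : ∀ v, cY (linR (A ^ k) v) = cX v) :
    ConfEquiv X.toTorusDouble X.toTorusDouble cX cY := by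
  refine ⟨X.f ^ k, ∅, finite_empty, ?_⟩
  intro p _
  obtain ⟨v0, hv0⟩ := mk_surj (X.π p)
  obtain ⟨e, he, he'⟩ := mk_isLocalHomeomorph v0
  have he'' : ∀ v, e v = mk v := fun v => by rw [he']
  have hmem : X.π p ∈ e.target := by
    rw [← hv0, ← he'']
    exact e.map_source he
  have hU : X.π ⁻¹' e.target ∈ 𝓝 p :=
    X.π_continuous.continuousAt.preimage_mem_nhds (e.open_target.mem_nhds hmem)
  have hac : ContinuousOn (fun q => e.symm (X.π q)) (X.π ⁻¹' e.target) :=
    e.continuousOn_symm.comp X.π_continuous.continuousOn (fun q hq => hq)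
  have hma : ∀ q ∈ X.π ⁻¹' e.target, mk (e.symm (X.π q)) = X.π q := by
    intro q hq
    rw [← he'', e.right_inv hq]
  refine ⟨X.π ⁻¹' e.target, hU, fun q => e.symm (X.π q),
    fun q => linR (A ^ k) (e.symm (X.π q)), id, hac, (linR_continuous _).comp_continuousOn hac,
    hma, ?_, analyticAt_id, ?_⟩
  · intro q hq
    exact (pow_lift X k q _ (hma q hq).symm).symm
  · intro q _
    exact hc _

theorem main_theorem (g : ℕ) (hodd : Odd g) (hg : 19 ≤ g) (N : ℕ) :
    ∃ (A : SL2Z) (lam : ℝ) (α β : ℝ × ℝ →ₗ[ℝ] ℝ), 1 < lam ∧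
      (∀ v, α (linR A v) = lam * α v) ∧ (∀ v, β (linR A v) = lam⁻¹ * β v) ∧
      0 < α (1, 0) * β (0, 1) - α (0, 1) * β (1, 0) ∧
      ∃ X : Fin N → PALift g A, ∀ i j (s t : ℝ),
        ConfEquiv (X i).toTorusDouble (X j).toTorusDouble (coord α β s) (coord α β t) ↔
          i = j ∧ ∃ k : ℤ, s - t = k * Real.log lam := by
  obtain ⟨m, hm⟩ := hodd
  obtain ⟨p, hpN, hpp⟩ := Nat.exists_infinite_primes (4 * m + 2 * N + 10)
  obtain ⟨n, hn⟩ : ∃ n : ℤ, n + 2 = p := ⟨(p : ℤ) - 2, by ring⟩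
  have hn5 : 5 ≤ n := by omega
  have hm1 : 1 ≤ m := by omega
  have hm9 : 9 ≤ m := by omega
  -- the eigenvalues
  have hn5R : (5:ℝ) ≤ n := by exact_mod_cast hn5
  set D : ℝ := (n:ℝ) ^ 2 - 4 with hD
  have hD0 : 0 < D := by rw [hD]; nlinarith
  set sq : ℝ := Real.sqrt D with hsq
  have hsq2 : sq ^ 2 = D := Real.sq_sqrt hD0.le
  have hsq0 : 0 < sq := Real.sqrt_pos.mpr hD0
  set lam : ℝ := (n + sq) / 2 with hlam
  set mu : ℝ := (n - sq) / 2 with hmu
  have hsum : lam + mu = n := by rw [hlam, hmu]; ring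
  have hli : lam * mu = 1 := by
    rw [hlam, hmu]
    linear_combination (-1/4 : ℝ) * hsq2
  have hlam1 : 1 < lam := by rw [hlam]; linarith
  have hmui : mu = lam⁻¹ := by
    exact eq_inv_of_mul_eq_one_right hli
  have hlm : mu < lam := by rw [hlam, hmu]; linarith
  have hpr : Prime ((p : ℕ) : ℤ) := Nat.prime_iff_prime_int.mp hpp
  have hadm : ∀ i : Fin N, Adm (n + 2) m (nu m i) := fun i => by
    rw [hn]
    exact nu_adm (N := N) (by omega) i.2
  have hpos : 0 < (al mu) (1, 0) * (be lam) (0, 1) - (al mu) (0, 1) * (be lam) (1, 0) := by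
    simp
    linarith
  refine ⟨An n, lam, al mu, be lam, hlam1, al_An hsum hli, ?_, hpos, fun i =>
    surf g hm (hadm i) hm1, ?_⟩
  · intro v
    rw [be_An hsum hli, hmui]
  · intro i j s t
    constructor
    · rintro ⟨ψ, E, hE, hψ⟩
      classical
      set cX := coordL (al mu) (be lam) s hpos with hcX
      set cY := coordL (al mu) (be lam) t hpos with hcY
      have hp0 : n + 2 ≠ 0 := by omega
      have hpt0 : ∀ r, 1 ≤ r → r ≤ 2 * m → pt (n + 2) (nu m i r) ≠ 0 := by
        intro r hr1 hr2 h0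
        apply (hadm i).two hm1 hr1 hr2
        rw [h0, add_zero]
      obtain ⟨B, b, x0, hB, hM⟩ := descend (X := (surf g hm (hadm i) hm1).toTorusDouble)
        (Y := (surf g hm (hadm j) hm1).toTorusDouble) (cX := cX) (cY := cY)
        (ar_coordL _ _ _ _) (ar_coordL _ _ _ _) E hE hψ
        ((Finset.Icc 1 (2 * m)).image (fun r => wpT cX (pt (n + 2) (nu m i r))))
        (by
          rw [Finset.card_image_of_injOn, Nat.card_Icc]
          · omega
          · intro r hr r' hr' he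
            rw [Finset.coe_Icc] at hr hr'
            exact (hadm i).key hm1 hr.1 hr.2 hr'.1 hr'.2
              ((wpT_eq cX (hpt0 r hr.1 hr.2) (hpt0 r' hr'.1 hr'.2)).mp he))
        (by
          intro e he
          rw [Finset.mem_image] at he
          obtain ⟨r, hr, rfl⟩ := he
          rw [Finset.mem_Icc] at hr
          obtain ⟨q, hq1, hq2⟩ := (surf_fix g hm (hadm i) hm1 (pt (n + 2) (nu m i r))).mpr
            ⟨r, hr, Or.inl rfl⟩
          exact ⟨q, hq1, by rw [hq2]; exact hpt0 r hr.1 hr.2, by rw [hq2]⟩)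
      have hM' : ∀ v, Mset (n + 2) m (nu m i) (mk v) ↔
          Mset (n + 2) m (nu m j) (mk (linR B v) + x0) := by
        intro v
        rw [← surf_fix g hm (hadm i) hm1, ← surf_fix g hm (hadm j) hm1]
        exact hM v
      have hnu1 : ∀ i : Fin N, nu m i 1 = 1 := by
        intro i
        unfold nu
        rw [if_neg (by omega)]
      have hnu2 : nu m i 2 = 2 := by
        unfold nu
        rw [if_neg (by omega)]
      obtain ⟨μ, u, hPμ, hx0⟩ := comb_pres hm1 (hadm i) (hnu1 i) hnu2 hM'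
      have hB' : ∀ v, coord (al mu) (be lam) t (linR B v) = b * coord (al mu) (be lam) s v :=
        fun v => hB v
      obtain ⟨⟨k, hk⟩, hP⟩ := arith_main hn5 hsum hli hlam1 B b t s hB' μ hPμ
      have hiff := comb_eq (p := n + 2) (by rw [hn]; exact hpr) (by
        intro h2
        have := Int.le_of_dvd (by norm_num) h2
        omega) hm1 (hadm i) (hadm j) (hnu1 j) hM' hx0 hP
      refine ⟨?_, -k, ?_⟩
      · apply Fin.ext
        exact nu_inj (p := n + 2) (N := N) hm1 (by rw [hn]; omega) i.2 j.2 hiff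
      · push_cast
        linarith
    · rintro ⟨rfl, k, hk⟩
      apply confEquiv_pow _ k
      intro v
      rw [coord_An_zpow hsum hli hlam1]
      congr 1
      linarith

end Pool.Agent.TH615.ML
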