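import Mathlib

/-! `Φ(ζ)/ζ` has a continuous square root on `ℂ*` when `Φ` is a homeomorphism of `(ℂ, 0)`. -/

set_option autoImplicit false

open Topology Filter Set

namespace Pool.Agent.TH615.ML

lemma log_lift (h : C(ℂ, ℂ)) (hne : ∀ z, h z ≠ 0) :
    ∃ L : C(ℂ, ℂ), ∀ z, Complex.exp (L z) = h z := by
  let f : C(ℂ, {z : ℂ // z ≠ 0}) := ⟨fun z => ⟨h z, hne z⟩, by fun_prop⟩
  obtain ⟨F, ⟨-, hF⟩, -⟩ := Complex.isCoveringMap_exp.existsUnique_continuousMap_lifts
    f 0 (Complex.log (h 0)) (Subtype.ext (Complex.exp_log (hne 0)))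
  exact ⟨F, fun z => congrArg Subtype.val (congrFun hF z)⟩

lemma int_const {f : ℂ → ℂ} (hf : Continuous f)
    (h : ∀ z, ∃ n : ℤ, f z = n * (2 * Real.pi * Complex.I)) :
    ∃ n : ℤ, ∀ z, f z = n * (2 * Real.pi * Complex.I) := by
  choose n hn using h
  have hpi : (2 * Real.pi * Complex.I : ℂ) ≠ 0 := Complex.two_pi_I_ne_zero
  have hc : Continuous fun z => ((n z : ℤ) : ℝ) := by
    have : (fun z => ((n z : ℤ) : ℝ)) = fun z => (f z / (2 * Real.pi * Complex.I)).re := by
      funext z
      rw [hn, mul_div_assoc, div_self hpi, mul_one, Complex.intCast_re]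
    rw [this]
    exact Complex.continuous_re.comp (hf.div_const _)
  have hcn : Continuous n := Int.isClosedEmbedding_coe_real.isInducing.continuous_iff.mpr hc
  refine ⟨n 0, fun z => ?_⟩
  rw [hn z, PreconnectedSpace.constant (inferInstance : PreconnectedSpace ℂ) hcn (x := z) (y := 0)]

theorem exists_sqrt (Φ : ℂ ≃ₜ ℂ) (h0 : Φ 0 = 0) :
    ∃ χ : ℂ → ℂ, ContinuousOn χ {0}ᶜ ∧ ∀ ζ, ζ ≠ 0 → χ ζ ^ 2 * ζ = Φ ζ := by
  have h0' : Φ.symm 0 = 0 := by rw [← h0, Φ.symm_apply_apply, h0]
  have hne : ∀ z, Φ (Complex.exp z) ≠ 0 := by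
    intro z h
    rw [← h0] at h
    exact Complex.exp_ne_zero z (Φ.injective h)
  have hne' : ∀ z, Φ.symm (Complex.exp z) ≠ 0 := by
    intro z h
    rw [← h0'] at h
    exact Complex.exp_ne_zero z (Φ.symm.injective h)
  obtain ⟨L, hL⟩ := log_lift ⟨fun z => Φ (Complex.exp z), by fun_prop⟩ hne
  obtain ⟨L', hL'⟩ := log_lift ⟨fun z => Φ.symm (Complex.exp z), by fun_prop⟩ hne'
  simp only [ContinuousMap.coe_mk] at hL hL'
  set P : ℂ := 2 * Real.pi * Complex.I with hP
  have hPne : P ≠ 0 := Complex.two_pi_I_ne_zero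
  have hperiod : ∀ z, Complex.exp (z + P) = Complex.exp z := Complex.exp_periodic
  have hmono : ∀ (M : C(ℂ, ℂ)) (Ψ : ℂ → ℂ), (∀ z, Complex.exp (M z) = Ψ (Complex.exp z)) →
      ∃ k : ℤ, ∀ z, M (z + P) = M z + k * P := by
    intro M Ψ hM
    obtain ⟨k, hk⟩ := int_const (f := fun z => M (z + P) - M z) (by fun_prop) (by
      intro z
      have h1 : Complex.exp (M (z + P)) = Complex.exp (M z) := by
        rw [hM, hM, hperiod]
      obtain ⟨n, hn⟩ := Complex.exp_eq_exp_iff_exists_int.mp h1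
      exact ⟨n, by rw [hn]; ring⟩)
    exact ⟨k, fun z => by linear_combination hk z⟩
  obtain ⟨k, hk⟩ := hmono L Φ hL
  obtain ⟨k', hk'⟩ := hmono L' Φ.symm hL'
  have hkn : ∀ (n : ℤ) (z : ℂ), L (z + n * P) = L z + n * k * P := by
    intro n
    induction n using Int.induction_on with
    | zero => intro z; simp
    | succ i ih =>
      intro z
      have e1 : z + ((i:ℤ) + 1 : ℤ) * P = (z + P) + (i:ℤ) * P := by push_cast; ring
      rw [e1, ih, hk]
      push_cast
      ring
    | pred i ih =>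
      intro z
      have e1 : z + (-(i:ℤ)) * P = (z + (-(i:ℤ) - 1 : ℤ) * P) + P := by push_cast; ring
      have e2 := ih z
      rw [show ((-(i:ℤ) : ℤ) : ℂ) = -(i:ℤ) by push_cast; ring, e1, hk] at e2
      push_cast at e2 ⊢
      linear_combination e2
  have hLL : ∃ m : ℤ, ∀ z, L (L' z) - z = m * P := by
    apply int_const (by fun_prop)
    intro z
    have h1 : Complex.exp (L (L' z)) = Complex.exp z := by
      rw [hL, hL', Φ.apply_symm_apply]
    obtain ⟨n, hn⟩ := Complex.exp_eq_exp_iff_exists_int.mp h1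
    exact ⟨n, by rw [hn]; ring⟩
  obtain ⟨m, hm⟩ := hLL
  have hkk : k' * k = 1 := by
    have e1 := hm (0 + P)
    rw [hk', hkn] at e1
    have e2 := hm 0
    have e3 : ((k' * k : ℤ) : ℂ) * P = 1 * P := by
      push_cast
      linear_combination e1 - e2
    have e4 := mul_right_cancel₀ hPne e3
    exact_mod_cast e4
  have hodd : ∃ j : ℤ, k - 1 = 2 * j := by
    have h1 : k = 1 ∨ k = -1 := by
      rcases Int.eq_one_or_neg_one_of_mul_eq_one hkk with h | h
      · left; rw [h] at hkk; linarith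
      · right; rw [h] at hkk; linarith
    rcases h1 with h | h
    · exact ⟨0, by rw [h]; norm_num⟩
    · exact ⟨-1, by rw [h]; norm_num⟩
  obtain ⟨j, hj⟩ := hodd
  have hjC : (k : ℂ) - 1 = 2 * j := by exact_mod_cast hj
  have key : ∀ w w' : ℂ, Complex.exp w = Complex.exp w' →
      Complex.exp ((L w - w) / 2) = Complex.exp ((L w' - w') / 2) := by
    intro w w' hww
    obtain ⟨n, hn⟩ := Complex.exp_eq_exp_iff_exists_int.mp hww
    rw [Complex.exp_eq_exp_iff_exists_int]
    refine ⟨n * j, ?_⟩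
    have e1 : w = w' + n * P := hn
    rw [e1, hkn]
    push_cast
    linear_combination (n * P / 2) * hjC
  refine ⟨fun ζ => Complex.exp ((L (Complex.log ζ) - Complex.log ζ) / 2), ?_, ?_⟩
  · intro ζ0 hζ0
    have hζ0' : ζ0 ≠ 0 := hζ0
    apply ContinuousAt.continuousWithinAt
    by_cases hs : ζ0 ∈ Complex.slitPlane
    · have h1 : ContinuousAt Complex.log ζ0 := continuousAt_clog hs
      have h2 : ContinuousAt (fun ζ => L (Complex.log ζ)) ζ0 :=
        ContinuousAt.comp (f := Complex.log) L.continuous.continuousAt h1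
      exact Complex.continuous_exp.continuousAt.comp ((h2.sub h1).div_const 2)
    · have hs' : -ζ0 ∈ Complex.slitPlane := by
        rcases Complex.mem_slitPlane_or_neg_mem_slitPlane hζ0' with h | h
        · exact absurd h hs
        · exact h
      have h1 : ContinuousAt (fun ζ => Complex.log (-ζ) + Real.pi * Complex.I) ζ0 :=
        (ContinuousAt.comp (f := fun ζ : ℂ => -ζ) (continuousAt_clog hs')
          continuous_neg.continuousAt).add continuousAt_const
      have h2 : ContinuousAt (fun ζ => L (Complex.log (-ζ) + Real.pi * Complex.I)) ζ0 :=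
        ContinuousAt.comp (f := fun ζ : ℂ => Complex.log (-ζ) + Real.pi * Complex.I)
          L.continuous.continuousAt h1
      have h3 : ContinuousAt (fun ζ => Complex.exp ((L (Complex.log (-ζ) + Real.pi * Complex.I)
          - (Complex.log (-ζ) + Real.pi * Complex.I)) / 2)) ζ0 :=
        Complex.continuous_exp.continuousAt.comp ((h2.sub h1).div_const 2)
      apply h3.congr
      filter_upwards [isOpen_compl_singleton.mem_nhds hζ0] with ζ hζ
      apply key
      have hζ' : ζ ≠ 0 := hζ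
      rw [Complex.exp_log hζ', Complex.exp_add, Complex.exp_log (neg_ne_zero.mpr hζ'),
        Complex.exp_pi_mul_I]
      ring
  · intro ζ hζ
    rw [← Complex.exp_nat_mul]
    have : ((2:ℕ) : ℂ) * ((L (Complex.log ζ) - Complex.log ζ) / 2) =
      L (Complex.log ζ) - Complex.log ζ := by push_cast; ring
    rw [this, Complex.exp_sub, hL, Complex.exp_log hζ]
    field_simp

end Pool.Agent.TH615.ML
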