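import Pool.Agent.TH615.ML.Unique
import Pool.Agent.TH615.ML.Sq

/-! The basic function on the torus with zeros at `±a`, `±b`. -/

set_option autoImplicit false

open Topology Filter Set

namespace Pool.Agent.TH615.ML

section

variable (c : (ℝ × ℝ) ≃L[ℝ] ℂ)

lemma wpT_eq {x y : Torus} (hx : x ≠ 0) (hy : y ≠ 0) :
    wpT c x = wpT c y ↔ x = y ∨ x = -y := by
  obtain ⟨z, rfl⟩ := PP_surj c x
  obtain ⟨w, rfl⟩ := PP_surj c y
  rw [wpT_PP, wpT_PP]
  exact wp_eq_iff c (fun h => hx ((PP_eq_zero c z).mpr h)) (fun h => hy ((PP_eq_zero c w).mpr h))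

lemma wpT_neg (x : Torus) : wpT c (-x) = wpT c x := by
  obtain ⟨z, rfl⟩ := PP_surj c x
  rw [← PP_neg, wpT_PP, wpT_PP, PeriodPair.weierstrassP_neg]

open Classical in
/-- `(℘ - ℘(a)) / (℘ - ℘(b))` -/
noncomputable def mu (a b x : Torus) : ℂ :=
  if x = 0 then 1 else (wpT c x - wpT c a) / (wpT c x - wpT c b)

lemma mu_zero (a b : Torus) : mu c a b 0 = 1 := by simp [mu]

lemma mu_of_ne {a b x : Torus} (hx : x ≠ 0) :
    mu c a b x = (wpT c x - wpT c a) / (wpT c x - wpT c b) := by simp [mu, hx]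

lemma mu_swap (a b x : Torus) : mu c b a x = (mu c a b x)⁻¹ := by
  by_cases hx : x = 0
  · rw [hx, mu_zero, mu_zero, inv_one]
  · rw [mu_of_ne c hx, mu_of_ne c hx, inv_div]

lemma mu_neg (a b x : Torus) : mu c a b (-x) = mu c a b x := by
  by_cases hx : x = 0
  · rw [hx, neg_zero]
  · rw [mu_of_ne c hx, mu_of_ne c (neg_ne_zero.mpr hx), wpT_neg]

/-- hypotheses on the pair -/
structure PairOK (a b : Torus) : Prop where
  ha : a + a ≠ 0
  hb : b + b ≠ 0
  hab : a ≠ b
  hab' : a ≠ -b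

lemma PairOK.symm {a b : Torus} (h : PairOK a b) : PairOK b a :=
  ⟨h.hb, h.ha, h.hab.symm, fun h' => h.hab' (by rw [h', neg_neg])⟩

lemma PairOK.a0 {a b : Torus} (h : PairOK a b) : a ≠ 0 := fun h' => h.ha (by rw [h', add_zero])
lemma PairOK.b0 {a b : Torus} (h : PairOK a b) : b ≠ 0 := h.symm.a0

lemma PairOK.wne {a b : Torus} (h : PairOK a b) : wpT c a ≠ wpT c b := by
  intro h'
  rcases (wpT_eq c h.a0 h.b0).mp h' with h1 | h1
  · exact h.hab h1
  · exact h.hab' h1

variable {a b : Torus}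

lemma den_ne (h : PairOK a b) {x : Torus} (hx : x ≠ 0) (h1 : x ≠ b) (h2 : x ≠ -b) :
    wpT c x - wpT c b ≠ 0 := by
  rw [sub_ne_zero]
  intro h3
  rcases (wpT_eq c hx h.b0).mp h3 with h4 | h4
  · exact h1 h4
  · exact h2 h4

lemma mu_eq_iff (h : PairOK a b) {x y : Torus} (hx1 : x ≠ b) (hx2 : x ≠ -b) (hy1 : y ≠ b)
    (hy2 : y ≠ -b) : mu c a b x = mu c a b y ↔ x = y ∨ x = -y := by
  have hw := h.wne c
  have key : ∀ y : Torus, y ≠ 0 → y ≠ b → y ≠ -b → mu c a b y ≠ 1 := by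
    intro y hy hy1 hy2 h1
    rw [mu_of_ne c hy, div_eq_one_iff_eq (den_ne c h hy hy1 hy2)] at h1
    apply hw
    linear_combination -h1
  constructor
  · intro h1
    by_cases hx : x = 0
    · by_cases hy : y = 0
      · left; rw [hx, hy]
      · exfalso
        rw [hx, mu_zero] at h1
        exact key y hy hy1 hy2 h1.symm
    · by_cases hy : y = 0
      · exfalso
        rw [hy, mu_zero] at h1
        exact key x hx hx1 hx2 h1
      · rw [mu_of_ne c hx, mu_of_ne c hy, div_eq_div_iff (den_ne c h hx hx1 hx2)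
          (den_ne c h hy hy1 hy2)] at h1
        have h2 : (wpT c a - wpT c b) * (wpT c x - wpT c y) = 0 := by linear_combination h1
        rcases mul_eq_zero.mp h2 with h3 | h3
        · exact absurd (sub_eq_zero.mp h3) hw
        · exact (wpT_eq c hx hy).mp (sub_eq_zero.mp h3)
  · rintro (h1 | h1)
    · rw [h1]
    · rw [h1, mu_neg]

lemma mu_eq_zero_iff (h : PairOK a b) {x : Torus} :
    mu c a b x = 0 ↔ (x = a ∨ x = -a) ∨ (x = b ∨ x = -b) := by
  by_cases hx : x = 0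
  · rw [hx, mu_zero]
    constructor
    · intro h1; exact absurd h1 one_ne_zero
    · rintro ((h1 | h1) | (h1 | h1))
      · exact absurd h1.symm h.a0
      · exact absurd (neg_eq_zero.mp h1.symm) h.a0
      · exact absurd h1.symm h.b0
      · exact absurd (neg_eq_zero.mp h1.symm) h.b0
  · rw [mu_of_ne c hx, div_eq_zero_iff, sub_eq_zero, sub_eq_zero, wpT_eq c hx h.a0,
      wpT_eq c hx h.b0]

lemma mu_surj (h : PairOK a b) (ζ : ℂ) : ∃ x, x ≠ b ∧ x ≠ -b ∧ mu c a b x = ζ := by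
  have hw := h.wne c
  by_cases hζ : ζ = 1
  · exact ⟨0, h.b0.symm, fun h' => h.b0 (neg_eq_zero.mp h'.symm), by rw [hζ, mu_zero]⟩
  · obtain ⟨z, hz, hzx⟩ := Wg.wp_surj (lat c) ((wpT c a - ζ * wpT c b) / (1 - ζ))
    have h1 : (1 - ζ) ≠ 0 := sub_ne_zero.mpr (Ne.symm hζ)
    have hx : PP c z ≠ 0 := fun h' => hz ((PP_eq_zero c z).mp h')
    have hwx : wpT c (PP c z) = (wpT c a - ζ * wpT c b) / (1 - ζ) := by rw [wpT_PP, hzx]
    have hne : wpT c (PP c z) ≠ wpT c b := by
      rw [hwx]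
      intro h2
      rw [div_eq_iff h1] at h2
      apply hw
      linear_combination h2
    refine ⟨PP c z, ?_, ?_, ?_⟩
    · intro h2; rw [h2] at hne; exact hne rfl
    · intro h2; rw [h2, wpT_neg] at hne; exact hne rfl
    · rw [mu_of_ne c hx, div_eq_iff (sub_ne_zero.mpr hne), hwx]
      field_simp
      ring

lemma map_PP (z : ℂ) : Filter.map (PP c) (𝓝 z) = 𝓝 (PP c z) :=
  le_antisymm (PP_continuous c).continuousAt ((PP_isOpenMap c).nhds_le z)

lemma mu_continuousAt (h : PairOK a b) {x : Torus} (hx1 : x ≠ b) (hx2 : x ≠ -b) :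
    ContinuousAt (mu c a b) x := by
  by_cases hx : x = 0
  · subst hx
    have hPP : PP c 0 = 0 := PP_zero c
    unfold ContinuousAt
    rw [← hPP, ← map_PP, tendsto_map'_iff, hPP, mu_zero]
    have h1 : Tendsto (lat c).weierstrassP (𝓝[≠] 0) (Bornology.cobounded ℂ) :=
      Wg.wp_inj_tendsto (lat c)
    have h2 : Tendsto (fun w => (lat c).weierstrassP w - wpT c b) (𝓝[≠] 0)
        (Bornology.cobounded ℂ) := by
      rw [← tendsto_norm_atTop_iff_cobounded] at h1 ⊢
      have h3 : Tendsto (fun w => ‖(lat c).weierstrassP w‖ - ‖wpT c b‖) (𝓝[≠] 0) atTop :=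
        tendsto_atTop_add_const_right _ (-‖wpT c b‖) h1
      exact tendsto_atTop_mono (fun w => norm_sub_norm_le _ _) h3
    have h3 : Tendsto (fun w => ((lat c).weierstrassP w - wpT c b)⁻¹) (𝓝[≠] 0) (𝓝 0) :=
      tendsto_inv₀_cobounded.comp h2
    have h4 : Tendsto (fun w => 1 + (wpT c b - wpT c a) * ((lat c).weierstrassP w - wpT c b)⁻¹)
        (𝓝[≠] 0) (𝓝 (1 + (wpT c b - wpT c a) * 0)) := (h3.const_mul _).const_add 1
    rw [mul_zero, add_zero] at h4
    have h5 : Tendsto (mu c a b ∘ PP c) (𝓝[≠] 0) (𝓝 1) := by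
      refine h4.congr' ?_
      have h6 : ∀ᶠ w in 𝓝[≠] (0:ℂ), (lat c).weierstrassP w - wpT c b ≠ 0 := by
        have := h2.eventually (Bornology.eventually_ne_cobounded (0:ℂ))
        exact this
      filter_upwards [Wg.wp_inj_near (lat c), h6] with w hw hw2
      have h7 : PP c w ≠ 0 := fun h' => hw ((PP_eq_zero c w).mp h')
      simp only [Function.comp_apply]
      rw [mu_of_ne c h7, wpT_PP]
      field_simp
      ring
    have h6 : (mu c a b ∘ PP c) 0 = 1 := by simp only [Function.comp_apply, hPP, mu_zero]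
    have h7 : ContinuousAt (mu c a b ∘ PP c) 0 := by
      rw [continuousAt_iff_punctured_nhds, h6]
      exact h5
    have h8 := h7.tendsto
    rwa [h6] at h8
  · have h1 : ContinuousAt (fun x => (wpT c x - wpT c a) / (wpT c x - wpT c b)) x :=
      ((wpT_continuousAt c hx).sub continuousAt_const).div
        ((wpT_continuousAt c hx).sub continuousAt_const) (den_ne c h hx hx1 hx2)
    apply h1.congr
    filter_upwards [isOpen_compl_singleton.mem_nhds hx] with y hy
    exact (mu_of_ne c hy).symm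

lemma isOpen_ok (b : Torus) : IsOpen {x : Torus | x ≠ b ∧ x ≠ -b} :=
  isOpen_compl_singleton.inter isOpen_compl_singleton

lemma mu_analytic (h : PairOK a b) {z : ℂ} (hz1 : PP c z ≠ b) (hz2 : PP c z ≠ -b) :
    AnalyticAt ℂ (fun z => mu c a b (PP c z)) z := by
  have hoff : ∀ z : ℂ, PP c z ≠ 0 → PP c z ≠ b → PP c z ≠ -b →
      DifferentiableAt ℂ (fun z => mu c a b (PP c z)) z := by
    intro z h0 h1 h2
    have hzl : z ∉ (lat c).lattice := fun h' => h0 ((PP_eq_zero c z).mpr h')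
    have hd := ((lat c).analyticOnNhd_weierstrassP z hzl).differentiableAt
    have h3 : DifferentiableAt ℂ (fun z => ((lat c).weierstrassP z - wpT c a) /
        ((lat c).weierstrassP z - wpT c b)) z := by
      refine (hd.sub_const _).div (hd.sub_const _) ?_
      rw [← wpT_PP]
      exact den_ne c h h0 h1 h2
    apply h3.congr_of_eventuallyEq
    filter_upwards [(isOpen_lat_compl c).mem_nhds hzl] with w hw
    have : PP c w ≠ 0 := fun h' => hw ((PP_eq_zero c w).mp h')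
    rw [mu_of_ne c this, wpT_PP]
  have hcont : ContinuousAt (fun z => mu c a b (PP c z)) z :=
    ContinuousAt.comp (f := PP c) (mu_continuousAt c h hz1 hz2) (PP_continuous c).continuousAt
  apply Complex.analyticAt_of_differentiable_on_punctured_nhds_of_continuousAt _ hcont
  have h1 : ∀ᶠ w in 𝓝 z, PP c w ≠ b ∧ PP c w ≠ -b :=
    (PP_continuous c).continuousAt.eventually ((isOpen_ok b).mem_nhds ⟨hz1, hz2⟩)
  have h2 : ∀ᶠ w in 𝓝[≠] z, w ∉ (lat c).lattice := by
    have h3 := (lat c).compl_lattice_sdiff_singleton_mem_nhds z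
    rw [eventually_nhdsWithin_iff]
    filter_upwards [h3] with w hw hw0 hmem
    exact hw ⟨hmem, hw0⟩
  filter_upwards [nhdsWithin_le_nhds h1, h2] with w hw1 hw2
  exact hoff w (fun h' => hw2 ((PP_eq_zero c w).mp h')) hw1.1 hw1.2

lemma mu_open (h : PairOK a b) {U : Set Torus} (hU : IsOpen U)
    (hUb : U ⊆ {x | x ≠ b ∧ x ≠ -b}) : IsOpen (mu c a b '' U) := by
  set O : Set ℂ := {z | PP c z ≠ b ∧ PP c z ≠ -b} with hO
  obtain ⟨zb, hzb⟩ := PP_surj c b
  have hOc : Oᶜ.Countable := by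
    have hL := Wg.wp_inj_count (lat c)
    refine Countable.mono ?_ ((hL.image (fun l => zb + l)).union (hL.image (fun l => - zb + l)))
    intro z hz
    have hz' : ¬ (PP c z ≠ b ∧ PP c z ≠ -b) := hz
    rw [not_and_or, not_not, not_not] at hz'
    rcases hz' with h1 | h1
    · left
      rw [← hzb, PP_eq] at h1
      exact ⟨_, h1, by ring⟩
    · right
      rw [← hzb, PP_eq_neg] at h1
      exact ⟨_, h1, by ring⟩
  have hOp : IsPreconnected O := by
    have := (hOc.isConnected_compl_of_one_lt_rank (by simp)).isPreconnected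
    rwa [compl_compl] at this
  have han : AnalyticOnNhd ℂ (fun z => mu c a b (PP c z)) O := fun z hz =>
    mu_analytic c h hz.1 hz.2
  rcases han.is_constant_or_isOpen hOp with ⟨w, hw⟩ | hop
  · exfalso
    obtain ⟨x, hx1, hx2, hx3⟩ := mu_surj c h w
    obtain ⟨y, hy1, hy2, hy3⟩ := mu_surj c h (w + 1)
    obtain ⟨z, rfl⟩ := PP_surj c y
    have := hw z ⟨hy1, hy2⟩
    rw [hy3] at this
    simp at this
  · have := hop (PP c ⁻¹' U) (fun z hz => hUb hz) (hU.preimage (PP_continuous c))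
    convert this using 1
    ext ζ
    constructor
    · rintro ⟨x, hx, rfl⟩
      obtain ⟨z, rfl⟩ := PP_surj c x
      exact ⟨z, hx, rfl⟩
    · rintro ⟨z, hz, rfl⟩
      exact ⟨PP c z, hz, rfl⟩

/-- chart of the torus given by an analytic function with nonzero derivative -/
lemma chart_of {f : Torus → ℂ} {z0 : ℂ} (hf : AnalyticAt ℂ (fun z => f (PP c z)) z0)
    (hd : deriv (fun z => f (PP c z)) z0 ≠ 0) :
    ∃ e : OpenPartialHomeomorph Torus ℂ, PP c z0 ∈ e.source ∧ ∀ x ∈ e.source, e x = f x := by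
  have hs := hf.hasStrictDerivAt
  set e1 := (hs.hasStrictFDerivAt_equiv hd).toOpenPartialHomeomorph (fun z => f (PP c z)) with he1
  have h1 : z0 ∈ e1.source := (hs.hasStrictFDerivAt_equiv hd).mem_toOpenPartialHomeomorph_source
  have h1' : ∀ z, e1 z = f (PP c z) := fun z => rfl
  obtain ⟨e2, h2, h2'⟩ := PP_isLocalHomeomorph c z0
  have h2'' : ∀ z, e2 z = PP c z := fun z => by rw [h2']
  refine ⟨e2.symm.trans e1, ?_, ?_⟩
  · rw [OpenPartialHomeomorph.trans_source]
    refine ⟨?_, ?_⟩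
    · rw [OpenPartialHomeomorph.symm_source, ← h2'']
      exact e2.map_source h2
    · show e2.symm (PP c z0) ∈ e1.source
      rw [← h2'', e2.left_inv h2]
      exact h1
  · intro x hx
    rw [OpenPartialHomeomorph.trans_source] at hx
    have hx2 : x ∈ e2.target := hx.1
    show e1 (e2.symm x) = f x
    rw [h1', ← h2'', e2.right_inv hx2]

lemma mu_chart (h : PairOK a b) {x0 : Torus} (h0 : x0 + x0 ≠ 0) (hx1 : x0 ≠ b) (hx2 : x0 ≠ -b) :
    ∃ e : OpenPartialHomeomorph Torus ℂ, x0 ∈ e.source ∧ ∀ x ∈ e.source, e x = mu c a b x := by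
  obtain ⟨z0, rfl⟩ := PP_surj c x0
  have han := mu_analytic c h hx1 hx2
  apply chart_of c han
  obtain ⟨δ, hδ, hgap⟩ := lat_gap c
  have h3 : ∀ᶠ p : ℂ × ℂ in 𝓝 (z0, z0), PP c p.1 + PP c p.2 ≠ 0 := by
    have : Continuous fun p : ℂ × ℂ => PP c p.1 + PP c p.2 :=
      ((PP_continuous c).comp continuous_fst).add ((PP_continuous c).comp continuous_snd)
    exact this.continuousAt.eventually_ne h0
  rw [nhds_prod_eq] at h3
  obtain ⟨V, hV, hVp⟩ :=
    (eventually_prod_self_iff (r := fun x y => PP c x + PP c y ≠ 0)).mp h3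
  have h4 : {w | PP c w ≠ b ∧ PP c w ≠ -b} ∈ 𝓝 z0 :=
    (PP_continuous c).continuousAt.preimage_mem_nhds ((isOpen_ok b).mem_nhds ⟨hx1, hx2⟩)
  refine deriv_ne_zero_of_inj han (U := V ∩ {w | PP c w ≠ b ∧ PP c w ≠ -b} ∩
    Metric.ball z0 (δ / 2)) (inter_mem (inter_mem hV h4) (Metric.ball_mem_nhds _ (by positivity)))
    ?_
  rintro z ⟨⟨hzV, hzb⟩, hzB⟩ w ⟨⟨hwV, hwb⟩, hwB⟩ hzw
  rcases (mu_eq_iff c h hzb.1 hzb.2 hwb.1 hwb.2).mp hzw with h5 | h5
  · rw [PP_eq] at h5
    have e1 : ‖z - z0‖ < δ / 2 := by simpa [dist_eq_norm] using hzB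
    have e2 : ‖w - z0‖ < δ / 2 := by simpa [dist_eq_norm] using hwB
    have := hgap _ h5 (by
      calc ‖z - w‖ = ‖(z - z0) - (w - z0)‖ := by ring_nf
        _ ≤ ‖z - z0‖ + ‖w - z0‖ := norm_sub_le _ _
        _ < δ := by linarith)
    exact sub_eq_zero.mp this
  · exfalso
    exact hVp z hzV w hwV (by rw [h5, neg_add_cancel])

end

/-- the normalisation -/
noncomputable def Nn (ζ : ℂ) : ℂ := ζ / ((1 + ‖ζ‖ ^ 2 : ℝ) : ℂ)

lemma Nn_pos (ζ : ℂ) : (0:ℝ) < 1 + ‖ζ‖ ^ 2 := by positivity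

lemma Nn_inv (ζ : ℂ) : Nn ζ⁻¹ = (starRingEnd ℂ) (Nn ζ) := by
  by_cases hζ : ζ = 0
  · rw [hζ]; simp [Nn]
  · have h1 : ((1 + ‖ζ⁻¹‖ ^ 2 : ℝ) : ℂ) ≠ 0 := by
      exact_mod_cast (Nn_pos ζ⁻¹).ne'
    have h2 : ((1 + ‖ζ‖ ^ 2 : ℝ) : ℂ) ≠ 0 := by
      exact_mod_cast (Nn_pos ζ).ne'
    have h3 : ((‖ζ‖ : ℝ) : ℂ) ^ 2 = ζ * (starRingEnd ℂ) ζ := by
      rw [Complex.mul_conj, Complex.normSq_eq_norm_sq]
      push_cast
      rfl
    have h4 : ((‖ζ‖ : ℝ) : ℂ) ≠ 0 := by
      exact_mod_cast norm_ne_zero_iff.mpr hζ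
    unfold Nn
    rw [map_div₀, Complex.conj_ofReal, div_eq_div_iff h1 h2, norm_inv]
    push_cast
    field_simp
    linear_combination (1 + ((‖ζ‖ : ℝ) : ℂ) ^ 2) * h3

lemma Nn_eq_zero (ζ : ℂ) : Nn ζ = 0 ↔ ζ = 0 := by
  have h2 : ((1 + ‖ζ‖ ^ 2 : ℝ) : ℂ) ≠ 0 := by
    exact_mod_cast (Nn_pos ζ).ne'
  unfold Nn
  rw [div_eq_zero_iff]
  tauto

lemma Nn_cont : Continuous Nn := by
  unfold Nn
  refine continuous_id.div (by fun_prop) ?_
  intro ζ
  exact_mod_cast (Nn_pos ζ).ne'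

section

variable (c : (ℝ × ℝ) ≃L[ℝ] ℂ)

/-- the basic function -/
noncomputable def Hp (a b x : Torus) : ℂ := Nn (mu c a b x)

lemma Hp_swap (a b x : Torus) : Hp c a b x = (starRingEnd ℂ) (Hp c b a x) := by
  unfold Hp
  rw [← Nn_inv, ← mu_swap]

variable {a b : Torus}

lemma Hp_eq_zero (h : PairOK a b) {x : Torus} :
    Hp c a b x = 0 ↔ (x = a ∨ x = -a) ∨ (x = b ∨ x = -b) := by
  unfold Hp
  rw [Nn_eq_zero, mu_eq_zero_iff c h]

lemma Hp_cont (h : PairOK a b) : Continuous (Hp c a b) := by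
  rw [continuous_iff_continuousAt]
  intro x
  by_cases hx : x ≠ b ∧ x ≠ -b
  · exact ContinuousAt.comp (f := mu c a b) Nn_cont.continuousAt (mu_continuousAt c h hx.1 hx.2)
  · have hxa : x ≠ a ∧ x ≠ -a := by
      rw [not_and_or, not_not, not_not] at hx
      constructor
      · intro hxa
        rcases hx with hx | hx
        · exact h.hab (hxa.symm.trans hx)
        · exact h.hab' (hxa.symm.trans hx)
      · intro hxa
        rcases hx with hx | hx
        · apply h.hab'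
          rw [← hx, hxa, neg_neg]
        · apply h.hab
          rw [hxa] at hx
          exact neg_injective hx
    have h1 : Hp c a b = fun x => (starRingEnd ℂ) (Hp c b a x) := funext (Hp_swap c a b)
    rw [h1]
    exact Complex.continuous_conj.continuousAt.comp
      (ContinuousAt.comp (f := mu c b a) Nn_cont.continuousAt
        (mu_continuousAt c h.symm hxa.1 hxa.2))

/-- local form at the zeros -/
lemma Hp_local_a (h : PairOK a b) {x0 : Torus} (hx : x0 = a ∨ x0 = -a) :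
    ∃ e : OpenPartialHomeomorph Torus ℂ, x0 ∈ e.source ∧ ∃ k : Torus → ℂ,
      ContinuousOn k e.source ∧ ∀ x ∈ e.source, k x ≠ 0 ∧ Hp c a b x = e x * k x ^ 2 := by
  have h0 : x0 + x0 ≠ 0 := by
    rcases hx with hx | hx
    · rw [hx]; exact h.ha
    · rw [hx]
      intro h1
      apply h.ha
      rw [← neg_eq_zero, neg_add]
      exact h1
  have h1 : x0 ≠ b ∧ x0 ≠ -b := by
    rcases hx with hx | hx
    · rw [hx]; exact ⟨h.hab, h.hab'⟩
    · rw [hx]
      refine ⟨fun h2 => h.hab' (by rw [← h2, neg_neg]), fun h2 => h.hab (neg_injective h2)⟩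
  obtain ⟨e, he, hex⟩ := mu_chart c h h0 h1.1 h1.2
  refine ⟨e.restrOpen _ (isOpen_ok b), ?_, fun x => (((Real.sqrt (1 + ‖mu c a b x‖ ^ 2))⁻¹ : ℝ) : ℂ),
    ?_, ?_⟩
  · rw [OpenPartialHomeomorph.restrOpen_source]
    exact ⟨he, h1⟩
  · intro x hx
    rw [OpenPartialHomeomorph.restrOpen_source] at hx
    apply ContinuousAt.continuousWithinAt
    have h2 := mu_continuousAt c h hx.2.1 hx.2.2
    have h3 : ContinuousAt (fun x => (Real.sqrt (1 + ‖mu c a b x‖ ^ 2))⁻¹) x := by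
      refine ContinuousAt.inv₀ (ContinuousAt.sqrt ((h2.norm.pow 2).const_add 1)) ?_
      exact (Real.sqrt_pos.mpr (Nn_pos _)).ne'
    exact Complex.continuous_ofReal.continuousAt.comp h3
  · intro x hx
    rw [OpenPartialHomeomorph.restrOpen_source] at hx
    have hs : (0:ℝ) < Real.sqrt (1 + ‖mu c a b x‖ ^ 2) := Real.sqrt_pos.mpr (Nn_pos _)
    have hs' : (((Real.sqrt (1 + ‖mu c a b x‖ ^ 2))⁻¹ : ℝ) : ℂ) ≠ 0 := by
      exact_mod_cast (inv_pos.mpr hs).ne'
    refine ⟨hs', ?_⟩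
    have h2 : (e.restrOpen _ (isOpen_ok b)) x = mu c a b x := hex x hx.1
    rw [h2]
    unfold Hp Nn
    rw [← Complex.ofReal_pow, inv_pow, Real.sq_sqrt (Nn_pos _).le, Complex.ofReal_inv,
      div_eq_mul_inv]

lemma Hp_local (h : PairOK a b) {x0 : Torus} (hx : Hp c a b x0 = 0) :
    ∃ e : OpenPartialHomeomorph Torus ℂ, x0 ∈ e.source ∧ ∃ k : Torus → ℂ,
      ContinuousOn k e.source ∧ ∀ x ∈ e.source, k x ≠ 0 ∧ Hp c a b x = e x * k x ^ 2 := by
  rcases (Hp_eq_zero c h).mp hx with h1 | h1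
  · exact Hp_local_a c h h1
  · obtain ⟨e, he, k, hk, hH⟩ := Hp_local_a c h.symm h1
    let cj : ℂ ≃ₜ ℂ := Complex.conjCLE.toHomeomorph
    have hcj : ∀ z, cj z = (starRingEnd ℂ) z := fun z => rfl
    refine ⟨e.trans cj.toOpenPartialHomeomorph, ?_, fun x => (starRingEnd ℂ) (k x), ?_, ?_⟩
    · simpa using he
    · have hsrc : (e.trans cj.toOpenPartialHomeomorph).source = e.source := by simp
      rw [hsrc]
      exact Complex.continuous_conj.comp_continuousOn hk
    · intro x hx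
      have hsrc : (e.trans cj.toOpenPartialHomeomorph).source = e.source := by simp
      rw [hsrc] at hx
      obtain ⟨h2, h3⟩ := hH x hx
      refine ⟨by simpa using h2, ?_⟩
      have h4 : (e.trans cj.toOpenPartialHomeomorph) x = (starRingEnd ℂ) (e x) := rfl
      rw [Hp_swap, h3, h4, map_mul, map_pow]

/-- descent of a homeomorphism -/
theorem Hp_lift (h : PairOK a b) (A : Torus ≃ₜ Torus) (hneg : ∀ x, A (-x) = - A x)
    (hAa : A a = a ∨ A a = -a) (hAb : A b = b ∨ A b = -b) :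
    ∃ χ : Torus → ℂ, ContinuousOn χ {x | Hp c a b x ≠ 0} ∧
      ∀ x, χ x ^ 2 * Hp c a b x = Hp c a b (A x) := by
  -- `A` and its inverse preserve the complement of `±b`
  have key : ∀ (A : Torus ≃ₜ Torus), (∀ x, A (-x) = - A x) → (A b = b ∨ A b = -b) →
      ∀ x, (x ≠ b ∧ x ≠ -b) → (A x ≠ b ∧ A x ≠ -b) := by
    intro A hneg hAb x hx
    rcases hAb with hb | hb
    · constructor
      · intro h1; exact hx.1 (A.injective (h1.trans hb.symm))
      · intro h1; exact hx.2 (A.injective (by rw [h1, hneg, hb]))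
    · constructor
      · intro h1; exact hx.2 (A.injective (by rw [h1, hneg, hb, neg_neg]))
      · intro h1; exact hx.1 (A.injective (h1.trans hb.symm))
  have hneg' : ∀ x, A.symm (-x) = - A.symm x := by
    intro x
    apply A.injective
    rw [A.apply_symm_apply, hneg, A.apply_symm_apply]
  have hinvb : ∀ b, (A b = b ∨ A b = -b) → (A.symm b = b ∨ A.symm b = -b) := by
    intro b hAb
    rcases hAb with hb | hb
    · left; rw [A.symm_apply_eq, hb]
    · right; rw [A.symm_apply_eq, hneg, hb, neg_neg]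
  -- sections
  choose sec hs1 hs2 hs3 using mu_surj c h
  have hstep : ∀ (A : Torus ≃ₜ Torus), (∀ x, A (-x) = - A x) → (A b = b ∨ A b = -b) →
      (∀ x, (x ≠ b ∧ x ≠ -b) → mu c a b (A (sec (mu c a b x))) = mu c a b (A x)) ∧
      Continuous fun ζ => mu c a b (A (sec ζ)) := by
    intro A hneg hAb
    have h1 : ∀ x, (x ≠ b ∧ x ≠ -b) →
        mu c a b (A (sec (mu c a b x))) = mu c a b (A x) := by
      intro x hx
      have h2 := (mu_eq_iff c h (hs1 _) (hs2 _) hx.1 hx.2).mp (hs3 (mu c a b x))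
      rcases h2 with h2 | h2
      · rw [h2]
      · rw [h2, hneg, mu_neg]
    refine ⟨h1, ?_⟩
    rw [continuous_def]
    intro V hV
    have h3 : (fun ζ => mu c a b (A (sec ζ))) ⁻¹' V =
        mu c a b '' ({x | x ≠ b ∧ x ≠ -b} ∩ {x | mu c a b (A x) ∈ V}) := by
      ext ζ
      constructor
      · intro hζ
        exact ⟨sec ζ, ⟨⟨hs1 ζ, hs2 ζ⟩, hζ⟩, hs3 ζ⟩
      · rintro ⟨x, ⟨hx1, hx2⟩, rfl⟩
        show mu c a b (A (sec (mu c a b x))) ∈ V
        rw [h1 x hx1]
        exact hx2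
    rw [h3]
    apply mu_open c h _ inter_subset_left
    have h4 : ContinuousOn (fun x => mu c a b (A x)) {x | x ≠ b ∧ x ≠ -b} := by
      intro x hx
      have h5 := key A hneg hAb x hx
      exact (ContinuousAt.comp (f := A) (mu_continuousAt c h h5.1 h5.2)
        A.continuous.continuousAt).continuousWithinAt
    exact h4.isOpen_inter_preimage (isOpen_ok b) hV
  obtain ⟨g1, g2⟩ := hstep A hneg hAb
  obtain ⟨g1', g2'⟩ := hstep A.symm hneg' (hinvb b hAb)
  let Φ : ℂ ≃ₜ ℂ :=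
    { toFun := fun ζ => mu c a b (A (sec ζ))
      invFun := fun ζ => mu c a b (A.symm (sec ζ))
      left_inv := by
        intro ζ
        show mu c a b (A.symm (sec (mu c a b (A (sec ζ))))) = ζ
        rw [g1' _ (key A hneg hAb _ ⟨hs1 ζ, hs2 ζ⟩), A.symm_apply_apply, hs3]
      right_inv := by
        intro ζ
        show mu c a b (A (sec (mu c a b (A.symm (sec ζ))))) = ζ
        rw [g1 _ (key A.symm hneg' (hinvb b hAb) _ ⟨hs1 ζ, hs2 ζ⟩), A.apply_symm_apply, hs3]
      continuous_toFun := g2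
      continuous_invFun := g2' }
  have hΦ : ∀ x, (x ≠ b ∧ x ≠ -b) → Φ (mu c a b x) = mu c a b (A x) := g1
  have hmua : mu c a b a = 0 := (mu_eq_zero_iff c h).mpr (Or.inl (Or.inl rfl))
  have hΦ0 : Φ 0 = 0 := by
    have h1 := hΦ a ⟨h.hab, h.hab'⟩
    rw [hmua] at h1
    rw [h1, mu_eq_zero_iff c h]
    left
    exact hAa
  obtain ⟨χ0, hχ0, hχ0'⟩ := exists_sqrt Φ hΦ0
  refine ⟨fun x => χ0 (mu c a b x) *
    ((Real.sqrt ((1 + ‖mu c a b x‖ ^ 2) / (1 + ‖mu c a b (A x)‖ ^ 2)) : ℝ) : ℂ), ?_, ?_⟩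
  · intro x hx
    have hx' : ¬ Hp c a b x = 0 := hx
    rw [Hp_eq_zero c h] at hx'
    push Not at hx'
    have hxb : x ≠ b ∧ x ≠ -b := hx'.2
    have hAxb := key A hneg hAb x hxb
    have hmu0 : mu c a b x ≠ 0 := by
      intro h1
      rcases (mu_eq_zero_iff c h).mp h1 with h2 | h2
      · rcases h2 with h2 | h2
        · exact hx'.1.1 h2
        · exact hx'.1.2 h2
      · rcases h2 with h2 | h2
        · exact hxb.1 h2
        · exact hxb.2 h2
    apply ContinuousAt.continuousWithinAt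
    have c1 := mu_continuousAt c h hxb.1 hxb.2
    have c2 : ContinuousAt (fun x => mu c a b (A x)) x :=
      ContinuousAt.comp (f := A) (mu_continuousAt c h hAxb.1 hAxb.2) A.continuous.continuousAt
    have c3 : ContinuousAt (fun x => χ0 (mu c a b x)) x :=
      ContinuousAt.comp (f := mu c a b)
        (hχ0.continuousAt (isOpen_compl_singleton.mem_nhds hmu0)) c1
    have c4 : ContinuousAt (fun x => Real.sqrt ((1 + ‖mu c a b x‖ ^ 2) /
        (1 + ‖mu c a b (A x)‖ ^ 2))) x := by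
      refine ContinuousAt.sqrt (((c1.norm.pow 2).const_add 1).div
        ((c2.norm.pow 2).const_add 1) ?_)
      exact (Nn_pos _).ne'
    exact c3.mul (Complex.continuous_ofReal.continuousAt.comp c4)
  · intro x
    by_cases hx0 : Hp c a b x = 0
    · rw [hx0, mul_zero]
      symm
      rw [Hp_eq_zero c h] at hx0 ⊢
      rcases hx0 with (h1 | h1) | (h1 | h1)
      · rw [h1]; left; exact hAa
      · rw [h1, hneg]
        left
        rcases hAa with h2 | h2
        · right; rw [h2]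
        · left; rw [h2, neg_neg]
      · rw [h1]; right; exact hAb
      · rw [h1, hneg]
        right
        rcases hAb with h2 | h2
        · right; rw [h2]
        · left; rw [h2, neg_neg]
    · have hmu0 : mu c a b x ≠ 0 := by
        intro h1
        apply hx0
        unfold Hp
        rw [h1, Nn_eq_zero]
      have hxb : x ≠ b ∧ x ≠ -b := by
        rw [Hp_eq_zero c h] at hx0
        push Not at hx0
        exact hx0.2
      have h2 := hχ0' _ hmu0
      rw [hΦ x hxb] at h2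
      unfold Hp Nn
      rw [mul_pow, ← Complex.ofReal_pow, Real.sq_sqrt (by positivity), ← h2]
      have e1 : ((1 + ‖mu c a b x‖ ^ 2 : ℝ) : ℂ) ≠ 0 := by exact_mod_cast (Nn_pos _).ne'
      have e2 : ((1 + ‖mu c a b (A x)‖ ^ 2 : ℝ) : ℂ) ≠ 0 := by exact_mod_cast (Nn_pos _).ne'
      rw [h2]
      rw [Complex.ofReal_div]
      rw [← h2]
      have e3 : ((1 + ‖χ0 (mu c a b x) ^ 2 * mu c a b x‖ ^ 2 : ℝ) : ℂ) ≠ 0 := by
        exact_mod_cast (Nn_pos _).ne'
      field_simp

end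

end Pool.Agent.TH615.ML
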