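import Pool.Agent.TH615.ML.Pair
import Pool.Agent.TH615.ML.Dbl

/-! The double cover branched over a prescribed set of points. -/

set_option autoImplicit false

open Topology Filter Set

namespace Pool.Agent.TH615.ML

lemma loc_mul {H : Torus → ℂ} {x0 : Torus} (e : OpenPartialHomeomorph Torus ℂ)
    (he : x0 ∈ e.source) (k : Torus → ℂ) (hk : ContinuousOn k e.source) (R : Torus → ℂ)
    (hR : ContinuousOn R e.source) (hR0 : R x0 ≠ 0)
    (hH : ∀ x ∈ e.source, k x ≠ 0 ∧ H x = e x * k x ^ 2 * R x) :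
    ∃ e' : OpenPartialHomeomorph Torus ℂ, x0 ∈ e'.source ∧ ∃ k' : Torus → ℂ,
      ContinuousOn k' e'.source ∧ ∀ x ∈ e'.source, k' x ≠ 0 ∧ H x = e' x * k' x ^ 2 := by
  have hR' : ContinuousOn (fun x => R x / R x0) e.source := hR.div_const _
  have hO : IsOpen (e.source ∩ (fun x => R x / R x0) ⁻¹' Complex.slitPlane) :=
    hR'.isOpen_inter_preimage e.open_source Complex.isOpen_slitPlane
  obtain ⟨s0, hs0⟩ := IsAlgClosed.exists_pow_nat_eq (R x0) (n := 2) (by norm_num)
  have hs0' : s0 ≠ 0 := by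
    rintro rfl
    apply hR0
    rw [← hs0]
    norm_num
  refine ⟨e.restrOpen _ hO, ?_, fun x => k x * ((R x / R x0) ^ ((2:ℕ) : ℂ)⁻¹ * s0), ?_, ?_⟩
  · rw [OpenPartialHomeomorph.restrOpen_source]
    refine ⟨he, he, ?_⟩
    show R x0 / R x0 ∈ Complex.slitPlane
    rw [div_self hR0]
    exact Complex.one_mem_slitPlane
  · rw [OpenPartialHomeomorph.restrOpen_source]
    intro x hx
    apply ContinuousAt.continuousWithinAt
    have h1 := hk.continuousAt (e.open_source.mem_nhds hx.1)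
    have h2 := hR'.continuousAt (e.open_source.mem_nhds hx.1)
    exact h1.mul ((h2.cpow continuousAt_const hx.2.2).mul continuousAt_const)
  · rw [OpenPartialHomeomorph.restrOpen_source]
    intro x hx
    obtain ⟨h1, h2⟩ := hH x hx.1
    have h3 : R x / R x0 ≠ 0 := Complex.slitPlane_ne_zero hx.2.2
    refine ⟨mul_ne_zero h1 (mul_ne_zero ?_ hs0'), ?_⟩
    · rw [Complex.cpow_ne_zero_iff]
      left; exact h3
    · have h4 : (e.restrOpen _ hO) x = e x := rfl
      rw [h2, h4, mul_pow, mul_pow, Complex.cpow_nat_inv_pow _ (two_ne_zero), hs0]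
      field_simp

section

variable (c : (ℝ × ℝ) ≃L[ℝ] ℂ)

/-- pairs of branch points -/
structure Pairs (m : ℕ) where
  a : Fin m → Torus
  b : Fin m → Torus
  ok : ∀ i, PairOK (a i) (b i)
  dis : ∀ i j, i ≠ j → ∀ x, ¬ (((x = a i ∨ x = -a i) ∨ (x = b i ∨ x = -b i)) ∧
    ((x = a j ∨ x = -a j) ∨ (x = b j ∨ x = -b j)))

variable {m : ℕ} (P : Pairs m)

/-- the product -/
noncomputable def HH (x : Torus) : ℂ := ∏ i, Hp c (P.a i) (P.b i) x

lemma HH_eq_zero (x : Torus) : HH c P x = 0 ↔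
    ∃ i, (x = P.a i ∨ x = -P.a i) ∨ (x = P.b i ∨ x = -P.b i) := by
  unfold HH
  rw [Finset.prod_eq_zero_iff]
  constructor
  · rintro ⟨i, -, hi⟩
    exact ⟨i, (Hp_eq_zero c (P.ok i)).mp hi⟩
  · rintro ⟨i, hi⟩
    exact ⟨i, Finset.mem_univ _, (Hp_eq_zero c (P.ok i)).mpr hi⟩

lemma HH_cont : Continuous (HH c P) := by
  unfold HH
  exact continuous_finsetProd _ fun i _ => Hp_cont c (P.ok i)

lemma HH_loc (x0 : Torus) : ∃ e : OpenPartialHomeomorph Torus ℂ, x0 ∈ e.source ∧
    ∃ k : Torus → ℂ, ContinuousOn k e.source ∧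
      ∀ x ∈ e.source, k x ≠ 0 ∧ HH c P x = e x * k x ^ 2 := by
  by_cases h0 : HH c P x0 = 0
  · obtain ⟨i, hi⟩ := (HH_eq_zero c P x0).mp h0
    obtain ⟨e, he, k, hk, hH⟩ := Hp_local c (P.ok i) ((Hp_eq_zero c (P.ok i)).mpr hi)
    refine loc_mul e he k hk
      (fun x => ∏ j ∈ Finset.univ.erase i, Hp c (P.a j) (P.b j) x) ?_ ?_ ?_
    · exact (continuous_finsetProd _ fun j _ => Hp_cont c (P.ok j)).continuousOn
    · rw [Finset.prod_ne_zero_iff]
      intro j hj hz
      have hji : j ≠ i := Finset.ne_of_mem_erase hj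
      exact P.dis j i hji x0 ⟨(Hp_eq_zero c (P.ok j)).mp hz, hi⟩
    · intro x hx
      obtain ⟨h1, h2⟩ := hH x hx
      refine ⟨h1, ?_⟩
      unfold HH
      rw [← Finset.mul_prod_erase _ _ (Finset.mem_univ i), h2]
  · obtain ⟨z0, rfl⟩ := PP_surj c x0
    obtain ⟨e2, h2, h2'⟩ := PP_isLocalHomeomorph c z0
    have h2'' : ∀ z, e2 z = PP c z := fun z => by rw [h2']
    set e3 : OpenPartialHomeomorph Torus ℂ :=
      e2.symm.trans (Homeomorph.addRight (1 - z0)).toOpenPartialHomeomorph with he3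
    have hsrc : e3.source = e2.target := by simp [he3]
    have he3x : ∀ x, e3 x = e2.symm x + (1 - z0) := fun x => rfl
    have hval : e3 (PP c z0) = 1 := by
      rw [he3x, ← h2'', e2.left_inv h2]
      ring
    have hO : IsOpen (e3.source ∩ (e3 ⁻¹' {0}ᶜ)) :=
      e3.continuousOn.isOpen_inter_preimage e3.open_source isOpen_compl_singleton
    have hmem : PP c z0 ∈ e3.source := by
      rw [hsrc, ← h2'']
      exact e2.map_source h2
    refine loc_mul (e3.restrOpen _ hO) ?_ (fun _ => 1) continuousOn_const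
      (fun x => HH c P x / e3 x) ?_ ?_ ?_
    · rw [OpenPartialHomeomorph.restrOpen_source]
      refine ⟨hmem, hmem, ?_⟩
      show e3 (PP c z0) ∈ ({0}ᶜ : Set ℂ)
      rw [hval]
      simp
    · rw [OpenPartialHomeomorph.restrOpen_source]
      refine (HH_cont c P).continuousOn.div (e3.continuousOn.mono inter_subset_left) ?_
      intro x hx
      exact hx.2.2
    · show HH c P (PP c z0) / e3 (PP c z0) ≠ 0
      rw [hval, div_one]
      exact h0
    · rw [OpenPartialHomeomorph.restrOpen_source]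
      intro x hx
      refine ⟨one_ne_zero, ?_⟩
      have h4 : (e3.restrOpen _ hO) x = e3 x := rfl
      have h5 : e3 x ≠ 0 := hx.2.2
      rw [h4]
      field_simp

/-- The double cover data. -/
noncomputable def PD (hm : 0 < m) : DblData where
  H := HH c P
  H_cont := HH_cont c P
  H_zero := ⟨P.a ⟨0, hm⟩, (HH_eq_zero c P _).mpr ⟨⟨0, hm⟩, Or.inl (Or.inl rfl)⟩⟩
  H_fin := by
    have : {x | HH c P x = 0} ⊆ ⋃ i, {P.a i, -P.a i, P.b i, -P.b i} := by
      intro x hx
      obtain ⟨i, hi⟩ := (HH_eq_zero c P x).mp hx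
      rw [mem_iUnion]
      refine ⟨i, ?_⟩
      simp only [mem_insert_iff, mem_singleton_iff]
      tauto
    exact (Set.finite_iUnion fun i => Set.toFinite _).subset this
  loc := HH_loc c P

theorem PD_lift (hm : 0 < m) (A : Torus ≃ₜ Torus) (hneg : ∀ x, A (-x) = - A x)
    (ha : ∀ i, A (P.a i) = P.a i ∨ A (P.a i) = -P.a i)
    (hb : ∀ i, A (P.b i) = P.b i ∨ A (P.b i) = -P.b i) :
    ∃ f : (PD c P hm).S ≃ₜ (PD c P hm).S, ∀ p, (PD c P hm).pr (f p) = A ((PD c P hm).pr p) := by
  have h1 := fun i => Hp_lift c (P.ok i) A hneg (ha i) (hb i)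
  choose χ hχ hχ2 using h1
  have hpres : ∀ y, (A y = y ∨ A y = -y) → ∀ x, (A x = y ∨ A x = -y) → (x = y ∨ x = -y) := by
    intro y hy x hx
    rcases hy with hy | hy <;> rcases hx with hx | hx
    · left; exact A.injective (hx.trans hy.symm)
    · right; exact A.injective (by rw [hx, hneg, hy])
    · right; exact A.injective (by rw [hx, hneg, hy, neg_neg])
    · left; exact A.injective (hx.trans hy.symm)
  refine DblData.exists_lift (PD c P hm) A (fun x => ∏ i, χ i x) ?_ ?_ ?_
  · refine continuousOn_finsetProd _ fun i _ => (hχ i).mono ?_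
    intro x hx
    have hx' : HH c P x ≠ 0 := hx
    unfold HH at hx'
    rw [Finset.prod_ne_zero_iff] at hx'
    exact hx' i (Finset.mem_univ _)
  · intro x
    show (∏ i, χ i x) ^ 2 * HH c P x = HH c P (A x)
    unfold HH
    rw [← Finset.prod_pow, ← Finset.prod_mul_distrib]
    exact Finset.prod_congr rfl fun i _ => hχ2 i x
  · intro x
    show HH c P (A x) = 0 ↔ HH c P x = 0
    constructor
    · intro h
      obtain ⟨i, hi⟩ := (HH_eq_zero c P _).mp h
      refine (HH_eq_zero c P _).mpr ⟨i, ?_⟩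
      rcases hi with hi | hi
      · left; exact hpres _ (ha i) x hi
      · right; exact hpres _ (hb i) x hi
    · intro h
      have h2 : (∏ i, χ i x) ^ 2 * HH c P x = HH c P (A x) := by
        unfold HH
        rw [← Finset.prod_pow, ← Finset.prod_mul_distrib]
        exact Finset.prod_congr rfl fun i _ => hχ2 i x
      rw [← h2, h, mul_zero]

end

end Pool.Agent.TH615.ML
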