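import Pool.Agent.TH615.ML.Core5

/-! Conformal maps between branched double covers of tori descend to the tori. -/

set_option autoImplicit false

open Topology Filter Set

namespace Pool.Agent.TH615.ML

section general

variable {g : ℕ} (X : TorusDouble g)

lemma pi_tau (p : X.S) : X.π (X.τ p) = X.π p := ((X.fibre p (X.τ p)).mpr (Or.inr rfl)).symm

lemma pi_isQuotientMap : IsQuotientMap X.π :=
  (X.π_continuous.isClosedMap).isQuotientMap X.π_continuous X.π_surjective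

lemma pi_isOpenMap : IsOpenMap X.π := by
  intro U hU
  rw [← (pi_isQuotientMap X).isOpen_preimage]
  have : X.π ⁻¹' (X.π '' U) = U ∪ X.τ ⁻¹' U := by
    ext q
    simp only [mem_preimage, mem_image, mem_union]
    constructor
    · rintro ⟨p, hp, hpq⟩
      rcases (X.fibre p q).mp hpq with h | h
      · left; rwa [h]
      · right; rw [h, X.τ_τ]; exact hp
    · rintro (h | h)
      · exact ⟨q, h, rfl⟩
      · exact ⟨X.τ q, h, pi_tau X q⟩
  rw [this]
  exact hU.union (hU.preimage X.τ_continuous)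

lemma pi_injOn {p : X.S} (hp : X.τ p ≠ p) : ∃ W ∈ 𝓝 p, InjOn X.π W := by
  obtain ⟨U, V, hU, hV, hpU, hpV, hd⟩ := t2_separation hp.symm
  refine ⟨U ∩ X.τ ⁻¹' V, (hU.inter (hV.preimage X.τ_continuous)).mem_nhds ⟨hpU, hpV⟩, ?_⟩
  rintro q ⟨hqU, hqV⟩ q' ⟨hqU', hqV'⟩ h
  rcases (X.fibre q q').mp h with h | h
  · exact h.symm
  · exfalso
    rw [h] at hqU'
    exact disjoint_left.mp hd hqU' hqV

lemma fibre_finite (x : Torus) : (X.π ⁻¹' {x}).Finite := by
  obtain ⟨p, rfl⟩ := X.π_surjective x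
  refine (Set.toFinite {p, X.τ p}).subset ?_
  intro q hq
  have hq' : X.π q = X.π p := hq
  rcases (X.fibre p q).mp hq'.symm with h | h
  · left; exact h
  · right; exact h

lemma preimage_finite {s : Set Torus} (hs : s.Finite) : (X.π ⁻¹' s).Finite := by
  have : X.π ⁻¹' s = ⋃ x ∈ s, X.π ⁻¹' {x} := by
    ext q; simp
  rw [this]
  exact hs.biUnion fun x _ => fibre_finite X x

lemma neBot_S (p : X.S) : (𝓝[≠] p).NeBot := by
  rw [← mem_closure_iff_nhdsWithin_neBot]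
  by_contra h
  have h2 : IsOpen ({p} : Set X.S) := by
    rw [← isClosed_compl_iff]
    have h3 : closure ({p}ᶜ : Set X.S) = {p}ᶜ := by
      apply Subset.antisymm _ subset_closure
      intro q hq hqp
      rw [mem_singleton_iff] at hqp
      rw [hqp] at hq
      exact h hq
    rw [← h3]
    exact isClosed_closure
  obtain ⟨e, he⟩ := X.locallyPlane p
  have h4 := e.isOpen_image_of_subset_source h2 (by simpa using he)
  rw [image_singleton] at h4
  have h5 : (𝓝[≠] (e p)).NeBot := inferInstance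
  rw [← mem_closure_iff_nhdsWithin_neBot] at h5
  have := mem_closure_iff.mp h5 _ h4 rfl
  obtain ⟨z, hz1, hz2⟩ := this
  exact hz2 hz1

lemma dense_of_finite {s : Set X.S} (hs : s.Finite) : Dense sᶜ := by
  have : ∀ p : X.S, (𝓝[≠] p).NeBot := neBot_S X
  have h := dense_univ.sdiff_finite hs
  rwa [← compl_eq_univ_sdiff] at h

end general

section

variable {g h : ℕ} {X : TorusDouble g} {Y : TorusDouble h} {cX cY : (ℝ × ℝ) ≃L[ℝ] ℂ}
  {ψ : X.S ≃ₜ Y.S}

lemma local_section {p : X.S} {z0 : ℂ} (hz0 : PP cX z0 = X.π p) {W : Set X.S} (hW : W ∈ 𝓝 p) :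
    ∀ᶠ z in 𝓝 z0, ∃ q ∈ W, X.π q = PP cX z := by
  have h1 : X.π '' W ∈ 𝓝 (X.π p) := (pi_isOpenMap X).image_mem_nhds hW
  rw [← hz0] at h1
  exact (PP_continuous cX).continuousAt.eventually h1

lemma local_lift {p : X.S} (hp : HoloAt X Y cX cY ψ p) {z0 : ℂ} (hz0 : PP cX z0 = X.π p) :
    ∃ F : ℂ → ℂ, AnalyticAt ℂ F z0 ∧ ∃ W ∈ 𝓝 p, ∃ V ∈ 𝓝 z0, ∀ q ∈ W, ∀ z ∈ V,
      PP cX z = X.π q → PP cY (F z) = Y.π (ψ q) := by
  obtain ⟨U, hU, a, b, F0, ha, hb, hma, hmb, hF0, hcb⟩ := hp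
  have hpU := mem_of_mem_nhds hU
  have h1 : cX (a p) - z0 ∈ (lat cX).lattice := by
    rw [← PP_eq, PP_c, hma p hpU, hz0]
  obtain ⟨δ, hδ, hgap⟩ := lat_gap cX
  refine ⟨fun z => F0 (z + (cX (a p) - z0)), ?_, ?_⟩
  · have h2 : AnalyticAt ℂ F0 (z0 + (cX (a p) - z0)) := by
      rw [add_sub_cancel]; exact hF0
    exact AnalyticAt.comp (f := fun z : ℂ => z + (cX (a p) - z0)) h2
      (analyticAt_id.add analyticAt_const)
  · have hca : ContinuousAt (fun q => cX (a q)) p :=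
      cX.continuous.continuousAt.comp (ha.continuousAt hU)
    have hW : ∀ᶠ q in 𝓝 p, ‖cX (a q) - cX (a p)‖ < δ / 2 := by
      have := Metric.tendsto_nhds.mp hca (δ / 2) (by positivity)
      simpa [dist_eq_norm] using this
    refine ⟨U ∩ {q | ‖cX (a q) - cX (a p)‖ < δ / 2}, inter_mem hU hW, Metric.ball z0 (δ / 2),
      Metric.ball_mem_nhds _ (by positivity), ?_⟩
    rintro q ⟨hqU, hq⟩ z hz hzq
    have h3 : cX (a q) - z ∈ (lat cX).lattice := by
      rw [← PP_eq, PP_c, hma q hqU, hzq]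
    have h4 : (cX (a q) - z) - (cX (a p) - z0) ∈ (lat cX).lattice := sub_mem h3 h1
    have h5 : ‖(cX (a q) - z) - (cX (a p) - z0)‖ < δ := by
      have : (cX (a q) - z) - (cX (a p) - z0) = (cX (a q) - cX (a p)) - (z - z0) := by ring
      rw [this]
      have h6 : ‖z - z0‖ < δ / 2 := by simpa [dist_eq_norm] using hz
      have h7 : ‖cX (a q) - cX (a p)‖ < δ / 2 := hq
      linarith [norm_sub_le (cX (a q) - cX (a p)) (z - z0)]
    have h6 := hgap _ h4 h5
    have h7 : z + (cX (a p) - z0) = cX (a q) := by linear_combination -h6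
    show PP cY (F0 (z + (cX (a p) - z0))) = _
    rw [h7, ← hcb q hqU, PP_c, hmb q hqU]

lemma local_deriv {p : X.S} {z0 : ℂ} (hz0 : PP cX z0 = X.π p) {F : ℂ → ℂ}
    (hF : AnalyticAt ℂ F z0) {W : Set X.S} (hW : W ∈ 𝓝 p) {V : Set ℂ} (hV : V ∈ 𝓝 z0)
    (h : ∀ q ∈ W, ∀ z ∈ V, PP cX z = X.π q → PP cY (F z) = Y.π (ψ q))
    (hY : Y.τ (ψ p) ≠ ψ p) : deriv F z0 ≠ 0 := by
  obtain ⟨δ, hδ, hgap⟩ := lat_gap cX
  obtain ⟨W1, hW1, hinj⟩ := pi_injOn Y hY
  have hW2 : W ∩ ψ ⁻¹' W1 ∈ 𝓝 p := inter_mem hW (ψ.continuous.continuousAt.preimage_mem_nhds hW1)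
  have hsec := local_section hz0 hW2
  refine deriv_ne_zero_of_inj hF (U := V ∩ {z | ∃ q ∈ W ∩ ψ ⁻¹' W1, X.π q = PP cX z} ∩
    Metric.ball z0 (δ / 2)) (inter_mem (inter_mem hV hsec)
      (Metric.ball_mem_nhds _ (by positivity))) ?_
  rintro z ⟨⟨hzV, q, ⟨hqW, hqW1⟩, hq⟩, hzb⟩ z' ⟨⟨hzV', q', ⟨hqW', hqW1'⟩, hq'⟩, hzb'⟩ hzz
  have h1 := h q hqW z hzV hq.symm
  have h2 := h q' hqW' z' hzV' hq'.symm
  rw [hzz, h2] at h1
  have h3 := hinj hqW1' hqW1 h1
  have h4 : q' = q := ψ.injective h3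
  rw [h4, hq, PP_eq] at hq'
  have h5 := hgap _ hq' (by
    have e1 : ‖z - z0‖ < δ / 2 := by simpa [dist_eq_norm] using hzb
    have e2 : ‖z' - z0‖ < δ / 2 := by simpa [dist_eq_norm] using hzb'
    calc ‖z - z'‖ = ‖(z - z0) - (z' - z0)‖ := by ring_nf
      _ ≤ ‖z - z0‖ + ‖z' - z0‖ := norm_sub_le _ _
      _ < δ := by linarith)
  exact sub_eq_zero.mp h5

/-- continuity of the Weierstrass function on the torus -/
lemma wpT_continuousAt (c : (ℝ × ℝ) ≃L[ℝ] ℂ) {x : Torus} (hx : x ≠ 0) :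
    ContinuousAt (wpT c) x := by
  obtain ⟨z, rfl⟩ := PP_surj c x
  have hz : z ∉ (lat c).lattice := fun hz => hx ((PP_eq_zero c z).mpr hz)
  have h1 : ContinuousAt (fun z => wpT c (PP c z)) z := by
    simp only [wpT_PP]
    exact ((lat c).analyticOnNhd_weierstrassP z hz).continuousAt
  have h2 : Filter.map (PP c) (𝓝 z) = 𝓝 (PP c z) :=
    le_antisymm (PP_continuous c).continuousAt ((PP_isOpenMap c).nhds_le z)
  unfold ContinuousAt
  rw [← h2, tendsto_map'_iff]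
  exact h1

/-- The main step: one good base point `t0`. -/
theorem step (E : Set X.S) (hE : E.Finite) (hψ : ∀ p, p ∉ E → HoloAt X Y cX cY ψ p)
    (Z : Finset ℂ) (hZ : 16 < Z.card)
    (hz : ∀ e ∈ Z, ∃ p, X.τ p = p ∧ X.π p ≠ 0 ∧ wpT cX (X.π p) = e)
    (t0 : Torus) (hgood : ∀ q, Y.π (ψ q) = t0 → q ∉ E ∧ X.τ q ∉ E ∧ X.τ q ≠ q ∧
      Y.τ (ψ q) ≠ ψ q ∧ X.π q ≠ 0) :
    ∃ B : Set X.S, B.Finite ∧ ∀ q ∉ B, Y.π (ψ (X.τ q)) = Y.π (ψ q) ∨
      Y.π (ψ (X.τ q)) + Y.π (ψ q) = t0 + t0 := by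
  classical
  obtain ⟨c0, rfl⟩ := PP_surj cY t0
  obtain ⟨y1, hy1⟩ := Y.π_surjective (PP cY c0)
  set q1 : X.S := ψ.symm y1 with hq1
  set q2 : X.S := ψ.symm (Y.τ y1) with hq2
  have hq12 : ∀ q, Y.π (ψ q) = PP cY c0 → q = q1 ∨ q = q2 := by
    intro q hq
    rw [← hy1] at hq
    rcases (Y.fibre y1 (ψ q)).mp hq.symm with h | h
    · left; rw [hq1, ← h, ψ.symm_apply_apply]
    · right; rw [hq2, ← h, ψ.symm_apply_apply]
  set a1 : ℂ := wpT cX (X.π q1) with ha1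
  set a2 : ℂ := wpT cX (X.π q2) with ha2
  set hh : X.S → ℂ := fun q => wpT cY (Y.π (ψ q) - PP cY c0) with hhh
  set G : X.S → ℂ := fun q => (hh q - hh (X.τ q)) ^ 2 with hG
  have hGτ : ∀ q, G (X.τ q) = G q := by
    intro q
    simp only [hG, X.τ_τ]
    ring
  set sX : Torus → X.S := Function.surjInv X.π_surjective with hsX
  have hsXπ : ∀ x, X.π (sX x) = x := Function.surjInv_eq X.π_surjective
  set U : ℂ → ℂ := fun z => G (sX (PP cX z)) with hU
  have hUG : ∀ z q, X.π q = PP cX z → U z = G q := by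
    intro z q hq
    have h1 : X.π q = X.π (sX (PP cX z)) := by rw [hsXπ, hq]
    rcases (X.fibre _ _).mp h1 with h | h
    · simp only [hU, h]
    · simp only [hU, h, hGτ]
  set R : ℂ → ℂ := fun z => ((lat cX).weierstrassP z - a1) ^ 4 *
    ((lat cX).weierstrassP z - a2) ^ 4 with hR
  set Q : ℂ → ℂ := fun z => U z * R z with hQ
  have hper : ∀ z w, PP cX z = PP cX w → Q z = Q w := by
    intro z w hzw
    simp only [hQ, hU, hR]
    rw [hzw, wp_congr cX hzw]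
  have hccon : ∀ q, Y.π (ψ q) ≠ PP cY c0 → ContinuousAt hh q := by
    intro q hq
    have h1 : ContinuousAt (fun q => Y.π (ψ q) - PP cY c0) q :=
      ((Y.π_continuous.comp ψ.continuous).sub continuous_const).continuousAt
    exact ContinuousAt.comp (f := fun q => Y.π (ψ q) - PP cY c0)
      (wpT_continuousAt cY (sub_ne_zero.mpr hq)) h1
  have hGcon : ∀ q, Y.π (ψ q) ≠ PP cY c0 → Y.π (ψ (X.τ q)) ≠ PP cY c0 → ContinuousAt G q := by
    intro q h1 h2
    have h3 : ContinuousAt (fun q => hh (X.τ q)) q :=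
      ContinuousAt.comp (f := X.τ) (hccon _ h2) X.τ_continuous.continuousAt
    exact ((hccon q h1).sub h3).pow 2
  have hUcon : ∀ z0 p, X.π p = PP cX z0 → Y.π (ψ p) ≠ PP cY c0 →
      Y.π (ψ (X.τ p)) ≠ PP cY c0 → Tendsto U (𝓝 z0) (𝓝 (G p)) := by
    intro z0 p hp h1 h2
    have h3 := hGcon p h1 h2
    intro s hs
    have h4 : G ⁻¹' s ∈ 𝓝 p := h3 hs
    rw [mem_map]
    filter_upwards [local_section hp.symm h4] with z hz
    obtain ⟨q, hq, hqz⟩ := hz
    show U z ∈ s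
    rw [hUG z q hqz]
    exact hq
  -- bounds for `R`
  have hRb : ∀ z, ‖R z‖ ≤ (1 + ‖a1‖) ^ 4 * (1 + ‖a2‖) ^ 4 *
      (1 + ‖(lat cX).weierstrassP z‖) ^ 8 := by
    intro z
    have h1 : ∀ a : ℂ, ‖(lat cX).weierstrassP z - a‖ ≤
        (1 + ‖a‖) * (1 + ‖(lat cX).weierstrassP z‖) := by
      intro a
      have := norm_sub_le ((lat cX).weierstrassP z) a
      nlinarith [norm_nonneg a, norm_nonneg ((lat cX).weierstrassP z)]
    simp only [hR, norm_mul, norm_pow]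
    calc ‖(lat cX).weierstrassP z - a1‖ ^ 4 * ‖(lat cX).weierstrassP z - a2‖ ^ 4
        ≤ ((1 + ‖a1‖) * (1 + ‖(lat cX).weierstrassP z‖)) ^ 4 *
          ((1 + ‖a2‖) * (1 + ‖(lat cX).weierstrassP z‖)) ^ 4 := by
          gcongr
          · exact h1 a1
          · exact h1 a2
      _ = _ := by ring
  have hRc : ∀ z0 ∉ (lat cX).lattice, ((lat cX).weierstrassP z0 = a1 ∨
      (lat cX).weierstrassP z0 = a2) → ∃ C, ∀ᶠ z in 𝓝 z0, ‖R z‖ ≤ C * ‖z - z0‖ ^ 4 := by
    have key : ∀ z0 ∉ (lat cX).lattice, ∀ a, ∃ C, ∀ᶠ z in 𝓝 z0,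
        ‖((lat cX).weierstrassP z - (lat cX).weierstrassP z0) ^ 4 *
          ((lat cX).weierstrassP z - a) ^ 4‖ ≤ C * ‖z - z0‖ ^ 4 := by
      intro z0 hz0 a
      have hd := ((lat cX).analyticOnNhd_weierstrassP z0 hz0)
      have h1 : (fun z => (lat cX).weierstrassP z - (lat cX).weierstrassP z0) =O[𝓝 z0]
          fun z => z - z0 := hd.differentiableAt.isBigO_sub
      obtain ⟨C1, hC10, hC1⟩ := h1.exists_pos
      have h2 : ∀ᶠ z in 𝓝 z0, ‖(lat cX).weierstrassP z - a‖ ≤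
          ‖(lat cX).weierstrassP z0 - a‖ + 1 := by
        have h3 : ContinuousAt (fun z => ‖(lat cX).weierstrassP z - a‖) z0 :=
          (hd.continuousAt.sub continuousAt_const).norm
        filter_upwards [h3.eventually_lt_const (u := ‖(lat cX).weierstrassP z0 - a‖ + 1)
          (by linarith)] with z hz using hz.le
      refine ⟨C1 ^ 4 * (‖(lat cX).weierstrassP z0 - a‖ + 1) ^ 4, ?_⟩
      filter_upwards [hC1.bound, h2] with z hz1 hz2
      rw [norm_mul, norm_pow, norm_pow]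
      calc _ ≤ (C1 * ‖z - z0‖) ^ 4 * (‖(lat cX).weierstrassP z0 - a‖ + 1) ^ 4 := by gcongr
        _ = _ := by ring
    rintro z0 hz0 (h | h)
    · simp only [hR, ← h]
      exact key z0 hz0 a2
    · simp only [hR, ← h]
      obtain ⟨C, hC⟩ := key z0 hz0 a1
      refine ⟨C, ?_⟩
      filter_upwards [hC] with z hz
      rwa [mul_comm]
  -- local formula for `U`
  have hloc : ∀ z0 p, X.π p = PP cX z0 → p ∉ E → X.τ p ∉ E → ∃ F1 F2 : ℂ → ℂ,
      AnalyticAt ℂ F1 z0 ∧ AnalyticAt ℂ F2 z0 ∧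
      (Y.τ (ψ p) ≠ ψ p → deriv F1 z0 ≠ 0) ∧
      (Y.τ (ψ (X.τ p)) ≠ ψ (X.τ p) → deriv F2 z0 ≠ 0) ∧
      PP cY (F1 z0) = Y.π (ψ p) - PP cY c0 ∧ PP cY (F2 z0) = Y.π (ψ (X.τ p)) - PP cY c0 ∧
      ∀ᶠ z in 𝓝 z0, U z = ((lat cY).weierstrassP (F1 z) - (lat cY).weierstrassP (F2 z)) ^ 2 := by
    intro z0 p hp hpE hpE'
    have hp' : PP cX z0 = X.π (X.τ p) := by rw [pi_tau, hp]
    obtain ⟨F1, hF1, W1, hW1, V1, hV1, h1⟩ := local_lift (hψ p hpE) hp.symm
    obtain ⟨F2, hF2, W2, hW2, V2, hV2, h2⟩ := local_lift (hψ (X.τ p) hpE') hp'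
    refine ⟨fun z => F1 z - c0, fun z => F2 z - c0, hF1.sub analyticAt_const,
      hF2.sub analyticAt_const, ?_, ?_, ?_, ?_, ?_⟩
    · intro hne
      rw [deriv_sub_const]
      exact local_deriv hp.symm hF1 hW1 hV1 h1 hne
    · intro hne
      rw [deriv_sub_const]
      exact local_deriv hp' hF2 hW2 hV2 h2 hne
    · rw [PP_sub, h1 p (mem_of_mem_nhds hW1) z0 (mem_of_mem_nhds hV1) hp.symm]
    · rw [PP_sub, h2 (X.τ p) (mem_of_mem_nhds hW2) z0 (mem_of_mem_nhds hV2) hp']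
    · have hW : W1 ∩ X.τ ⁻¹' W2 ∈ 𝓝 p :=
        inter_mem hW1 (X.τ_continuous.continuousAt.preimage_mem_nhds hW2)
      filter_upwards [local_section hp.symm hW, hV1, hV2] with z hz hzV1 hzV2
      obtain ⟨q, ⟨hq1', hq2'⟩, hqz⟩ := hz
      rw [hUG z q hqz]
      have e1 := h1 q hq1' z hzV1 hqz.symm
      have e2 := h2 (X.τ q) hq2' z hzV2 (by rw [pi_tau, hqz])
      simp only [hG, hhh]
      rw [← e1, ← e2, ← PP_sub, ← PP_sub, wpT_PP, wpT_PP]
  -- the growth condition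
  have hbd : ∀ z0, ∃ C, ∀ᶠ z in 𝓝 z0, ‖Q z‖ ≤ C * (1 + ‖(lat cX).weierstrassP z‖) ^ 8 := by
    have hpole : ∀ z0 p, X.π p = PP cX z0 → Y.π (ψ p) = PP cY c0 →
        ∃ C, ∀ᶠ z in 𝓝 z0, ‖Q z‖ ≤ C * (1 + ‖(lat cX).weierstrassP z‖) ^ 8 := by
      intro z0 p hp hpc
      obtain ⟨g1, g2, g3, g4, g5⟩ := hgood p hpc
      have hz0 : z0 ∉ (lat cX).lattice := by
        intro hz0
        apply g5
        rw [hp]
        exact (PP_eq_zero cX z0).mpr hz0
      obtain ⟨F1, F2, hF1, hF2, hd1, hd2, hc1, hc2, hUF⟩ := hloc z0 p hp g1 g2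
      obtain ⟨C1, hC1⟩ := wp_growth (lat cY) hF1 (Or.inr (hd1 g4))
      obtain ⟨C2, hC2⟩ := wp_growth (lat cY) hF2 (by
        by_cases hm : F2 z0 ∈ (lat cY).lattice
        · right
          apply hd2
          have : Y.π (ψ (X.τ p)) = PP cY c0 := by
            rw [← PP_eq_zero, hc2, sub_eq_zero] at hm
            exact hm
          exact (hgood _ this).2.2.2.1
        · left; exact hm)
      have ha : (lat cX).weierstrassP z0 = a1 ∨ (lat cX).weierstrassP z0 = a2 := by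
        rcases hq12 p hpc with h | h
        · left; rw [ha1, ← h, hp, wpT_PP]
        · right; rw [ha2, ← h, hp, wpT_PP]
      obtain ⟨C3, hC3⟩ := hRc z0 hz0 ha
      refine ⟨|C3| * (C1 + C2) ^ 2, ?_⟩
      filter_upwards [hUF, hC1, hC2, hC3] with z e1 e2 e3 e4
      have e5 : ‖U z‖ * ‖z - z0‖ ^ 4 ≤ (C1 + C2) ^ 2 := by
        rw [e1, norm_pow]
        calc ‖(lat cY).weierstrassP (F1 z) - (lat cY).weierstrassP (F2 z)‖ ^ 2 * ‖z - z0‖ ^ 4
            = (‖z - z0‖ ^ 2 * ‖(lat cY).weierstrassP (F1 z) - (lat cY).weierstrassP (F2 z)‖) ^ 2 := by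
              ring
          _ ≤ (‖z - z0‖ ^ 2 * (‖(lat cY).weierstrassP (F1 z)‖ +
                ‖(lat cY).weierstrassP (F2 z)‖)) ^ 2 := by
              gcongr
              exact norm_sub_le _ _
          _ = (‖z - z0‖ ^ 2 * ‖(lat cY).weierstrassP (F1 z)‖ +
                ‖z - z0‖ ^ 2 * ‖(lat cY).weierstrassP (F2 z)‖) ^ 2 := by ring
          _ ≤ (C1 + C2) ^ 2 := by gcongr
      calc ‖Q z‖ = ‖U z‖ * ‖R z‖ := norm_mul _ _
        _ ≤ ‖U z‖ * (|C3| * ‖z - z0‖ ^ 4) := by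
            gcongr
            exact e4.trans (by gcongr; exact le_abs_self _)
        _ = |C3| * (‖U z‖ * ‖z - z0‖ ^ 4) := by ring
        _ ≤ |C3| * (C1 + C2) ^ 2 * 1 := by
            rw [mul_one]
            gcongr
        _ ≤ _ := by
            gcongr
            exact one_le_pow₀ (by linarith [norm_nonneg ((lat cX).weierstrassP z)])
    intro z0
    have hp : X.π (sX (PP cX z0)) = PP cX z0 := hsXπ _
    by_cases h1 : Y.π (ψ (sX (PP cX z0))) = PP cY c0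
    · exact hpole z0 _ hp h1
    · by_cases h2 : Y.π (ψ (X.τ (sX (PP cX z0)))) = PP cY c0
      · exact hpole z0 (X.τ (sX (PP cX z0))) (by rw [pi_tau, hp]) h2
      · have h3 := hUcon z0 _ hp h1 h2
        refine ⟨(‖G (sX (PP cX z0))‖ + 1) * ((1 + ‖a1‖) ^ 4 * (1 + ‖a2‖) ^ 4), ?_⟩
        filter_upwards [h3.norm.eventually_lt_const (u := ‖G (sX (PP cX z0))‖ + 1)
          (by linarith)] with z hz
        calc ‖Q z‖ = ‖U z‖ * ‖R z‖ := norm_mul _ _
          _ ≤ (‖G (sX (PP cX z0))‖ + 1) * ((1 + ‖a1‖) ^ 4 * (1 + ‖a2‖) ^ 4 *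
              (1 + ‖(lat cX).weierstrassP z‖) ^ 8) := by
              gcongr
              exact hRb z
          _ = _ := by ring
  -- the exceptional values
  set F : Set ℂ := (fun q => wpT cX (X.π q)) '' (E ∪ X.τ '' E ∪ {q1, q2}) with hF
  have hFfin : F.Finite := ((hE.union (hE.image _)).union (Set.toFinite _)).image _
  have hnE : ∀ z q, X.π q = PP cX z → (lat cX).weierstrassP z ∉ F →
      q ∉ E ∧ X.τ q ∉ E ∧ Y.π (ψ q) ≠ PP cY c0 ∧ Y.π (ψ (X.τ q)) ≠ PP cY c0 := by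
    intro z q hq hzF
    have h0 : (lat cX).weierstrassP z = wpT cX (X.π q) := by rw [hq, wpT_PP]
    refine ⟨?_, ?_, ?_, ?_⟩
    · intro h
      exact hzF ⟨q, Or.inl (Or.inl h), h0.symm⟩
    · intro h
      refine hzF ⟨q, Or.inl (Or.inr ⟨X.τ q, h, X.τ_τ q⟩), h0.symm⟩
    · intro h
      refine hzF ⟨q, Or.inr (hq12 q h), h0.symm⟩
    · intro h
      refine hzF ⟨X.τ q, Or.inr (hq12 _ h), ?_⟩
      simp only [pi_tau]
      exact h0.symm
  have hana : ∀ z ∉ (lat cX).lattice, (lat cX).weierstrassP z ∉ F → AnalyticAt ℂ Q z := by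
    intro z hz hzF
    have hp : X.π (sX (PP cX z)) = PP cX z := hsXπ _
    obtain ⟨e1, e2, e3, e4⟩ := hnE z _ hp hzF
    obtain ⟨F1, F2, hF1, hF2, -, -, hc1, hc2, hUF⟩ := hloc z _ hp e1 e2
    have m1 : F1 z ∉ (lat cY).lattice := by
      intro h
      rw [← PP_eq_zero, hc1, sub_eq_zero] at h
      exact e3 h
    have m2 : F2 z ∉ (lat cY).lattice := by
      intro h
      rw [← PP_eq_zero, hc2, sub_eq_zero] at h
      exact e4 h
    have a1' : AnalyticAt ℂ (fun z => (lat cY).weierstrassP (F1 z)) z :=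
      AnalyticAt.comp (f := F1) ((lat cY).analyticOnNhd_weierstrassP _ m1) hF1
    have a2' : AnalyticAt ℂ (fun z => (lat cY).weierstrassP (F2 z)) z :=
      AnalyticAt.comp (f := F2) ((lat cY).analyticOnNhd_weierstrassP _ m2) hF2
    have a3' : AnalyticAt ℂ U z := ((a1'.sub a2').pow 2).congr (by
      filter_upwards [hUF] with w hw
      simp only [Pi.pow_apply, Pi.sub_apply]
      exact hw.symm)
    have a4' := (lat cX).analyticOnNhd_weierstrassP z hz
    exact a3'.mul (((a4'.sub analyticAt_const).pow 4).mul ((a4'.sub analyticAt_const).pow 4))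
  have hz' : ∀ e ∈ Z, ∃ z ∉ (lat cX).lattice, (lat cX).weierstrassP z = e ∧
      Tendsto Q (𝓝 z) (𝓝 0) := by
    intro e he
    obtain ⟨p, hp1, hp2, hp3⟩ := hz e he
    obtain ⟨z, hz⟩ := PP_surj cX (X.π p)
    have hzl : z ∉ (lat cX).lattice := by
      intro h
      apply hp2
      rw [← hz]
      exact (PP_eq_zero cX z).mpr h
    refine ⟨z, hzl, ?_, ?_⟩
    · rw [← wpT_PP, hz, hp3]
    · have hne : Y.π (ψ p) ≠ PP cY c0 := fun h => (hgood p h).2.2.1 hp1
      have h1 := hUcon z p hz.symm hne (by rw [hp1]; exact hne)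
      have h2 : G p = 0 := by
        simp only [hG, hp1]
        ring
      rw [h2] at h1
      have h3 : ContinuousAt R z := by
        have := ((lat cX).analyticOnNhd_weierstrassP z hzl).continuousAt
        exact ((this.sub continuousAt_const).pow 4).mul ((this.sub continuousAt_const).pow 4)
      have h4 := h1.mul h3
      rwa [zero_mul] at h4
  have hfin := core5 cX hper hbd hFfin hana Z hZ hz'
  -- conclusion
  refine ⟨X.π ⁻¹' {x | x = 0 ∨ wpT cX x ∈ F}, ?_, ?_⟩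
  · apply preimage_finite
    choose w hw hwx using Wg.wp_surj (lat cX)
    refine Set.Finite.subset (s := {0} ∪ ((fun x => PP cX (w x)) '' F ∪
      (fun x => - PP cX (w x)) '' F))
      ((Set.finite_singleton _).union ((hFfin.image _).union (hFfin.image _))) ?_
    intro x hx
    obtain ⟨z, rfl⟩ := PP_surj cX x
    by_cases hzl : z ∈ (lat cX).lattice
    · left
      exact (PP_eq_zero cX z).mpr hzl
    · right
      rcases hx with hx | hx
      · exact absurd ((PP_eq_zero cX z).mp hx) hzl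
      · rw [wpT_PP] at hx
        rcases (wp_eq_iff cX hzl (hw _)).mp (hwx ((lat cX).weierstrassP z)).symm with h | h
        · left; exact ⟨_, hx, h.symm⟩
        · right; exact ⟨_, hx, h.symm⟩
  · intro q hq
    obtain ⟨z, hz⟩ := PP_surj cX (X.π q)
    have hq1' : ¬ (X.π q = 0 ∨ wpT cX (X.π q) ∈ F) := hq
    push Not at hq1'
    have hzl : z ∉ (lat cX).lattice := by
      intro h
      exact hq1'.1 (by rw [← hz]; exact (PP_eq_zero cX z).mpr h)
    have hzF : (lat cX).weierstrassP z ∉ F := by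
      rw [← wpT_PP, hz]; exact hq1'.2
    obtain ⟨e1, e2, e3, e4⟩ := hnE z q hz.symm hzF
    have hQ0 := hfin z hzl hzF
    have hR0 : R z ≠ 0 := by
      simp only [hR]
      refine mul_ne_zero (pow_ne_zero _ (sub_ne_zero.mpr ?_)) (pow_ne_zero _ (sub_ne_zero.mpr ?_))
      · intro h
        exact hzF ⟨q1, Or.inr (Or.inl rfl), h.symm⟩
      · intro h
        exact hzF ⟨q2, Or.inr (Or.inr rfl), h.symm⟩
    have hU0 : U z = 0 := (mul_eq_zero.mp hQ0).resolve_right hR0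
    rw [hUG z q hz.symm] at hU0
    have h5 : hh q = hh (X.τ q) := sub_eq_zero.mp (pow_eq_zero_iff (two_ne_zero) |>.mp hU0)
    obtain ⟨w1, hw1⟩ := PP_surj cY (Y.π (ψ q) - PP cY c0)
    obtain ⟨w2, hw2⟩ := PP_surj cY (Y.π (ψ (X.τ q)) - PP cY c0)
    simp only [hhh] at h5
    rw [← hw1, ← hw2, wpT_PP, wpT_PP] at h5
    have n1 : w1 ∉ (lat cY).lattice := by
      intro h
      rw [← PP_eq_zero, hw1, sub_eq_zero] at h
      exact e3 h
    have n2 : w2 ∉ (lat cY).lattice := by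
      intro h
      rw [← PP_eq_zero, hw2, sub_eq_zero] at h
      exact e4 h
    rcases (wp_eq_iff cY n1 n2).mp h5 with h | h
    · left
      rw [hw1, hw2] at h
      exact (sub_left_injective h).symm
    · right
      rw [hw1, hw2] at h
      have : Y.π (ψ (X.τ q)) + Y.π (ψ q) = (Y.π (ψ q) - PP cY c0) +
        (Y.π (ψ (X.τ q)) - PP cY c0) + (PP cY c0 + PP cY c0) := by abel
      rw [this, h]
      abel

end

end Pool.Agent.TH615.ML
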